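import Pool.Agent.Lib.MP_7f581e_U.E.Defs

/-!
# C41 (MP_7f581e_nt), Block E, part 1: Stepanov's bound for the places fixed by a Frobenius map

One Lean task for each `def XStmt : Prop`: file `MP_7f581e_U/E/X.lean`, import this file,
`namespace MP7U`, `theorem eX : XStmt` (statements which are used are hypotheses, in the order of
the docstring: `theorem eX (h1 : AStmt) (h2 : BStmt) : XStmt`).  `N = Fintype.card G` is the order
of the group.  The data are explained in `Defs.lean`.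
-/

set_option autoImplicit false

namespace MP7U

open Polynomial

/-- **NumE.** (80 lines, arithmetic)  `M = √p`, `A = ⌊p/(4N)⌋`, `B = ⌊M/N⌋ + 8(c+1) + 1`.

*Proof.*  `16 N < p` and `400 < p` give `8 N < p / 2`, `M ≥ 20`, `10 M ≤ M² / 2 ≤ p / 2` (as real
numbers or: `20 M ≤ M * M ≤ p`), so `8 N + 10 M < p`.  `4 (N A) ≤ p < 4 N A + 4 N`; `N B = N ⌊M/N⌋ + N b`
with `b = 8(c+1)+1` and `M < N ⌊M/N⌋ + N`, `N ⌊M/N⌋ ≤ M`.  (1) `N (A + c) ≤ p/4 + N c`, `4 N c < p`.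
(2) Put `x = N A`; `4 x > p - 4 N`.  `N A (N B) ≥ x (M + N (b - 1))` (because `N B > M - N + N b`), and the right side
is `M x + M (N B) + M N (M + 2) c + M`.  So it suffices that `x N (b-1) > M (N B) + M N (M+2) c + M`; `N B ≤ M + N b`, `M² ≤ p`:
the right side is at most `p + M N b + N c (p + 2 M) + M`.  Multiply by 4: it suffices that
`8 N (c+1) (p - 4 N) > 4 p (1 + N c) + 4 M (N b + 2 N c + 1)`; `1 + N c ≤ N (c + 1)` and
`N b + 2 N c + 1 ≤ 10 N (c + 1)`, so it suffices that `4 p N (c+1) > 32 N² (c+1) + 40 M N (c + 1)`, i.e. `p > 8 N + 10 M`.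
(3) `N (A + c) + N p (B + c) ≤ p + N c + p (M + N b + N c)` and `p ≤ M² + 2 M ≤ 3 M²` (`Nat.sqrt_le_add`,
`M ≥ 1`), so this is `≤ M p + 3 M² (1 + N b + N c) + N c M²`.  (4) `M ≤ p`, `0 < M`.
(Use `Nat.sqrt_le'`, `Nat.lt_succ_sqrt'`, `nlinarith`; it helps to set names for the products.) -/
def NumEStmt : Prop :=
  ∀ p N c : ℕ, 1 ≤ N → 400 + 16 * N + 4 * N * c < p →
    let M := Nat.sqrt p
    let A := p / (4 * N)
    let B := M / N + (8 * (c + 1) + 1)
    N * (A + c) < p ∧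
    M * (N * (A + B + (M + 2) * c) + 1) < (N * A) * (N * B) ∧
    N * ((A + c) + p * (B + c)) ≤ M * (p + cst N c * M) ∧
    M ≤ p ∧ 0 < M

/-- **DkP.** (80 lines)  Properties of `dk`.

*Proof.*  (1) Induction; `dl'` has degree `≤ c` (`natDegree_derivative_le`), so `aeval t dl' ∈ S c`: a
polynomial `P` with `natDegree P ≤ c` has `aeval t P = ∑_{i ≤ c} P_i t^i ∈ S c` (`t^i ∈ S i` by `one_mem`, `t_mem`,
`mul_mem`; `mono`).  (2) Induction, `D (y^p) = p y^(p-1) D y = 0` (`Derivation.leibniz_pow`, `CharP κ p`, so `(p : R) = 0`: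
`R` is a `κ`-algebra), `D (x y^p) = D x y^p`.  (3) Induction: `h (D z) = h(dl) (h z)'` with
`z = dk k x`, `h z = h(dl)^k g_k`, where `g_k = (d/dX)^k (h x)`; `(h(dl)^k)' = k h(dl)^(k-1) h(dl)'`, and
`h(aeval t dl)' = h(aeval t dl')`: `h (aeval t P) = aeval (h t) P` and the derivative of `aeval (C a + X) P` is
`aeval (C a + X) P'` (induction on `P` or `Derivation` chain rule: `Derivation.leibniz_pow`, `Polynomial.induction_on'`).  So
`h(dk (k+1) x) = h(dl) (k h(dl)^(k-1) h(dl') g_k + h(dl)^k g_(k+1)) - k h(dl') h(dl)^k g_k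
= h(dl)^(k+1) g_(k+1)`; for `k = 0` separately. -/
def DkPStmt : Prop :=
  ∀ (p : ℕ) [Fact p.Prime] (κ : Type) [Field κ] [CharP κ p] (R : Type) [CommRing R] [Algebra κ R]
    (G : Type) [Group G] [Fintype G] (s : St p κ R G),
    (∀ k a x, x ∈ s.S a → s.dk k x ∈ s.S (a + k * s.c)) ∧
    (∀ k x y, s.dk k (x * y ^ p) = s.dk k x * y ^ p) ∧
    ∀ (ρ : R →ₐ[κ] κ) (h : R →ₐ[κ] PowerSeries κ), s.Hat ρ h → ∀ k x,
      h (s.dk k x) = h (aeval s.t s.dl) ^ k * (PowerSeries.derivative κ)^[k] (h x)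

/-- **Ord.** (60 lines)  Uses DkP.  Vanishing derivatives give divisibility by a power of `X`.

*Proof.*  `g = h x`.  The constant coefficient of `h (aeval t dl)` is `ρ (aeval t dl) = dl.eval (ρ t) ≠ 0`.  So for `k < M` the constant
coefficient of `(d/dX)^k g` is zero (DkP (3), `const`); it is `k! * coeff k g` (induction: `coeff n ((d/dX)^k g) =
(n+1)...(n+k) coeff (n+k) g`, `PowerSeries.coeff_derivative`), and `k!` is not zero in `κ` for
`k < M ≤ p` (`CharP.cast_eq_zero_iff`, `Nat.Prime.dvd_factorial`).  So `coeff k g = 0` for `k < M`: `X^M ∣ g`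
(`PowerSeries.X_pow_dvd_iff`). -/
def OrdStmt : Prop :=
  ∀ (p : ℕ) [Fact p.Prime] (κ : Type) [Field κ] [CharP κ p] (R : Type) [CommRing R] [Algebra κ R]
    (G : Type) [Group G] [Fintype G] (s : St p κ R G) (ρ : R →ₐ[κ] κ), s.Good ρ →
    ∀ (h : R →ₐ[κ] PowerSeries κ), s.Hat ρ h → ∀ (M : ℕ), M ≤ p → ∀ x : R,
      (∀ k < M, ρ (s.dk k x) = 0) → PowerSeries.X ^ M ∣ h x

/-- **Inj0.** (60 lines)  Linear independence over the `p`-th powers.

*Proof.*  Suppose that not all `z i` are zero.  Let `m` be the least order of the `z i` (or: the largest `m` with `X^m ∣ z i`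
for all `i`), `z i = X^m y i`, some `y i` has nonzero constant coefficient `ζ i`.  Cancel `X^(m p)`:
`∑ x i * (y i)^p = 0`.  Put `w = ∑ C (ζ i)^p * x i`.  `(y i)^p - C (ζ i)^p = (y i - C (ζ i))^p` (`sub_pow_char`;
`CharP κ⟦X⟧ p`) is divisible by `X^p`.  So `w = -∑ x i * (y i - C (ζ i))^p` is divisible by `X^p`; `w` is in the
span of the `x i`, so `w = 0` by the hypothesis, so all `(ζ i)^p = 0` by linear independence, a
contradiction. -/
def Inj0Stmt : Prop :=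
  ∀ (p : ℕ) [Fact p.Prime] (κ : Type) [Field κ] [CharP κ p] (r : ℕ)
    (x z : Fin r → PowerSeries κ), LinearIndependent κ x →
    (∀ w ∈ Submodule.span κ (Set.range x), PowerSeries.X ^ p ∣ w → w = 0) →
    ∑ i, x i * z i ^ p = 0 → ∀ i, z i = 0

/-- **Sml.** (60 lines)  Elements of size `a` vanish to order at most `N a`.

*Proof.*  `norm`: `P ≠ 0`, `natDegree P ≤ N a`, `aeval t P = ∏ τ, act τ x`.  `h (aeval t P) = aeval (C u + X) P` with `u = ρ t`; this is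
the power series of the polynomial `P.comp (C u + X)` (`Polynomial.coe`: prove `aeval (C u + X) P =
((P.comp (C u + X) : κ[X]) : κ⟦X⟧)` by induction on `P` or `Polynomial.coe`-lemmas), which is nonzero of degree `≤ N a`
(`natDegree_comp`, `comp_eq_zero_iff`), so it is not divisible by `X^(N a + 1)` (`X_pow_dvd_iff`, leading
coefficient).  `h x` divides it (the factor `τ = 1`). -/
def SmlStmt : Prop :=
  ∀ (p : ℕ) [Fact p.Prime] (κ : Type) [Field κ] [CharP κ p] (R : Type) [CommRing R] [Algebra κ R]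
    (G : Type) [Group G] [Fintype G] (s : St p κ R G) (ρ : R →ₐ[κ] κ)
    (h : R →ₐ[κ] PowerSeries κ), s.Hat ρ h → ∀ a x, x ∈ s.S a → x ≠ 0 →
    ¬ PowerSeries.X ^ (Fintype.card G * a + 1) ∣ h x

/-- **InjE.** (100 lines)  Uses Inj0, Sml.

*Proof.*  There is `u₀ : κ` with `dl.eval u₀ ≠ 0` (`κ` is infinite), a place `ρ` above it (`ex`) and an expansion `h` (`hat`).  Let
`x_1, ..., x_r` be a basis of the span `W ≤ S a` of the `u j` (finite-dimensional), `u j = ∑ i, c j i • x i`.  `κ` is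
algebraically closed: `c j i = (d j i)^p` (`IsAlgClosed.exists_pow_nat_eq`).  `z i = ∑ j, d j i • v j`, then
`∑ i, x i * z i ^ p = ∑ j, u j * v j ^ p = 0` (`sum_pow_char`).  Apply `h`, and Inj0 to `h (x i)`, `h (z i)`: a nonzero
`w ∈ W` is in `S a`, so `h w` is not divisible by `X^(N a + 1)` (Sml), so not by `X^p` (`N a < p`); in particular `h` is injective
on `W` (`h w = 0` is divisible by everything), so the `h (x i)` are linearly independent.  So `h (z i) = 0`, and `z i ∈ S b`, so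
`z i = 0` (Sml again: `0` is divisible by `X^(N b + 1)`).  `v` is linearly independent, so all `d j i = 0`, so
`u j = 0`. -/
def InjEStmt : Prop :=
  ∀ (p : ℕ) [Fact p.Prime] (κ : Type) [Field κ] [CharP κ p] [IsAlgClosed κ] (R : Type)
    [CommRing R] [Algebra κ R] (G : Type) [Group G] [Fintype G] (s : St p κ R G)
    (J : Type) [Fintype J] (u v : J → R) (a b : ℕ), (∀ j, u j ∈ s.S a) → (∀ j, v j ∈ s.S b) →
    LinearIndependent κ v → Fintype.card G * a < p → ∑ j, u j * v j ^ p = 0 → ∀ j, u j = 0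

/-- **DimE.** (60 lines)  Uses Sml.  The dimension of `S a`.

*Proof.*  Choose `u₀`, `ρ`, `h` as in InjE.  The linear map `S a → (Fin (N a + 1) → κ)`, `x ↦ (coeff i (h x))_i` is injective: if
all these coefficients are zero then `X^(N a + 1) ∣ h x`, so `x = 0` by Sml.  (`Module.Finite.of_injective`,
`LinearMap.finrank_le_finrank_of_injective`.) -/
def DimEStmt : Prop :=
  ∀ (p : ℕ) [Fact p.Prime] (κ : Type) [Field κ] [CharP κ p] [IsAlgClosed κ] (R : Type)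
    [CommRing R] [Algebra κ R] (G : Type) [Group G] [Fintype G] (s : St p κ R G) (a : ℕ),
    Module.Finite κ (s.S a) ∧ Module.finrank κ (s.S a) ≤ Fintype.card G * a + 1

/-- **IndE.** (60 lines)  The elements `t^i β_τ` are linearly independent.

*Proof.*  A relation `∑ c_{i,τ} t^i β_τ = 0` is `∑ τ, aeval t (q τ) * β τ = 0` with `q τ = ∑ i, C (c_{i,τ}) X^i`, so `q = 0` by
`β_ind`, so all coefficients are zero.  Membership: `t^i ∈ S i ≤ S A`, `mul_mem`. -/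
def IndEStmt : Prop :=
  ∀ (p : ℕ) [Fact p.Prime] (κ : Type) [Field κ] [CharP κ p] (R : Type) [CommRing R] [Algebra κ R]
    (G : Type) [Group G] [Fintype G] (s : St p κ R G) (A : ℕ),
    LinearIndependent κ (fun j : Fin A × G => s.t ^ (j.1 : ℕ) * s.β j.2) ∧
    ∀ j : Fin A × G, s.t ^ (j.1 : ℕ) * s.β j.2 ∈ s.S (A + s.c)

/-- **Aux.** (120 lines)  Uses DkP, DimE, IndE.  The auxiliary function.

*Proof.*  `v j = t^{j.1} β_{j.2}` for `j : Fin B × G`.  Let `V = (Fin A × G) × (Fin B × G) → κ`, of dimension `(A N) (B N)`.  For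
`e : V` let `u_e j = ∑_{i : Fin A × G} e (i, j) • (t^{i.1} β_{i.2}) ∈ S (A + c)` (IndE), linear in `e`.  For `k < M` the
linear map `Ψ_k : V → S (A + B + (M+2) c)`, `Ψ_k e = ∑ j, dk k (u_e j) * act τ (F (v j))`: it has values in this space
because `dk k (u_e j) ∈ S (A + c + k c)` (DkP), `act τ (F (v j)) ∈ S (B + c)`, and
`A + c + k c + B + c ≤ A + B + (M + 2) c`.  The product of the target spaces over `k < M` has dimension
`≤ M (N (A + B + (M+2) c) + 1) < dim V` (DimE), so there is `e ≠ 0` in the kernel of the product map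
(`LinearMap.exists_ne_zero_of_finrank_lt` or `LinearMap.ker_ne_bot_of_finrank_lt`).  `u = u_e`; some `e (i, j) ≠ 0`, so
`u j ≠ 0` by IndE. -/
def AuxStmt : Prop :=
  ∀ (p : ℕ) [Fact p.Prime] (κ : Type) [Field κ] [CharP κ p] [IsAlgClosed κ] (R : Type)
    [CommRing R] [Algebra κ R] (G : Type) [Group G] [Fintype G] (s : St p κ R G) (τ : G)
    (A B M : ℕ),
    M * (Fintype.card G * (A + B + (M + 2) * s.c) + 1) <
      (Fintype.card G * A) * (Fintype.card G * B) →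
    ∃ u : Fin B × G → R, (∀ j, u j ∈ s.S (A + s.c)) ∧ (∃ j, u j ≠ 0) ∧
      ∀ k < M, ∑ j, s.dk k (u j) * s.act τ (s.F (s.t ^ (j.1 : ℕ) * s.β j.2)) = 0

/-- **Cnt.** (150 lines)  Zeros of high order.

*Proof.*  `norm`: `P ≠ 0`, `natDegree P ≤ N w`, `aeval t P = ∏ τ, act τ x`.  Let `𝓤` be the finite set of the values `ρ t`,
`ρ ∈ 𝓕`, and `𝓕_u = {ρ ∈ 𝓕 | ρ t = u}`.  Claim: `(X - C u)^(M card 𝓕_u) ∣ P` for `u ∈ 𝓤`.  Fix `ρ₀ ∈ 𝓕_u`, and
an expansion `h` at `ρ₀`.  For `τ : G` the homomorphism `h ∘ act τ` is an expansion at `ρ₀ ∘ act τ` (`act_t`,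
`D_act`, and `act τ (aeval t dl) = aeval t dl`), which is good.  `h (aeval t P) = ∏ τ, (h ∘ act τ) x`; by `trans` every `ρ ∈ 𝓕_u` is
`ρ₀ ∘ act τ` for some `τ`; choose one `τ_ρ`; these are different for different `ρ`, and `X^M ∣ (h ∘ act τ_ρ) x`.  So
`X^(M card 𝓕_u) ∣ h (aeval t P) = P.comp (X + C u)` (as a power series; see Sml), so `X^(...) ∣ P.comp (X + C u)` as
polynomials, and `(X - C u)^(...) ∣ P` (compose with `X - C u`).  So the root multiplicity of `P` at `u` is at least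
`M card 𝓕_u`, and `∑_u rootMultiplicity u P ≤ natDegree P` (`P.roots.card`, `Multiset.toFinset_sum_count_eq` or by
`Finset.prod_dvd_of_coprime` and degrees); `∑_u card 𝓕_u = card 𝓕` (`Finset.card_eq_sum_card_fiberwise`). -/
def CntStmt : Prop :=
  ∀ (p : ℕ) [Fact p.Prime] (κ : Type) [Field κ] [CharP κ p] (R : Type) [CommRing R] [Algebra κ R]
    (G : Type) [Group G] [Fintype G] (s : St p κ R G) (w M : ℕ) (x : R), x ∈ s.S w → x ≠ 0 →
    ∀ 𝓕 : Finset (R →ₐ[κ] κ), (∀ ρ ∈ 𝓕, s.Good ρ ∧ ∀ h : R →ₐ[κ] PowerSeries κ, s.Hat ρ h →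
      PowerSeries.X ^ M ∣ h x) → M * 𝓕.card ≤ Fintype.card G * w

/-- **Bnd.** (100 lines)  Uses NumE, DkP, Ord, InjE, IndE, Aux, Cnt.  Stepanov's bound.

*Proof.*  `M`, `A`, `B` as in NumE, `v j = t^{j.1} β_{j.2}`, `u` from Aux, `θ = ∑ j, u j * v j ^ p`.  `θ ≠ 0` by InjE (`v` is
independent by IndE, `v j ∈ S (B + c)`, `N (A + c) < p`).  `θ ∈ S ((A + c) + p (B + c))` (`mul_mem`, powers by induction).
Let `ρ ∈ 𝓕`, `k < M`: `ρ (dk k θ) = ∑ ρ (dk k (u j)) ρ (v j)^p` (DkP (2)) `= ∑ ρ (dk k (u j)) ρ (act τ (F (v j)))` (`Fix`)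
`= ρ (0) = 0`.  By Ord `X^M ∣ h θ` for all expansions at `ρ`.  By Cnt `M card 𝓕 ≤ N ((A + c) + p (B + c)) ≤
M (p + cst N c M)`, divide by `M > 0`. -/
def BndStmt : Prop :=
  ∀ (p : ℕ) [Fact p.Prime] (κ : Type) [Field κ] [CharP κ p] [IsAlgClosed κ] (R : Type)
    [CommRing R] [Algebra κ R] (G : Type) [Group G] [Fintype G] (s : St p κ R G) (τ : G),
    400 + 16 * Fintype.card G + 4 * Fintype.card G * s.c < p →
    ∀ 𝓕 : Finset (R →ₐ[κ] κ), (∀ ρ ∈ 𝓕, s.Good ρ ∧ s.Fix τ ρ) →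
      𝓕.card ≤ p + cst (Fintype.card G) s.c * Nat.sqrt p

/-- **SumE.** (150 lines)  Every good place above a point of `𝔽_p` is fixed by exactly one Frobenius
automorphism.

*Proof.*  For `u ∈ 𝓐` the set `X_u` of the places `ρ` with `ρ t = u` is finite with `N` elements: choose `ρ₀` (`ex`), then
`τ ↦ ρ₀ ∘ act τ` is a bijection `G → X_u` (surjective by `trans`; injective: if
`ρ₀ ∘ act τ = ρ₀ ∘ act τ'` then `ρ₀ ∘ act (τ τ'⁻¹) = ρ₀`, so `τ = τ'` by `free`; `act (τ τ') = act τ * act τ'`, composition of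
maps).  So `X = ⋃ X_u` is finite with `N card 𝓐` elements.  Let `ρ ∈ X_u`.  `ρ' x = ρ (F⁻¹ ...)`: the map
`x ↦ ρ (F.symm x)^p` is a ring homomorphism `R → κ` (Frobenius), `κ`-linear (`F.symm (algebraMap y)`: `y = z^p`, `F (algebraMap z) =
algebraMap (z^p)`, so `F.symm (algebraMap y) = algebraMap z`, `ρ` of it to the power `p` is `y`; `κ` is algebraically closed, so `z` exists),
and maps `t` to `u^p = u`; so it is a place `ρ'` above `u`, and `Fix τ ρ` for `ρ` means `ρ ∘ act τ = ρ'` (put `y = F x`).  By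
`trans` and `free` there is exactly one such `τ`.  So `X` is the disjoint union of the `𝓕 τ = {ρ ∈ X | Fix τ ρ}`
(classical decidability), and `∑ card (𝓕 τ) = card X` (`Finset.card_eq_sum_card_fiberwise` with the map `ρ ↦ τ`). -/
def SumEStmt : Prop :=
  ∀ (p : ℕ) [Fact p.Prime] (κ : Type) [Field κ] [CharP κ p] [IsAlgClosed κ] (R : Type)
    [CommRing R] [Algebra κ R] (G : Type) [Group G] [Fintype G] (s : St p κ R G)
    (𝓐 : Finset κ), (∀ u ∈ 𝓐, u ^ p = u ∧ s.dl.eval u ≠ 0) →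
    ∃ 𝓕 : G → Finset (R →ₐ[κ] κ), (∀ τ ρ, ρ ∈ 𝓕 τ ↔ ρ s.t ∈ 𝓐 ∧ s.Fix τ ρ) ∧
      ∑ τ, (𝓕 τ).card = Fintype.card G * 𝓐.card

/-- **FixE.** (80 lines)  Uses Bnd, SumE.  For large `p` there is a place fixed by `F`.

*Proof.*  `N = card G ≤ N₀`.  Choose `p₂ = 400 + 16 N₀ + 4 N₀ c₀ + (N₀ r + N₀ cst N₀ c₀ + 2)²` or larger.  `cst` is
monotone in both arguments.  Suppose that `𝓕 1` is empty (SumE).  By SumE and Bnd
`N (p - r) ≤ N card 𝓐 = ∑_{τ ≠ 1} card (𝓕 τ) ≤ (N - 1) (p + cst N c √p)`, so `p ≤ N r + (N - 1) cst N c √p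
≤ √p (N₀ r + N₀ cst N₀ c₀)` (`√p ≥ 1`), so `√p ≤ N₀ r + N₀ cst N₀ c₀ + ...` (`p ≥ (√p)²`), a contradiction to
`p > p₂`. (`p < (√p + 1)²`.)  Elements of `𝓕 1`: `act 1 = 1`. -/
def FixEStmt : Prop :=
  ∀ N₀ c₀ r : ℕ, ∃ p₂ : ℕ, ∀ (p : ℕ) [Fact p.Prime], p₂ < p → ∀ (κ : Type) [Field κ] [CharP κ p]
    [IsAlgClosed κ] (R : Type) [CommRing R] [Algebra κ R] (G : Type) [Group G] [Fintype G]
    (s : St p κ R G) (𝓐 : Finset κ), Fintype.card G ≤ N₀ → s.c ≤ c₀ →
    (∀ u ∈ 𝓐, u ^ p = u ∧ s.dl.eval u ≠ 0) → p ≤ 𝓐.card + r →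
    ∃ ρ : R →ₐ[κ] κ, ρ s.t ∈ 𝓐 ∧ ∀ x, ρ (s.F x) = ρ x ^ p

end MP7U
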