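import Pool.Agent.Lib.MP_7f581e_U.E.Cdef
import Pool.Agent.Lib.MP_7f581e_U.E.Spec1

/-!
# C41 (MP_7f581e_nt), Block E, part 2: the data of a plane curve, and points for large `p`

One Lean task for each `def XStmt : Prop`: file `MP_7f581e_U/E/X.lean`, import this file,
`namespace MP7U`, `theorem eX : XStmt` (statements which are used are hypotheses, in the order of
the docstring: `theorem eX (h1 : AStmt) (h2 : BStmt) : XStmt`).

Notation (see `Cdef.lean`): `t = tL κ L`, `α_j = c.α j`, `G = L ≃ₐ[RatFunc κ] L`, `K = RatFunc κ`, `ev f t y = f(t, y)`.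
-/

set_option autoImplicit false

namespace MP7U

open Polynomial

/-- **SplE.** (60 lines)  A splitting field.

*Proof.*  `f₁ = f.map (algebraMap κ[X] K)` is irreducible of degree `n` with `0 < n < p`; its derivative is nonzero (coefficient `n` at
degree `n - 1`, `n ≠ 0` in `K` by `CharP.cast_eq_zero_iff`, `K` has characteristic `p`), so `f₁` is separable
(`separable_iff_derivative_ne_zero`).  `L = f₁.SplittingField` (its algebra structures over `κ` and `K` and the scalar tower are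
instances).  `f₁` has `n` different roots in `L` (`card_rootSet_eq_natDegree` or `nodup_roots`); enumerate
them by `Fin n`; `f₁.map _ = ∏ (X - C α_j)` (`Splits.eq_prod_roots_of_monic`); `f.map (aeval t) = f₁.map (algebraMap K L)` by
`aeval_tL` and `map_map`.  `gen`: `SplittingField.adjoin_rootSet` (an `Algebra.adjoin` which is `⊤` gives
`IntermediateField.adjoin = ⊤`). -/
def SplEStmt : Prop :=
  ∀ (p : ℕ) [Fact p.Prime] (κ : Type) [Field κ] [CharP κ p] (f : κ[X][X]) (n D : ℕ),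
    IsCv κ f n D → n < p →
    ∃ (L : Type) (_ : Field L) (_ : Algebra κ L) (_ : Algebra (RatFunc κ) L)
      (_ : IsScalarTower κ (RatFunc κ) L), Nonempty (Sp κ f n L)

/-- **GalE.** (100 lines)  `L / κ(t)` is a Galois extension; its group acts faithfully and transitively on the roots.

*Proof.*  `f₁ = f.map (algebraMap κ[X] K)`, `f₁.map (algebraMap K L) = ∏ (X - C α_j)` (`aeval_tL`, `map_map`).  So `f₁` splits in
`L`, is separable (`separable_prod_X_sub_C_iff`, `separable_map`), and `L` is generated by its roots, so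
`IsSplittingField K L f₁`, `FiniteDimensional` (`IsSplittingField.finiteDimensional`), `IsGalois.of_separable_splitting_field`.
`τ` maps a root `α_j` to a root, `f₁.rootSet L = range α`, and `α` is injective: this gives `π`.
Transitivity: `f₁` is irreducible and monic, so it is the minimal polynomial of every `α_j`; use
`Normal.exists_...`/`IsConjRoot`/`minpoly.exists_algEquiv_of_root` (`minpoly K α_i = minpoly K α_j` gives an automorphism of the normal
extension `L` mapping one to the other).  If `τ` fixes all `α_j` it is `1` (`gen`; `IntermediateField.algHom_ext_of_eq_adjoin` or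
`Algebra.adjoin` induction).  So `τ ↦ π` is injective, and `Nat.card G ≤ n!` (`Fintype.card_perm`). -/
def GalEStmt : Prop :=
  ∀ (κ : Type) [Field κ] (f : κ[X][X]) (n D : ℕ), IsCv κ f n D →
    ∀ (L : Type) [Field L] [Algebra κ L] [Algebra (RatFunc κ) L] [IsScalarTower κ (RatFunc κ) L]
      (c : Sp κ f n L),
    FiniteDimensional (RatFunc κ) L ∧ IsGalois (RatFunc κ) L ∧
    (∀ τ : L ≃ₐ[RatFunc κ] L, ∃ π : Equiv.Perm (Fin n), ∀ j, τ (c.α j) = c.α (π j)) ∧
    (∀ i j, ∃ τ : L ≃ₐ[RatFunc κ] L, τ (c.α i) = c.α j) ∧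
    (∀ τ : L ≃ₐ[RatFunc κ] L, (∀ j, τ (c.α j) = c.α j) → τ = 1) ∧
    Nat.card (L ≃ₐ[RatFunc κ] L) ≤ n.factorial

/-- **FilE.** (100 lines)  The filtration.

*Proof.*  Write `m i e = t^i ∏ α_j^(e j)`.  `1 = m 0 0`, `t = m 1 0`, `α_j = m 0 (Pi.single j 1)`.  Monotone: `span_mono`.
Products: `Submodule.span_induction₂` (or `Submodule.span_mul_span`), `m i e * m i' e' = m (i+i') (e+e')` (`Finset.prod_mul_distrib`, `pow_add`).  `S ≤ R`: `span_le`.
Every `x ∈ R` is in some `S a`: `Algebra.adjoin_induction` (for sums use `max a b`).  The map `φ`: on `m i e`: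
`φ (m i e) = t^i ∏ α_(π j)^(e j) = m i e'` with `e' j' = ∑ j with π j = j', e j`
(`Finset.prod_fiberwise`), `∑ e' = ∑ e`; and the set `{x | φ x ∈ S a}` is stable under addition and under multiplication by
constants `u` (because `φ u` is a constant), so induct on the span (`Submodule.span_induction`). -/
def FilEStmt : Prop :=
  ∀ (κ : Type) [Field κ] (f : κ[X][X]) (n D : ℕ) (L : Type) [Field L] [Algebra κ L]
    [Algebra (RatFunc κ) L] [IsScalarTower κ (RatFunc κ) L] (c : Sp κ f n L),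
    (1 : L) ∈ c.S D 0 ∧ tL κ L ∈ c.S D 1 ∧ (∀ j, c.α j ∈ c.S D D) ∧
    (∀ a b, a ≤ b → c.S D a ≤ c.S D b) ∧
    (∀ a b x y, x ∈ c.S D a → y ∈ c.S D b → x * y ∈ c.S D (a + b)) ∧
    (∀ a x, x ∈ c.S D a → x ∈ c.R) ∧ (∀ x ∈ c.R, ∃ a, x ∈ c.S D a) ∧
    ∀ (φ : L →+* L) (π : Fin n → Fin n), φ (tL κ L) = tL κ L →
      (∀ u : κ, ∃ u' : κ, φ (algebraMap κ L u) = algebraMap κ L u') →
      (∀ j, φ (c.α j) = c.α (π j)) → ∀ a x, x ∈ c.S D a → φ x ∈ c.S D a

/-- **EvsE.** (60 lines)  Uses FilE.  Sizes of values of polynomials.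

*Proof.*  (1) `aeval t P = ∑_{i ≤ natDegree P} P_i • t^i` (`aeval_eq_sum_range`), `t^i ∈ S i` by induction (`one_mem`, `mul`), `mono`.
(2) `ev (derivative f) t α = ∑_{i} aeval t (coeff i) * α^i` (`ev_eq_sum`), `coeff i (derivative f) = (i+1) f_(i+1)` has degree `≤ D` and is
zero for `i ≥ n` (`coeff_derivative`), so the term is in `S (D + D i)` with `i ≤ n - 1`, `D + D i ≤ n D`.  (3) `coeff i (dT f)` is the derivative of
`f_i` (from the definition of `dT`, `sum_def`, `finset_sum_coeff`, `coeff_monomial`), degree `≤ D`, and it is zero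
for `i ≥ n` (`f_n = 1`, `f_i = 0` for `i > n`). -/
def EvsEStmt : Prop :=
  ∀ (κ : Type) [Field κ] (f : κ[X][X]) (n D : ℕ), IsCv κ f n D →
    ∀ (L : Type) [Field L] [Algebra κ L] [Algebra (RatFunc κ) L] [IsScalarTower κ (RatFunc κ) L]
      (c : Sp κ f n L),
    (∀ (P : κ[X]) a, P.natDegree ≤ a → aeval (tL κ L) P ∈ c.S D a) ∧
    (∀ j, ev (derivative f) (tL κ L) (c.α j) ∈ c.S D (n * D)) ∧
    ∀ j, ev (dT f) (tL κ L) (c.α j) ∈ c.S D (n * D)

/-- **IntE.** (60 lines)  The elements of `R` are integral over `κ[t]`.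

*Proof.*  `φ = (aeval t).toRingHom : κ[X] →+* L`.  `φ.IsIntegralElem (α_j)`: the monic polynomial `f` (`ev_root`; `ev` is
`eval₂ φ`).  `t = φ X`, constants `= φ (C u)`.  Sums and products of integral elements are integral
(`RingHom.IsIntegralElem.add`, `.mul`), `Algebra.adjoin_induction`. -/
def IntEStmt : Prop :=
  ∀ (κ : Type) [Field κ] (f : κ[X][X]) (n D : ℕ), IsCv κ f n D →
    ∀ (L : Type) [Field L] [Algebra κ L] [Algebra (RatFunc κ) L] [IsScalarTower κ (RatFunc κ) L]
      (c : Sp κ f n L), ∀ x ∈ c.R,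
    (aeval (tL κ L) : κ[X] →ₐ[κ] L).toRingHom.IsIntegralElem x

/-- **InvE.** (60 lines)  Uses GalE, IntE.  The invariant elements of `R` are polynomials in `t`.

*Proof.*  `x` is fixed by the Galois group, so `x = algebraMap K L z`, `z ∈ K` (`IsGalois.mem_bot_iff_fixed`,
`IntermediateField.mem_bot`; or `IsGalois.tfae`).  By IntE there is a monic `q ∈ κ[X][Y]` with `q(t, x) = 0`; `aeval_tL` and injectivity of
`algebraMap K L` give `eval₂ (algebraMap κ[X] K) z q = 0`, so `z` is integral over `κ[X]`, so `z` is the image of `P ∈ κ[X]`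
(`IsIntegrallyClosed.isIntegral_iff`, `κ[X]` is integrally closed, `IsFractionRing κ[X] (RatFunc κ)`).  `aeval t P = x` by `aeval_tL`. -/
def InvEStmt : Prop :=
  ∀ (κ : Type) [Field κ] (f : κ[X][X]) (n D : ℕ), IsCv κ f n D →
    ∀ (L : Type) [Field L] [Algebra κ L] [Algebra (RatFunc κ) L] [IsScalarTower κ (RatFunc κ) L]
      (c : Sp κ f n L), ∀ x ∈ c.R, (∀ τ : L ≃ₐ[RatFunc κ] L, τ x = x) →
    ∃ P : κ[X], aeval (tL κ L) P = x

/-- **SzE.** (150 lines)  Polynomials in `t` of size `w` have degree at most `w`.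

*Proof.*  Let `V ⊆ K` be the valuation subring of `v = RatFunc.inftyValuation κ` (`v P = exp (natDegree P)` for a polynomial
`P ≠ 0`, `inftyValuation.polynomial`; `V = {z | v z ≤ 1}`), `ψ : V → K → L`.  Claim: `γ_j = α_j / t^D` is `ψ`-integral
(`RingHom.IsIntegralElem`; or `IsIntegral V γ_j` with the algebra structure `ψ.toAlgebra`): divide
`f(t, α_j) = ∑ f_i(t) α_j^i = 0` by `t^(n D)`: `∑ (f_i(t) / t^(D (n - i))) γ_j^i = 0`, the coefficient for `i = n` is `1`, and for `i < n` it is the image of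
`z_i = f_i / X^(D (n-i)) ∈ K` with `v z_i ≤ exp (D - D (n - i)) ≤ 1` (`natDegree f_i ≤ D`).  Constants and `1/t` are `ψ`-integral (`v (1/X) ≤ 1`).
A monomial: `t^i ∏ α_j^(e_j) / t^w = (1/t)^(w - i - D ∑ e_j) ∏ γ_j^(e_j)` is `ψ`-integral; so `x / t^w` is `ψ`-integral for every `x ∈ S w` (span induction).
For `x = aeval t P` it is the image of `z = P / X^w ∈ K`, so `z` is integral over `V` (the map `K → L` is injective), so `z ∈ V`
(`Valuation.Integers.mem_of_integral`, or `V` is integrally closed), i.e. `exp (natDegree P) ≤ exp w` if `P ≠ 0`. -/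
def SzEStmt : Prop :=
  ∀ (κ : Type) [Field κ] (f : κ[X][X]) (n D : ℕ), IsCv κ f n D →
    ∀ (L : Type) [Field L] [Algebra κ L] [Algebra (RatFunc κ) L] [IsScalarTower κ (RatFunc κ) L]
      (c : Sp κ f n L), ∀ (P : κ[X]) (w : ℕ), aeval (tL κ L) P ∈ c.S D w → P.natDegree ≤ w

/-- **BasE.** (120 lines)  Uses GalE.  A basis of small elements.

*Proof.*  `f₁ = f.map (algebraMap κ[X] K)` is monic of degree `n` and `α_j` is a root, so `α_j^n` is a `K`-linear combination of
`α_j^i`, `i < n`.  Let `W` be the `K`-span in `L` of the finite set `Q` of the monomials `∏ α_j^(e j)`, `e j < n` for all `j`.  `W` is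
stable under multiplication by every `α_j` (on a monomial: clear if `e j + 1 < n`; if `e j + 1 = n` write `α_j^n` as a
combination), so under multiplication by `Algebra.adjoin K (range α) = L` (`gen`; `L / K` is finite, so algebraic:
`IntermediateField.adjoin_algebraic_toSubalgebra` or `IntermediateField.adjoin_toSubalgebra_of_isAlgebraic`), and `1 ∈ W` (`n ≥ 1`), so `W = L`.
Choose a maximal linearly independent subset of `Q` (`exists_linearIndependent`, `Module.Basis.ofSpan` or similar); it is a basis of `L / K`, so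
it has `[L : K] = card G` elements (`IsGalois.card_aut_eq_finrank`), and it can be indexed by `G`.  `∑ e j ≤ n (n - 1)`, so
each monomial is in `S D (D n (n-1))`, apply `Submodule.span_mono` (or the definition of `S` with `D * ∑ e j ≤ n * n * D` directly). -/
def BasEStmt : Prop :=
  ∀ (κ : Type) [Field κ] (f : κ[X][X]) (n D : ℕ), IsCv κ f n D →
    ∀ (L : Type) [Field L] [Algebra κ L] [Algebra (RatFunc κ) L] [IsScalarTower κ (RatFunc κ) L]
      (c : Sp κ f n L),
    ∃ β : (L ≃ₐ[RatFunc κ] L) → L, (∀ τ, β τ ∈ c.S D (n * n * D)) ∧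
      LinearIndependent (RatFunc κ) β

/-- **DlE.** (80 lines)  Uses GalE, FilE, EvsE, InvE, SzE.  The discriminant.

*Proof.*  `x = ∏ j, ev f' t α_j` (`f' = derivative f`).  Every `τ` permutes the factors: `τ (ev f' t α_j) = ev f' t α_(π j)`
(`map_ev` with `τ` as a `κ`-algebra homomorphism, `τ t = t` because `t` comes from `K`), so `τ x = x`.  `x ∈ S (n (n D))` (induction
on products, `mul`), so `x ∈ R`.  InvE gives `dl`, SzE its degree.  `x ≠ 0`: `ev f' t α_j = (f.map _).derivative.eval α_j =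
∏_{i ≠ j} (α_j - α_i) ≠ 0` (`c.prod`, `ev_eq_eval_map`, `derivative_map`, `Polynomial.eval_derivative_prod..` / `derivative_prod`; or: the
polynomial `∏ (X - C α_i)` is separable, so a root is not a root of the derivative). -/
def DlEStmt : Prop :=
  ∀ (κ : Type) [Field κ] (f : κ[X][X]) (n D : ℕ), IsCv κ f n D →
    ∀ (L : Type) [Field L] [Algebra κ L] [Algebra (RatFunc κ) L] [IsScalarTower κ (RatFunc κ) L]
      (c : Sp κ f n L), ∃ dl : κ[X], c.IsDl dl ∧ dl ≠ 0 ∧ dl.natDegree ≤ n * n * D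

/-- **ActE.** (50 lines)  Uses GalE.  The action on `R`.

*Proof.*  `τ` maps `t` to `t`, permutes the `α_j`, is the identity on `κ` (scalar tower), so `τ (R) ⊆ R` (`Algebra.adjoin_le` for the subalgebra
`R.comap τ`), and also `τ⁻¹`.  So `τ` restricts to an automorphism of `R`; multiplicative in `τ`. -/
def ActEStmt : Prop :=
  ∀ (κ : Type) [Field κ] (f : κ[X][X]) (n D : ℕ), IsCv κ f n D →
    ∀ (L : Type) [Field L] [Algebra κ L] [Algebra (RatFunc κ) L] [IsScalarTower κ (RatFunc κ) L]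
      (c : Sp κ f n L),
    ∃ act : (L ≃ₐ[RatFunc κ] L) →* (c.R ≃ₐ[κ] c.R), ∀ τ x, (act τ x : L) = τ x

/-- **PlE.** (80 lines)  Uses IntE.  Places.

*Proof.*  Give `R` the `κ[X]`-algebra structure `φ = aeval c.tR`; it is integral (IntE; the inclusion `R → L` is injective:
`q(t, x) = 0` in `L` gives it in `R`), and `φ` is injective (`aeval_tL_injective`).  The maximal ideal `M = (X - C u)` of
`κ[X]` has a maximal ideal `Q` of `R` above it (`Ideal.exists_ideal_over_maximal_of_isIntegral`; kernel of `φ` is `0`).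
`R / Q` is a field which is integral over the image of `κ[X] / M = κ` (`X` acts as `u`), so it is an algebraic extension of the algebraically closed
field `κ`, so `κ → R / Q` is bijective (`IsAlgClosed.algebraMap_bijective_of_isIntegral`).  `ρ` is the
quotient map followed by the inverse; `t - u ∈ Q`, so `ρ t = u`. -/
def PlEStmt : Prop :=
  ∀ (κ : Type) [Field κ] [IsAlgClosed κ] (f : κ[X][X]) (n D : ℕ), IsCv κ f n D →
    ∀ (L : Type) [Field L] [Algebra κ L] [Algebra (RatFunc κ) L] [IsScalarTower κ (RatFunc κ) L]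
      (c : Sp κ f n L), ∀ u : κ, ∃ ρ : c.R →ₐ[κ] κ, ρ c.tR = u

/-- **TrnE.** (100 lines)  Uses GalE, InvE.  The group is transitive on the places above `u`.

*Proof.*  Suppose that `ρ' ≠ ρ ∘ act τ` for all `τ`.  The kernels `Q' = ker ρ'` and `Q_τ = ker (ρ ∘ act τ)` are maximal ideals of
`R`; two homomorphisms `R →ₐ[κ] κ` with `ker ρ' ≤ ker ρ''` are equal (`x - ρ' x ∈ ker ρ'`).  So `Q'` is not contained in any `Q_τ`, so not
in their union (prime avoidance, `Ideal.subset_union_prime`; `G` is finite): there is `x ∈ Q'` with `ρ (act τ x) ≠ 0` for all `τ`.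
`y = ∏ τ, act τ x ∈ R` is fixed by all `τ` (reindexing), so `y = aeval t P` (InvE).  `ρ y = P(ρ t) ≠ 0`, but
`ρ' y = P(ρ' t) = 0` (the factor `τ = 1` is `x ∈ Q'`), contradiction to `ρ t = ρ' t`. -/
def TrnEStmt : Prop :=
  ∀ (κ : Type) [Field κ] (f : κ[X][X]) (n D : ℕ), IsCv κ f n D →
    ∀ (L : Type) [Field L] [Algebra κ L] [Algebra (RatFunc κ) L] [IsScalarTower κ (RatFunc κ) L]
      (c : Sp κ f n L) (act : (L ≃ₐ[RatFunc κ] L) →* (c.R ≃ₐ[κ] c.R)),
    (∀ τ x, (act τ x : L) = τ x) → ∀ ρ ρ' : c.R →ₐ[κ] κ, ρ c.tR = ρ' c.tR →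
    ∃ τ, ρ' = ρ.comp (act τ).toAlgHom

/-- **FreE.** (60 lines)  Uses GalE.  The group acts freely on the good places.

*Proof.*  `0 ≠ dl(ρ t) = ρ (aeval t dl) = ∏ j, ev f' (ρ t) (ρ α_j)` (`IsDl` in `R`, `map_ev`).  So `ρ α_i ≠ ρ α_j` for `i ≠ j`: the polynomial
`f(ρ t, Y) = ∏ (Y - ρ α_j)` (`c.prod` holds in `R[Y]` because `R → L` is injective; map by `ρ`) would have a double root
`ρ α_i`, and its derivative would vanish there.  Let `act τ α_j = α_(π j)`.  `ρ ∘ act τ = ρ` gives `ρ α_(π j) = ρ α_j`, so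
`π j = j`, all `j`, so `τ = 1` by GalE. -/
def FreEStmt : Prop :=
  ∀ (κ : Type) [Field κ] (f : κ[X][X]) (n D : ℕ), IsCv κ f n D →
    ∀ (L : Type) [Field L] [Algebra κ L] [Algebra (RatFunc κ) L] [IsScalarTower κ (RatFunc κ) L]
      (c : Sp κ f n L) (act : (L ≃ₐ[RatFunc κ] L) →* (c.R ≃ₐ[κ] c.R)),
    (∀ τ x, (act τ x : L) = τ x) → ∀ dl : κ[X], c.IsDl dl → ∀ (ρ : c.R →ₐ[κ] κ) τ,
    dl.eval (ρ c.tR) ≠ 0 → ρ.comp (act τ).toAlgHom = ρ → τ = 1

/-- **HnsE.** (120 lines)  Uses PlE.  Hensel's lemma: at a good point `f` has `n` different roots in `κ⟦X⟧`.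

*Proof.*  Choose a place `ρ` with `ρ t = u` (PlE).  `f(u, Y) = ∏ (Y - y_j)`, `y_j = ρ α_j`, and `f_Y(u, y_j) ≠ 0` for all `j` (see FreE: `dl(u) = ∏ ev f' u y_j`), so the
`y_j` are different.  `A = κ⟦X⟧` is complete for `(X)` and local with residue map `constantCoeff`; the monic polynomial
`F = f.map (aeval (C u + X))` has `F(C y_j) ∈ (X)` and `F'(C y_j)` a unit modulo `X`.  Hensel (`IsAdicComplete (span {X}) κ⟦X⟧`,
`HenselianRing`/`IsAdicComplete.henselianRing`, `HenselianRing.is_henselian`) gives a root `Y_j ∈ A` of `F` with `Y_j - C y_j ∈ (X)`.  The `Y_j` are `n` different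
roots (constant coefficients `y_j`) of the monic polynomial `F` of degree `n` over the domain `A`, so `F = ∏ (X - C Y_j)`
(`Polynomial.prod_multiset_X_sub_C_of_monic_of_roots_card_eq`, or `Finset.prod_X_sub_C_dvd`-like and degrees). -/
def HnsEStmt : Prop :=
  ∀ (κ : Type) [Field κ] [IsAlgClosed κ] (f : κ[X][X]) (n D : ℕ), IsCv κ f n D →
    ∀ (L : Type) [Field L] [Algebra κ L] [Algebra (RatFunc κ) L] [IsScalarTower κ (RatFunc κ) L]
      (c : Sp κ f n L) (dl : κ[X]), c.IsDl dl → ∀ u : κ, dl.eval u ≠ 0 →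
    ∃ Y : Fin n → PowerSeries κ, Function.Injective Y ∧
      f.map (aeval (PowerSeries.C u + PowerSeries.X : PowerSeries κ) :
        κ[X] →ₐ[κ] PowerSeries κ).toRingHom = ∏ j, (X - C (Y j))

/-- **EmbE.** (150 lines)  Uses GalE, HnsE.  The expansion at a good point.

*Proof.*  `Λ = LaurentSeries κ`, a field, with `ι : κ⟦X⟧ → Λ` injective.  The ring homomorphism `κ[X] → Λ`, `P ↦ ι (aeval (C u + X) P)`, is injective (a
nonzero `P` gives the power series of the nonzero polynomial `P.comp (C u + X)`), so it extends to `ψ : K → Λ`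
(`RatFunc.liftRingHom` or `IsFractionRing.lift`).  Make `Λ` a `K`-algebra by `ψ`.  `f₁ = f.map (algebraMap κ[X] K)`
splits in `Λ` (HnsE), and `L` is generated over `K` by roots of `f₁`, whose minimal polynomial is a divisor of `f₁`; so there is a `K`-algebra homomorphism
`h : L → Λ` (`IntermediateField.nonempty_algHom_of_adjoin_splits`, or `IsSplittingField.lift`).  `h (α_j)` is a root of
`∏ (X - C (ι Y_i))`, so `h α_j = ι Y_i` for some `i`; `h t = ι (C u + X)`, and `h` is the identity on `κ`.  So `h (R) ⊆ ι(κ⟦X⟧)`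
(`Algebra.adjoin_le`), and `h` restricted to `R`, composed with `ι⁻¹` (`AlgEquiv.ofInjective`), is the wanted map; it is injective because `h` is. -/
def EmbEStmt : Prop :=
  ∀ (κ : Type) [Field κ] [IsAlgClosed κ] (f : κ[X][X]) (n D : ℕ), IsCv κ f n D →
    ∀ (L : Type) [Field L] [Algebra κ L] [Algebra (RatFunc κ) L] [IsScalarTower κ (RatFunc κ) L]
      (c : Sp κ f n L) (dl : κ[X]), c.IsDl dl → ∀ u : κ, dl.eval u ≠ 0 →
    ∃ h : c.R →ₐ[κ] PowerSeries κ, Function.Injective h ∧
      h c.tR = PowerSeries.C u + PowerSeries.X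

/-- The formula for the derivation `dl(t) d/dt` on the generators. -/
def IsDr {κ : Type} [Field κ] {f : κ[X][X]} {n : ℕ} {L : Type} [Field L] [Algebra κ L]
    [Algebra (RatFunc κ) L] (c : Sp κ f n L) (dl : κ[X]) (δ : Derivation κ c.R c.R) : Prop :=
  δ c.tR = aeval c.tR dl ∧ ∀ j, δ (c.αR j) = -(ev (dT f) c.tR (c.αR j) *
    ∏ i ∈ Finset.univ.erase j, ev (derivative f) c.tR (c.αR i))

/-- **DerE.** (120 lines)  Uses EmbE.  The derivation.

*Proof.*  `κ` is infinite, so there is `u` with `dl(u) ≠ 0`; `h` from EmbE.  `'` is the derivative on `κ⟦X⟧`, `H = h (aeval t dl)`.  The set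
`B = {x : R | ∃ y, h y = H * (h x)'}` is a subalgebra (`h` is a homomorphism; for a product `y₁ x₂ + x₁ y₂`).  It contains `t`
(`y = aeval t dl`, `(C u + X)' = 1`).  It contains `α_j`: apply the derivation `'` (restricted along nothing, on `κ⟦X⟧`) to `0 = h (ev f t α_j)
= ev f (h t) (h α_j)`: by `der_ev` `ev (dT f) (h t) (h α_j) + ev f' (h t) (h α_j) (h α_j)' = 0`; multiply by
`∏_{i ≠ j} ev f' (h t) (h α_i)`; the second term becomes `H (h α_j)'` (`IsDl`).  So `y` is the element of `IsDr`.  By `c.eq_top` `B = R`; `y` is unique because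
`h` is injective; `δ x = y` is `κ`-linear and a derivation (uniqueness), with the values in `IsDr`. -/
def DerEStmt : Prop :=
  ∀ (κ : Type) [Field κ] [IsAlgClosed κ] (f : κ[X][X]) (n D : ℕ), IsCv κ f n D →
    ∀ (L : Type) [Field L] [Algebra κ L] [Algebra (RatFunc κ) L] [IsScalarTower κ (RatFunc κ) L]
      (c : Sp κ f n L) (dl : κ[X]), c.IsDl dl → dl ≠ 0 →
    ∃ δ : Derivation κ c.R c.R, IsDr c dl δ

/-- **HtE.** (60 lines)  The derivation and the expansions.

*Proof.*  The set `B` of the `x` for which the formula is true is a subalgebra (both sides are derivations along `h`).  It contains `t`: `(C u + X)' = 1`.  It contains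
`α_j`: as in DerE `ev (dT f) (h t) (h α_j) + ev f' (h t) (h α_j) (h α_j)' = 0`, so `h (δ α_j) = -ev (dT f) (h t) (h α_j) ∏_{i ≠ j} ev f' (h t) (h α_i)
= ev f' (h t) (h α_j) (h α_j)' ∏_{i ≠ j} ... = h (aeval t dl) (h α_j)'` by `IsDl`.  `c.eq_top`. -/
def HtEStmt : Prop :=
  ∀ (κ : Type) [Field κ] (f : κ[X][X]) (n : ℕ) (L : Type) [Field L] [Algebra κ L]
    [Algebra (RatFunc κ) L] [IsScalarTower κ (RatFunc κ) L] (c : Sp κ f n L) (dl : κ[X]),
    c.IsDl dl → ∀ δ : Derivation κ c.R c.R, IsDr c dl δ →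
    ∀ (u : κ) (h : c.R →ₐ[κ] PowerSeries κ), h c.tR = PowerSeries.C u + PowerSeries.X →
    ∀ x, h (δ x) = h (aeval c.tR dl) * PowerSeries.derivative κ (h x)

/-- **DmE.** (100 lines)  Uses FilE, EvsE.  The derivation and the filtration.

*Proof.*  `m = n n D`.  `δ α_j ∈ S (n D + (n - 1) n D) = S m` and `δ t = aeval t dl ∈ S m` (`EvsE`, products).  For a monomial
`x = t^i ∏ α_j^(e_j)` with `i + D ∑ e_j ≤ a` the Leibniz rule gives `δ x` as a sum of `i t^(i-1) ∏ α^e · δ t ∈ S (a - 1 + m)` and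
`e_j α_j^(e_j - 1) (...) δ α_j ∈ S (a - D + m)` (`Derivation.leibniz`, `leibniz_pow`, `Derivation.leibniz_prod` or induction on the number of
factors: the set of `(x, a)` with `x ∈ S a` and `δ x ∈ S (a + m)` contains `(1, 0)`, `(t, 1)`, `(α_j, D)` and is closed under products `(x y, a + b)`; this is the
shortest way).  Then span induction (elements of the span are in `R`; it is convenient to prove: for all `x ∈ S a` and `hx : x ∈ R`, `δ ⟨x, hx⟩ ∈ S (a + m)`). -/
def DmEStmt : Prop :=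
  ∀ (κ : Type) [Field κ] (f : κ[X][X]) (n D : ℕ), IsCv κ f n D →
    ∀ (L : Type) [Field L] [Algebra κ L] [Algebra (RatFunc κ) L] [IsScalarTower κ (RatFunc κ) L]
      (c : Sp κ f n L) (dl : κ[X]), dl.natDegree ≤ n * n * D →
    ∀ δ : Derivation κ c.R c.R, IsDr c dl δ →
    ∀ (a : ℕ) (x : c.R), (x : L) ∈ c.S D a → (δ x : L) ∈ c.S D (a + n * n * D)

/-- **DcE.** (60 lines)  Uses GalE.  The derivation commutes with the group.

*Proof.*  The set of the `x` with `δ (act τ x) = act τ (δ x)` is a subalgebra.  It contains `t` (`act τ t = t`, `act τ (aeval t dl) = aeval t dl`), and `α_j`: `act τ α_j = α_(π j)`,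
`act τ (ev g t α_i) = ev g t α_(π i)` (`map_ev`), and `∏_{i ≠ j} ev f' t α_(π i) = ∏_{i ≠ π j} ev f' t α_i` (reindexing by `π`).  `c.eq_top`. -/
def DcEStmt : Prop :=
  ∀ (κ : Type) [Field κ] (f : κ[X][X]) (n D : ℕ), IsCv κ f n D →
    ∀ (L : Type) [Field L] [Algebra κ L] [Algebra (RatFunc κ) L] [IsScalarTower κ (RatFunc κ) L]
      (c : Sp κ f n L) (act : (L ≃ₐ[RatFunc κ] L) →* (c.R ≃ₐ[κ] c.R)),
    (∀ τ x, (act τ x : L) = τ x) → ∀ (dl : κ[X]) (δ : Derivation κ c.R c.R), IsDr c dl δ →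
    ∀ τ x, δ (act τ x) = act τ (δ x)

/-- **FrbE.** (150 lines)  Uses GalE.  The Frobenius automorphism which fixes the root `α_j`.

*Proof.*  `κ` is perfect, `φ : κ ≃+* κ` the Frobenius map.  `Polynomial.mapEquiv φ : κ[X] ≃+* κ[X]` extends to
`Φ : K ≃+* K` (`IsFractionRing.ringEquivOfRingEquiv`/`IsLocalization.ringEquivOfRingEquiv`), `Φ X = X`, `Φ (C u) = C (u^p)`.  `f₁ = f.map (algebraMap κ[X] K)` is fixed by
`Φ`.  `L` is a splitting field of `f₁` over `K` with the structure map `ψ = algebraMap K L` and also with `ψ ∘ Φ` (the roots are the same `α_j`, because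
`f₁.map (ψ ∘ Φ) = f₁.map ψ`, and they generate `L` because `Φ` is surjective).  By uniqueness of splitting fields
(`IsSplittingField.algEquiv` twice, through `f₁.SplittingField`; or `IsSplittingField.lift`, which is bijective; or
`IntermediateField.nonempty_algHom_of_adjoin_splits`) there is `F₀ : L ≃+* L` with `F₀ ∘ ψ = ψ ∘ Φ`.  `F₀` permutes the roots of `f₁`: `F₀ α_i = α_(π₀ i)`.  Choose
`τ ∈ G` with `τ (F₀ α_j) = α_j` (GalE) and put `F = τ ∘ F₀`. -/
def FrbEStmt : Prop :=
  ∀ (p : ℕ) [Fact p.Prime] (κ : Type) [Field κ] [CharP κ p] [IsAlgClosed κ] (f : κ[X][X])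
    (n D : ℕ), IsCv κ f n D → f.map (mapRingHom (frobenius κ p)) = f →
    ∀ (L : Type) [Field L] [Algebra κ L] [Algebra (RatFunc κ) L] [IsScalarTower κ (RatFunc κ) L]
      (c : Sp κ f n L) (j : Fin n),
    ∃ (F : L ≃+* L) (π : Equiv.Perm (Fin n)), F (tL κ L) = tL κ L ∧
      (∀ u : κ, F (algebraMap κ L u) = algebraMap κ L (u ^ p)) ∧
      (∀ i, F (c.α i) = c.α (π i)) ∧ F (c.α j) = c.α j

/-- **FrRE.** (40 lines)  The Frobenius automorphism restricted to `R`.

*Proof.*  `F` maps `R` to `R` and `F.symm` maps `R` to `R`: `Algebra.adjoin_induction` (constants: `F u = u^p`, `F.symm u = v` with `v^p = u`, which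
exists because `κ` is algebraically closed; roots: `π` and `π⁻¹`). -/
def FrREStmt : Prop :=
  ∀ (p : ℕ) [Fact p.Prime] (κ : Type) [Field κ] [CharP κ p] [IsAlgClosed κ] (f : κ[X][X])
    (n : ℕ) (L : Type) [Field L] [Algebra κ L] [Algebra (RatFunc κ) L]
    [IsScalarTower κ (RatFunc κ) L] (c : Sp κ f n L) (F : L ≃+* L) (π : Equiv.Perm (Fin n)),
    F (tL κ L) = tL κ L → (∀ u : κ, F (algebraMap κ L u) = algebraMap κ L (u ^ p)) →
    (∀ i, F (c.α i) = c.α (π i)) → ∃ FR : c.R ≃+* c.R, ∀ x, (FR x : L) = F x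

/-- **DatE.** (200 lines)  Uses SplE, GalE, FilE, EvsE, InvE, SzE, BasE, DlE, ActE, PlE, TrnE, FreE,
EmbE, DerE, HtE, DmE, DcE, FrbE, FrRE (in this order).  The data.

*Proof.*  `L`, `c` from SplE.  `G = L ≃ₐ[K] L`, a finite group (`Fintype.ofFinite`).  `R = c.R`, `t = c.tR`, `act` from ActE,
`S a = (c.S D a).comap (R.val.toLinearMap)`, `dl` from DlE, `D = δ` from DerE, `F` from FrbE (with `j = ⟨0, _⟩`) and FrRE, `β` from BasE (elements of `R`
by FilE), `c = n n D`.  `norm`: `y = ∏ τ, act τ x` is fixed by the group, in `S (card G * a)` (products), InvE and SzE; `P ≠ 0` because `y ≠ 0` (`L` is a field).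
`act_mem`, `F_mem`: the last part of FilE.  `β_ind`: `∑ aeval t (q τ) β τ = 0` is a relation with coefficients `algebraMap κ[X] K (q τ)` (`aeval_tL`, `Algebra.smul_def`).  `hat`: let
`ρ` be good, `u = ρ t`, `h₀` from EmbE, `ρ₀ = constantCoeff ∘ h₀`, `ρ₀ t = u`; by TrnE `ρ = ρ₀ ∘ act τ`; `h = h₀ ∘ act τ` has `h t = C u + X`, and
HtE gives `der`.  `ex`: PlE.  `α = c.αR ⟨0, _⟩`, `ev_rootR`. -/
def DatEStmt : Prop :=
  ∀ (p : ℕ) [Fact p.Prime] (κ : Type) [Field κ] [CharP κ p] [IsAlgClosed κ] (f : κ[X][X])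
    (n D : ℕ), IsCv κ f n D → n < p → f.map (mapRingHom (frobenius κ p)) = f →
    ∃ (R : Type) (_ : CommRing R) (_ : Algebra κ R) (G : Type) (_ : Group G) (_ : Fintype G)
      (s : St p κ R G) (α : R), Fintype.card G ≤ n.factorial ∧ s.c ≤ n * n * D ∧
      ev f s.t α = 0 ∧ s.F α = α

/-- **WthE.** (120 lines)  Uses FixE (of Spec1, hypothesis `FixEStmt`), DatE.  Points over `𝔽_p` for large `p`.

*Proof.*  `N₀ = n!`, `c₀ = n n D`, `r = n n D + D`; `p₀ = max p₂ n`.  `κ = AlgebraicClosure (ZMod p)`, `f₁ = f.map (mapRingHom (algebraMap (ZMod p) κ))`; it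
satisfies `IsCv κ f₁ n D` and is fixed by the Frobenius map (`x^p = x` in `ZMod p`).  Data from DatE.  `𝓐` is the finite set of
the `algebraMap (ZMod p) κ a`, `a : ZMod p`, with `dl(a) ≠ 0` and `g(a) ≠ 0`; at most `natDegree dl + natDegree g ≤ r` of the `p` elements
are missing (`card_roots'`), so `p ≤ card 𝓐 + r`.  FixE gives `ρ` with `ρ t ∈ 𝓐` and `ρ (F x) = ρ(x)^p`.  So `b = ρ α`
satisfies `b^p = b`; the elements of `κ` with `b^p = b` are the `p` elements of the image of `ZMod p`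
(`X^p - X` has at most `p` roots; `ZMod.pow_card`; `FiniteField` lemmas).  `f₁(ρ t, ρ α) = ρ (f(t, α)) = 0` (`map_ev`); the map `ZMod p → κ` is
injective, so `f(a, b) = 0` in `ZMod p`. -/
def WthEStmt : Prop :=
  ∀ n D : ℕ, 1 ≤ n → 1 ≤ D → ∃ p₀ : ℕ, ∀ (p : ℕ) [Fact p.Prime], p₀ < p →
    ∀ (f : (ZMod p)[X][X]) (g : (ZMod p)[X]), f.Monic → f.natDegree = n →
    (∀ i, (f.coeff i).natDegree ≤ D) →
    Irreducible (f.map ((algebraMap (AlgebraicClosure (ZMod p))[X]
      (RatFunc (AlgebraicClosure (ZMod p)))).comp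
        (mapRingHom (algebraMap (ZMod p) (AlgebraicClosure (ZMod p)))))) →
    g ≠ 0 → g.natDegree ≤ D → ∃ a b : ZMod p, g.eval a ≠ 0 ∧ (f.eval (C b)).eval a = 0

end MP7U
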