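import Pool.Agent.Lib.MP_7f581e_U.E.Spec2

/-!
# C41, Block E2: ActE (helper6, after helper93's docstring)
-/

set_option autoImplicit false

namespace MP7U

open Polynomial

namespace ActEM

theorem fix_C {κ : Type} [Field κ] {L : Type} [Field L] [Algebra κ L]
    [Algebra (RatFunc κ) L] [IsScalarTower κ (RatFunc κ) L] (τ : L ≃ₐ[RatFunc κ] L) (r : κ) :
    τ (algebraMap κ L r) = algebraMap κ L r := by
  rw [IsScalarTower.algebraMap_apply κ (RatFunc κ) L, τ.commutes]

theorem fix_t {κ : Type} [Field κ] {L : Type} [Field L] [Algebra κ L]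
    [Algebra (RatFunc κ) L] (τ : L ≃ₐ[RatFunc κ] L) : τ (tL κ L) = tL κ L := τ.commutes _

end ActEM

open ActEM in
theorem eActE (hG : GalEStmt) : ActEStmt := by
  intro κ _ f n D hf L _ _ _ _ c
  obtain ⟨_, _, hperm, _, _, _⟩ := hG κ f n D hf L c
  have h : ∀ (τ : L ≃ₐ[RatFunc κ] L) (x : L), x ∈ c.R → τ x ∈ c.R := by
    intro τ x hx
    obtain ⟨π, hπ⟩ := hperm τ
    refine Algebra.adjoin_induction (p := fun x _ => τ x ∈ c.R) ?_ ?_ ?_ ?_ hx
    · rintro x (rfl | ⟨j, rfl⟩)
      · rw [fix_t]; exact c.t_mem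
      · rw [hπ]; exact c.α_mem _
    · intro r
      rw [fix_C]; exact Subalgebra.algebraMap_mem _ r
    · intro x y _ _ h1 h2
      rw [map_add]; exact add_mem h1 h2
    · intro x y _ _ h1 h2
      rw [map_mul]; exact mul_mem h1 h2
  let g : (L ≃ₐ[RatFunc κ] L) → (c.R ≃ₐ[κ] c.R) := fun τ =>
    { toFun := fun x => ⟨τ x, h τ x x.2⟩
      invFun := fun x => ⟨τ.symm x, h τ.symm x x.2⟩
      left_inv := fun x => Subtype.ext (τ.symm_apply_apply x)
      right_inv := fun x => Subtype.ext (τ.apply_symm_apply x)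
      map_mul' := fun x y => Subtype.ext (map_mul τ (x : L) y)
      map_add' := fun x y => Subtype.ext (map_add τ (x : L) y)
      commutes' := fun r => Subtype.ext (fix_C τ r) }
  refine ⟨{ toFun := g, map_one' := ?_, map_mul' := ?_ }, fun τ x => rfl⟩
  · ext x; rfl
  · intro τ τ'
    ext x; rfl

end MP7U
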