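import Pool.Agent.Lib.MP_7f581e_U.E.HlpS

/-!
# C41, Block E: Aux (helper6, after helper93's docstring)
-/

set_option autoImplicit false

namespace MP7U

open Polynomial

theorem eAux (hDk : DkPStmt) (hDim : DimEStmt) (hInd : IndEStmt) : AuxStmt := by
  intro p _ κ _ _ _ R _ _ G _ _ s τ A B M hlt
  obtain ⟨hdk, _, _⟩ := hDk p κ R G s
  obtain ⟨hli, hwm⟩ := hInd p κ R G s A
  obtain ⟨_, hvm⟩ := hInd p κ R G s B
  set a' := A + B + (M + 2) * s.c with ha'
  obtain ⟨hfin, hrk⟩ := hDim p κ R G s a'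
  haveI := hfin
  set w : Fin A × G → R := fun i => s.t ^ (i.1 : ℕ) * s.β i.2 with hw
  set vv : Fin B × G → R := fun j => s.act τ (s.F (s.t ^ (j.1 : ℕ) * s.β j.2)) with hvv
  have hvv_mem : ∀ j, vv j ∈ s.S (B + s.c) := fun j =>
    s.act_mem τ _ _ (s.F_mem _ _ (hvm j))
  -- the functions `u_e`
  let U : ∀ j : Fin B × G, (((Fin A × G) × (Fin B × G)) → κ) →ₗ[κ] R := fun j =>
    ∑ i, (LinearMap.proj (i, j) : (((Fin A × G) × (Fin B × G)) → κ) →ₗ[κ] κ).smulRight (w i)
  have hU : ∀ e j, U j e = ∑ i, e (i, j) • w i := by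
    intro e j
    simp [U, LinearMap.sum_apply]
  have hUm : ∀ e j, U j e ∈ s.S (A + s.c) := by
    intro e j
    rw [hU]
    exact Submodule.sum_mem _ fun i _ => Submodule.smul_mem _ _ (hwm i)
  let Ψ0 : Fin M → ((((Fin A × G) × (Fin B × G)) → κ) →ₗ[κ] R) := fun k =>
    ∑ j, (LinearMap.mulRight κ (vv j)).comp ((s.dk k).comp (U j))
  have hΨ0 : ∀ k e, Ψ0 k e = ∑ j, s.dk k (U j e) * vv j := by
    intro k e
    simp [Ψ0, LinearMap.sum_apply]
  have hΨm : ∀ k e, Ψ0 k e ∈ s.S a' := by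
    intro k e
    rw [hΨ0]
    refine Submodule.sum_mem _ fun j _ => ?_
    have h1 := s.mul_mem _ _ _ _ (hdk k _ _ (hUm e j)) (hvv_mem j)
    refine s.mono _ _ ?_ h1
    rw [ha']
    have h2 : (k : ℕ) * s.c ≤ M * s.c := Nat.mul_le_mul_right _ k.2.le
    nlinarith
  let Ψ : (((Fin A × G) × (Fin B × G)) → κ) →ₗ[κ] (Fin M → s.S a') :=
    LinearMap.pi fun k => LinearMap.codRestrict (s.S a') (Ψ0 k) (hΨm k)
  have hrank : Module.finrank κ (Fin M → s.S a')
      < Module.finrank κ (((Fin A × G) × (Fin B × G)) → κ) := by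
    rw [Module.finrank_fintype_fun_eq_card, Module.finrank_pi_fintype]
    simp only [Finset.sum_const, Finset.card_univ, Fintype.card_fin, smul_eq_mul,
      Fintype.card_prod]
    have h1 : M * Module.finrank κ (s.S a') ≤ M * (Fintype.card G * a' + 1) :=
      Nat.mul_le_mul_left _ hrk
    have h2 : A * Fintype.card G * (B * Fintype.card G)
        = (Fintype.card G * A) * (Fintype.card G * B) := by ring
    rw [h2]
    exact lt_of_le_of_lt h1 hlt
  have hker := LinearMap.ker_ne_bot_of_finrank_lt (f := Ψ) hrank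
  obtain ⟨e, he, hne⟩ := Submodule.exists_mem_ne_zero_of_ne_bot hker
  refine ⟨fun j => U j e, fun j => hUm e j, ?_, ?_⟩
  · by_contra hn
    push Not at hn
    apply hne
    funext x
    obtain ⟨i, j⟩ := x
    have h1 := hn j
    simp only [hU] at h1
    exact Fintype.linearIndependent_iff.1 hli (fun i => e (i, j)) h1 i
  · intro k hk
    have h1 : Ψ e = 0 := he
    have h2 := congrArg Subtype.val (congrFun h1 ⟨k, hk⟩)
    have h3 : Ψ0 ⟨k, hk⟩ e = 0 := h2
    rw [hΨ0] at h3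
    exact h3

end MP7U
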