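import Pool.Agent.Lib.MP_7f581e_U.E.Spec2

/-! # C41 (MP_7f581e_nt), block E: BasE, a basis of small elements -/

set_option autoImplicit false

namespace MP7U

open Polynomial

namespace BasEM

variable {κ : Type} [Field κ] {f : κ[X][X]} {n : ℕ} {L : Type} [Field L] [Algebra κ L]
  [Algebra (RatFunc κ) L] [IsScalarTower κ (RatFunc κ) L]

/-- The monomials in the roots with exponents less than `n`. -/
private def Q (c : Sp κ f n L) : Set L :=
  {x | ∃ e : Fin n → ℕ, (∀ j, e j < n) ∧ x = ∏ j, c.α j ^ e j}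

private theorem rel (c : Sp κ f n L) (D : ℕ) (hcv : IsCv κ f n D) (i : Fin n) :
    ∃ a : ℕ → RatFunc κ, c.α i ^ n = ∑ k ∈ Finset.range n, a k • c.α i ^ k := by
  refine ⟨fun k => -algebraMap κ[X] (RatFunc κ) (f.coeff k), ?_⟩
  have h1 := c.ev_root i
  rw [ev_eq_sum, hcv.deg, Finset.sum_range_succ] at h1
  have h2 : f.coeff n = 1 := by
    have := hcv.monic.coeff_natDegree
    rwa [hcv.deg] at this
  rw [h2, map_one, one_mul] at h1
  have h3 : ∑ k ∈ Finset.range n, (-algebraMap κ[X] (RatFunc κ) (f.coeff k)) • c.α i ^ k =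
      -∑ k ∈ Finset.range n, aeval (tL κ L) (f.coeff k) * c.α i ^ k := by
    rw [← Finset.sum_neg_distrib]
    refine Finset.sum_congr rfl fun k _ => ?_
    rw [neg_smul, Algebra.smul_def, aeval_tL]
  rw [h3]
  linear_combination h1

private theorem mon_mem (c : Sp κ f n L) (D : ℕ) (hcv : IsCv κ f n D) :
    ∀ (N : ℕ) (e : Fin n → ℕ), ∑ j, e j = N →
      (∏ j, c.α j ^ e j) ∈ Submodule.span (RatFunc κ) (Q c) := by
  intro N
  induction N using Nat.strong_induction_on with
  | _ N ih =>
    intro e he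
    by_cases h : ∀ j, e j < n
    · exact Submodule.subset_span ⟨e, h, rfl⟩
    · push Not at h
      obtain ⟨i, hi⟩ := h
      obtain ⟨a, ha⟩ := rel c D hcv i
      have hprod : ∀ e' : Fin n → ℕ, ∏ j, c.α j ^ e' j =
          c.α i ^ e' i * ∏ j ∈ Finset.univ.erase i, c.α j ^ e' j := fun e' =>
        (Finset.mul_prod_erase Finset.univ (fun j => c.α j ^ e' j) (Finset.mem_univ i)).symm
      have hsum : ∀ e' : Fin n → ℕ, ∑ j, e' j =
          e' i + ∑ j ∈ Finset.univ.erase i, e' j := fun e' =>
        (Finset.add_sum_erase Finset.univ e' (Finset.mem_univ i)).symm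
      have h1 : ∏ j, c.α j ^ e j = ∑ k ∈ Finset.range n, a k •
          ∏ j, c.α j ^ (Function.update e i (e i - n + k)) j := by
        have h2 : ∀ k, ∏ j, c.α j ^ (Function.update e i (e i - n + k)) j =
            c.α i ^ (e i - n + k) * ∏ j ∈ Finset.univ.erase i, c.α j ^ e j := by
          intro k
          rw [hprod, Function.update_self]
          congr 1
          refine Finset.prod_congr rfl fun j hj => ?_
          rw [Function.update_of_ne (Finset.ne_of_mem_erase hj)]
        simp only [h2]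
        rw [hprod e]
        have h3 : c.α i ^ e i = c.α i ^ (e i - n) * c.α i ^ n := by
          rw [← pow_add, Nat.sub_add_cancel hi]
        rw [h3, ha, Finset.mul_sum, Finset.sum_mul]
        refine Finset.sum_congr rfl fun k _ => ?_
        rw [mul_smul_comm, smul_mul_assoc, ← pow_add]
      rw [h1]
      refine Submodule.sum_mem _ fun k hk => Submodule.smul_mem _ _ ?_
      rw [Finset.mem_range] at hk
      refine ih (∑ j, Function.update e i (e i - n + k) j) ?_ _ rfl
      rw [hsum, Function.update_self]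
      have h4 : ∑ j ∈ Finset.univ.erase i, Function.update e i (e i - n + k) j =
          ∑ j ∈ Finset.univ.erase i, e j := by
        refine Finset.sum_congr rfl fun j hj => ?_
        rw [Function.update_of_ne (Finset.ne_of_mem_erase hj)]
      rw [h4, ← he, hsum e]
      omega

private theorem closure_mon (c : Sp κ f n L) (x : L)
    (hx : x ∈ Submonoid.closure (Set.range c.α)) : ∃ e : Fin n → ℕ, x = ∏ j, c.α j ^ e j := by
  classical
  induction hx using Submonoid.closure_induction with
  | mem x hx =>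
    obtain ⟨i, rfl⟩ := hx
    refine ⟨Pi.single i 1, ?_⟩
    rw [Finset.prod_eq_single i]
    · simp
    · intro j _ hj
      rw [Pi.single_eq_of_ne hj, pow_zero]
    · intro h; exact absurd (Finset.mem_univ i) h
  | one => exact ⟨0, by simp⟩
  | mul x y _ _ hx hy =>
    obtain ⟨e, rfl⟩ := hx
    obtain ⟨e', rfl⟩ := hy
    refine ⟨e + e', ?_⟩
    rw [← Finset.prod_mul_distrib]
    exact Finset.prod_congr rfl fun j _ => (pow_add _ _ _).symm

end BasEM

open BasEM in
/-- **BasE.** -/
theorem eBasE (hGal : GalEStmt) : BasEStmt := by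
  intro κ _ f n D hcv L _ _ _ _ c
  obtain ⟨hfd, hgal, -, -, -, -⟩ := hGal κ f n D hcv L c
  haveI := hfd
  haveI := hgal
  have htop : Submodule.span (RatFunc κ) (Q c) = ⊤ := by
    have h1 : (Algebra.adjoin (RatFunc κ) (Set.range c.α)) = ⊤ := by
      have h2 := congrArg IntermediateField.toSubalgebra c.gen
      rwa [IntermediateField.adjoin_toSubalgebra, IntermediateField.top_toSubalgebra] at h2
    have h3 := congrArg Subalgebra.toSubmodule h1
    rw [Algebra.adjoin_eq_span, Algebra.top_toSubmodule] at h3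
    refine top_unique ?_
    rw [← h3, Submodule.span_le]
    intro x hx
    obtain ⟨e, rfl⟩ := closure_mon c x hx
    exact mon_mem c D hcv _ e rfl
  obtain ⟨b, hbQ, hbspan, hbli⟩ := exists_linearIndependent (RatFunc κ) (Q c)
  rw [htop] at hbspan
  let B : Module.Basis b (RatFunc κ) L := Module.Basis.mk hbli (by
    rw [Subtype.range_coe, hbspan])
  haveI : Finite b := Module.Finite.finite_basis B
  haveI : Finite (L ≃ₐ[RatFunc κ] L) := inferInstance
  have hcard : Nat.card (L ≃ₐ[RatFunc κ] L) = Nat.card b := by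
    rw [IsGalois.card_aut_eq_finrank, Module.finrank_eq_nat_card_basis B]
  letI : Fintype b := Fintype.ofFinite _
  letI : Fintype (L ≃ₐ[RatFunc κ] L) := Fintype.ofFinite _
  obtain ⟨E⟩ : Nonempty ((L ≃ₐ[RatFunc κ] L) ≃ b) := ⟨Fintype.equivOfCardEq (by
    rw [← Nat.card_eq_fintype_card, ← Nat.card_eq_fintype_card, hcard])⟩
  refine ⟨fun τ => (E τ : L), fun τ => ?_, hbli.comp E E.injective⟩
  obtain ⟨e, he, hx⟩ := hbQ (E τ).2
  change (E τ : L) ∈ _
  rw [hx]
  refine Submodule.subset_span ⟨0, e, ?_, by rw [pow_zero, one_mul]⟩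
  have h1 : ∑ j, e j ≤ n * n := by
    calc ∑ j, e j ≤ ∑ _j : Fin n, n := Finset.sum_le_sum fun j _ => (he j).le
      _ = n * n := by simp
  rw [zero_add, mul_comm D]
  exact Nat.mul_le_mul_right D h1

end MP7U
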