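import Pool.Agent.Lib.MP_7f581e_U.E.HlpS

/-!
# C41, Block E: Bnd (helper6, after helper93's docstring)
-/

set_option autoImplicit false

namespace MP7U

open Polynomial

namespace BndM

variable {p : ℕ} {κ : Type} [Field κ] {R : Type} [CommRing R] [Algebra κ R] {G : Type}
  [Group G] [Fintype G]

theorem pow_mem (s : St p κ R G) {b : ℕ} {x : R} (hx : x ∈ s.S b) : ∀ k : ℕ, x ^ k ∈ s.S (k * b)
  | 0 => by rw [pow_zero, zero_mul]; exact s.one_mem
  | k + 1 => by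
    rw [pow_succ, Nat.succ_mul]
    exact s.mul_mem _ _ _ _ (pow_mem s hx k) hx

end BndM

theorem eBnd (hNum : NumEStmt) (hDk : DkPStmt) (hOrd : OrdStmt) (hInj : InjEStmt)
    (hInd : IndEStmt) (hAux : AuxStmt) (hCnt : CntStmt) : BndStmt := by
  intro p _ κ _ _ _ R _ _ G _ _ s τ hp 𝓕 h𝓕
  have hN : 1 ≤ Fintype.card G := Fintype.card_pos
  obtain ⟨n1, n2, n3, n4, n5⟩ := hNum p (Fintype.card G) s.c hN hp
  set M := Nat.sqrt p with hM
  set A := p / (4 * Fintype.card G) with hA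
  set B := M / Fintype.card G + (8 * (s.c + 1) + 1) with hB
  obtain ⟨_, hdk2, _⟩ := hDk p κ R G s
  obtain ⟨hli, hvm⟩ := hInd p κ R G s B
  obtain ⟨u, hu, ⟨j₀, hj₀⟩, hrel⟩ := hAux p κ R G s τ A B M n2
  set v : Fin B × G → R := fun j => s.t ^ (j.1 : ℕ) * s.β j.2 with hv
  set θ := ∑ j, u j * v j ^ p with hθ
  have hθ0 : θ ≠ 0 := by
    intro h0
    exact hj₀ (hInj p κ R G s (Fin B × G) u v (A + s.c) (B + s.c) hu hvm hli n1 h0 j₀)
  have hθm : θ ∈ s.S ((A + s.c) + p * (B + s.c)) :=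
    Submodule.sum_mem _ fun j _ => s.mul_mem _ _ _ _ (hu j) (BndM.pow_mem s (hvm j) p)
  have h1 : ∀ ρ ∈ 𝓕, s.Good ρ ∧ ∀ h : R →ₐ[κ] PowerSeries κ, s.Hat ρ h →
      PowerSeries.X ^ M ∣ h θ := by
    intro ρ hρ
    obtain ⟨hg, hfix⟩ := h𝓕 ρ hρ
    refine ⟨hg, fun h hh => hOrd p κ R G s ρ hg h hh M n4 θ fun k hk => ?_⟩
    have h2 := congrArg ρ (hrel k hk)
    rw [map_zero, map_sum] at h2
    rw [← h2, hθ, map_sum, map_sum]
    refine Finset.sum_congr rfl fun j _ => ?_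
    rw [hdk2, map_mul, map_mul, map_pow]
    congr 1
    exact (hfix (v j)).symm
  have h2 := hCnt p κ R G s _ M θ hθm hθ0 𝓕 h1
  exact Nat.le_of_mul_le_mul_left (h2.trans n3) n5

end MP7U
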