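import Pool.Agent.Lib.MP_7f581e_U.E.HlpS

/-!
# C41, Block E: Cnt (helper6, after helper93's docstring)
-/

set_option autoImplicit false

namespace MP7U

open Polynomial

namespace CntM

variable {p : ℕ} {κ : Type} [Field κ] {R : Type} [CommRing R] [Algebra κ R] {G : Type}
  [Group G] [Fintype G]

/-- The translate of an expansion. -/
theorem hat_act (s : St p κ R G) {ρ : R →ₐ[κ] κ} {h : R →ₐ[κ] PowerSeries κ} (hh : s.Hat ρ h)
    (τ : G) : s.Hat (ρ.comp (s.act τ).toAlgHom) (h.comp (s.act τ).toAlgHom) := by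
  have hdl : s.act τ (aeval s.t s.dl) = aeval s.t s.dl := by
    rw [← aeval_algHom_apply, s.act_t]
  refine ⟨?_, fun x => ?_, fun x => ?_⟩
  · show h (s.act τ s.t) = PowerSeries.C (ρ (s.act τ s.t)) + PowerSeries.X
    rw [s.act_t]
    exact hh.map_t
  · exact hh.const (s.act τ x)
  · show h (s.act τ (s.D x)) = h (s.act τ (aeval s.t s.dl))
      * PowerSeries.derivative κ (h (s.act τ x))
    rw [← s.D_act, hdl]
    exact hh.der (s.act τ x)

/-- Divisibility at a point. -/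
theorem dvd_at (u : κ) (P : κ[X]) (K : ℕ)
    (h : PowerSeries.X ^ K ∣ aeval (PowerSeries.C u + PowerSeries.X : PowerSeries κ) P) :
    (X - C u) ^ K ∣ P := by
  rw [HlpS.coe_aeval, PowerSeries.X_pow_dvd_iff] at h
  have h1 : X ^ K ∣ P.comp (X + C u) := by
    rw [Polynomial.X_pow_dvd_iff]
    intro d hd
    rw [← Polynomial.coeff_coe]
    exact h d hd
  obtain ⟨Q, hQ⟩ := h1
  refine ⟨Q.comp (X - C u), ?_⟩
  have h2 : P = (P.comp (X + C u)).comp (X - C u) := by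
    rw [comp_assoc, add_comp, X_comp, C_comp, sub_add_cancel, comp_X]
  rw [h2, hQ, mul_comp, pow_comp, X_comp]

end CntM

theorem eCnt : CntStmt := by
  intro p _ κ _ _ R _ _ G _ _ s w M x hx hx0 𝓕 h𝓕
  classical
  obtain ⟨P, hP0, hPd, hP⟩ := s.norm w x hx hx0
  set 𝓤 : Finset κ := 𝓕.image fun ρ => ρ s.t with h𝓤
  have key : ∀ u ∈ 𝓤, (X - C u) ^ (M * (𝓕.filter fun ρ : R →ₐ[κ] κ => ρ s.t = u).card) ∣ P := by
    intro u hu
    obtain ⟨ρ₀, hρ₀, rfl⟩ := Finset.mem_image.1 hu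
    set u := ρ₀ s.t with hue
    obtain ⟨h, hh⟩ := s.hat ρ₀ (h𝓕 ρ₀ hρ₀).1
    have htr : ∀ ρ : R →ₐ[κ] κ, ∃ τ : G, ρ ∈ 𝓕.filter (fun ρ : R →ₐ[κ] κ => ρ s.t = u) →
        ρ = ρ₀.comp (s.act τ).toAlgHom := by
      intro ρ
      by_cases hρ : ρ ∈ 𝓕.filter (fun ρ : R →ₐ[κ] κ => ρ s.t = u)
      · obtain ⟨τ, hτ⟩ := s.trans ρ₀ ρ (h𝓕 ρ₀ hρ₀).1 ((Finset.mem_filter.1 hρ).2).symm
        exact ⟨τ, fun _ => hτ⟩
      · exact ⟨1, fun h => absurd h hρ⟩
    choose T hT using htr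
    have hinj : Set.InjOn T (𝓕.filter (fun ρ : R →ₐ[κ] κ => ρ s.t = u) : Finset (R →ₐ[κ] κ)) := by
      intro ρ hρ ρ' hρ' he
      rw [hT ρ (Finset.mem_coe.1 hρ), hT ρ' (Finset.mem_coe.1 hρ'), he]
    have h1 : h (aeval s.t P)
        = aeval (PowerSeries.C u + PowerSeries.X : PowerSeries κ) P := by
      rw [← aeval_algHom_apply, hh.map_t]
    have h2 : PowerSeries.X ^ (M * (𝓕.filter fun ρ : R →ₐ[κ] κ => ρ s.t = u).card) ∣ h (aeval s.t P) := by
      rw [hP, map_prod]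
      refine Dvd.dvd.trans ?_ (Finset.prod_dvd_prod_of_subset
        ((𝓕.filter fun ρ : R →ₐ[κ] κ => ρ s.t = u).image T) Finset.univ _ (Finset.subset_univ _))
      rw [Finset.prod_image hinj, pow_mul, ← Finset.prod_const]
      refine Finset.prod_dvd_prod_of_dvd _ _ fun ρ hρ => ?_
      have h3 := CntM.hat_act s hh (T ρ)
      rw [← hT ρ hρ] at h3
      exact (h𝓕 ρ (Finset.mem_filter.1 hρ).1).2 _ h3
    rw [h1] at h2
    exact CntM.dvd_at u P _ h2
  have hdvd : ∏ u ∈ 𝓤, (X - C u) ^ (M * (𝓕.filter fun ρ : R →ₐ[κ] κ => ρ s.t = u).card) ∣ P := by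
    refine Finset.prod_dvd_of_coprime ?_ key
    intro u _ u' _ huu
    exact IsCoprime.pow (pairwise_coprime_X_sub_C (s := fun u : κ => u) Function.injective_id huu)
  have hdeg := natDegree_le_of_dvd hdvd hP0
  have h4 : (∏ u ∈ 𝓤, (X - C u) ^ (M * (𝓕.filter fun ρ : R →ₐ[κ] κ => ρ s.t = u).card)).natDegree
      = M * 𝓕.card := by
    rw [natDegree_prod_of_monic _ _ fun u _ => (monic_X_sub_C u).pow _]
    have h5 : ∀ u ∈ 𝓤, ((X - C u) ^ (M * (𝓕.filter fun ρ : R →ₐ[κ] κ => ρ s.t = u).card)).natDegree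
        = M * (𝓕.filter fun ρ : R →ₐ[κ] κ => ρ s.t = u).card := by
      intro u _
      rw [(monic_X_sub_C u).natDegree_pow, natDegree_X_sub_C, mul_one]
    rw [Finset.sum_congr rfl h5, ← Finset.mul_sum, ← Finset.card_eq_sum_card_image]
  rw [h4] at hdeg
  exact hdeg.trans hPd

end MP7U
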