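import Pool.Agent.Lib.MP_7f581e_U.E.Spec2

/-! # C41 (MP_7f581e_nt), block E: DatE, the data -/

set_option autoImplicit false

namespace MP7U

open Polynomial

namespace DatEM

variable {κ : Type} [Field κ] {f : κ[X][X]} {n : ℕ} {L : Type} [Field L] [Algebra κ L]
  [Algebra (RatFunc κ) L] [IsScalarTower κ (RatFunc κ) L]

private theorem coe_aeval (c : Sp κ f n L) (P : κ[X]) :
    ((aeval c.tR P : c.R) : L) = aeval (tL κ L) P :=
  (aeval_algHom_apply c.R.val c.tR P).symm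

private theorem prod_mem (c : Sp κ f n L) (D : ℕ) (h1 : (1 : L) ∈ c.S D 0)
    (hmul : ∀ a b x y, x ∈ c.S D a → y ∈ c.S D b → x * y ∈ c.S D (a + b))
    {ι : Type} (s : Finset ι) (g : ι → L) (a : ℕ) (hg : ∀ i ∈ s, g i ∈ c.S D a) :
    ∏ i ∈ s, g i ∈ c.S D (s.card * a) := by
  classical
  induction s using Finset.induction_on with
  | empty => simpa using h1
  | insert i s hi ih =>
    rw [Finset.prod_insert hi, Finset.card_insert_of_notMem hi]
    have h2 : (s.card + 1) * a = a + s.card * a := by ring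
    rw [h2]
    exact hmul _ _ _ _ (hg i (Finset.mem_insert_self _ _))
      (ih fun j hj => hg j (Finset.mem_insert_of_mem hj))

end DatEM

open DatEM in
/-- **DatE.** -/
theorem eDatE (hSpl : SplEStmt) (hGal : GalEStmt) (hFil : FilEStmt) (_hEvs : EvsEStmt)
    (hInv : InvEStmt) (hSz : SzEStmt) (hBas : BasEStmt) (hDl : DlEStmt) (hAct : ActEStmt)
    (hPl : PlEStmt) (hTrn : TrnEStmt) (hFre : FreEStmt) (hEmb : EmbEStmt) (hDer : DerEStmt)
    (hHt : HtEStmt) (hDm : DmEStmt) (hDc : DcEStmt) (hFrb : FrbEStmt) (hFrR : FrREStmt) :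
    DatEStmt := by
  intro p _ κ _ _ _ f n D hcv hnp hfr
  obtain ⟨L, _, _, _, _, ⟨c⟩⟩ := hSpl p κ f n D hcv hnp
  obtain ⟨hfd, hgal, hperm, -, -, hcard⟩ := hGal κ f n D hcv L c
  haveI := hfd
  haveI := hgal
  obtain ⟨h1S, htS, -, hmono, hmul, hSR, -, hφS⟩ := hFil κ f n D L c
  obtain ⟨β, hβS, hβi⟩ := hBas κ f n D hcv L c
  obtain ⟨dl, hdl, hdl0, hdldeg⟩ := hDl κ f n D hcv L c
  obtain ⟨act, hact⟩ := hAct κ f n D hcv L c
  obtain ⟨δ, hδ⟩ := hDer κ f n D hcv L c dl hdl hdl0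
  obtain ⟨F₀, π₀, hF₀t, hF₀C, hF₀α, hF₀j⟩ := hFrb p κ f n D hcv hfr L c ⟨0, hcv.n_pos⟩
  obtain ⟨FR, hFR⟩ := hFrR p κ f n L c F₀ π₀ hF₀t hF₀C hF₀α
  haveI hfinG : Finite (L ≃ₐ[RatFunc κ] L) := inferInstance
  letI hft : Fintype (L ≃ₐ[RatFunc κ] L) := Fintype.ofFinite _
  have htau : ∀ τ : L ≃ₐ[RatFunc κ] L, τ (tL κ L) = tL κ L := fun τ => τ.commutes _
  have htauC : ∀ (τ : L ≃ₐ[RatFunc κ] L) (u : κ), τ (algebraMap κ L u) = algebraMap κ L u := by
    intro τ u
    rw [IsScalarTower.algebraMap_apply κ (RatFunc κ) L, τ.commutes]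
  have hact_t : ∀ τ, act τ c.tR = c.tR := fun τ => Subtype.ext (by
    rw [hact]; exact htau τ)
  have hact_mem : ∀ τ a (x : c.R), (x : L) ∈ c.S D a → (act τ x : L) ∈ c.S D a := by
    intro τ a x hx
    obtain ⟨π, hπ⟩ := hperm τ
    rw [hact]
    exact hφS (τ : L →+* L) π (htau τ) (fun u => ⟨u, htauC τ u⟩) hπ a x hx
  have hnorm : ∀ a (x : c.R), (x : L) ∈ c.S D a → x ≠ 0 → ∃ P : κ[X], P ≠ 0 ∧
      P.natDegree ≤ Fintype.card (L ≃ₐ[RatFunc κ] L) * a ∧
      aeval c.tR P = ∏ τ, act τ x := by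
    intro a x hx hx0
    have hcoe : ((∏ τ, act τ x : c.R) : L) = ∏ τ : L ≃ₐ[RatFunc κ] L, τ (x : L) := by
      have : ((∏ τ, act τ x : c.R) : L) = ∏ τ, (act τ x : L) :=
        map_prod c.R.val _ _
      rw [this]
      exact Finset.prod_congr rfl fun τ _ => hact τ x
    have hinv : ∀ σ : L ≃ₐ[RatFunc κ] L, σ ((∏ τ, act τ x : c.R) : L) =
        ((∏ τ, act τ x : c.R) : L) := by
      intro σ
      rw [hcoe, map_prod]
      exact Fintype.prod_equiv (Equiv.mulLeft σ) _ _ fun τ => rfl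
    obtain ⟨P, hP⟩ := hInv κ f n D hcv L c _ (∏ τ, act τ x : c.R).2 hinv
    have hPS : aeval (tL κ L) P ∈ c.S D (Fintype.card (L ≃ₐ[RatFunc κ] L) * a) := by
      rw [hP, hcoe, ← Finset.card_univ]
      refine prod_mem c D h1S hmul _ _ _ fun τ _ => ?_
      rw [← hact]
      exact hact_mem τ a x hx
    refine ⟨P, ?_, hSz κ f n D hcv L c P _ hPS, Subtype.ext (by rw [coe_aeval, hP])⟩
    rintro rfl
    rw [map_zero, hcoe, eq_comm, Finset.prod_eq_zero_iff] at hP
    obtain ⟨τ, -, hτ⟩ := hP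
    exact hx0 (Subtype.ext ((map_eq_zero τ).mp hτ))
  have hβR : ∀ τ, β τ ∈ c.R := fun τ => hSR _ _ (hβS τ)
  have hβind : ∀ q : (L ≃ₐ[RatFunc κ] L) → κ[X],
      ∑ τ, aeval c.tR (q τ) * (⟨β τ, hβR τ⟩ : c.R) = 0 → q = 0 := by
    intro q hq
    have h2 : ∑ τ, algebraMap κ[X] (RatFunc κ) (q τ) • β τ = 0 := by
      have h3 := congrArg c.R.val hq
      rw [map_sum, map_zero] at h3
      rw [← h3]
      refine Finset.sum_congr rfl fun τ _ => ?_
      rw [map_mul, Algebra.smul_def, ← aeval_tL]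
      congr 1
      exact (coe_aeval c (q τ)).symm
    have h4 := Fintype.linearIndependent_iff.mp hβi _ h2
    funext τ
    exact RatFunc.algebraMap_injective κ (by rw [h4 τ, Pi.zero_apply, map_zero])
  have hhat : ∀ ρ : c.R →ₐ[κ] κ, dl.eval (ρ c.tR) ≠ 0 →
      ∃ h : c.R →ₐ[κ] PowerSeries κ, IsHat c.tR dl δ ρ h := by
    intro ρ hρ
    obtain ⟨h₀, -, h₀t⟩ := hEmb κ f n D hcv L c dl hdl (ρ c.tR) hρ
    let cc : PowerSeries κ →ₐ[κ] κ :=
      { (PowerSeries.constantCoeff : PowerSeries κ →+* κ) with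
        commutes' := fun r => by
          change PowerSeries.constantCoeff (algebraMap κ (PowerSeries κ) r) = r
          exact PowerSeries.constantCoeff_C r }
    have hcc : ∀ y, cc y = PowerSeries.constantCoeff y := fun y => rfl
    have h3 : ρ c.tR = (cc.comp h₀) c.tR := by
      rw [AlgHom.comp_apply, h₀t, hcc]
      simp
    obtain ⟨τ, hτ⟩ := hTrn κ f n D hcv L c act hact (cc.comp h₀) ρ h3.symm
    have ht' : (h₀.comp (act τ).toAlgHom) c.tR =
        PowerSeries.C (ρ c.tR) + PowerSeries.X := by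
      change h₀ (act τ c.tR) = _
      rw [hact_t, h₀t]
    refine ⟨h₀.comp (act τ).toAlgHom, ht', ?_, ?_⟩
    · intro x
      rw [hτ]
      rfl
    · exact hHt κ f n L c dl hdl δ hδ (ρ c.tR) _ ht'
  refine ⟨c.R, inferInstance, inferInstance, L ≃ₐ[RatFunc κ] L, inferInstance, hft,
    { t := c.tR
      act := act
      S := fun a => (c.S D a).comap c.R.val.toLinearMap
      dl := dl
      D := δ
      F := FR
      β := fun τ => ⟨β τ, hβR τ⟩
      c := n * n * D
      one_mem := h1S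
      t_mem := htS
      mono := fun a b hab x hx => hmono a b hab hx
      mul_mem := fun a b x y hx hy => hmul a b _ _ hx hy
      act_t := hact_t
      act_mem := fun τ a x hx => hact_mem τ a x hx
      norm := fun a x hx hx0 => hnorm a x hx hx0
      dl_ne := hdl0
      dl_deg := hdldeg
      D_t := hδ.1
      D_mem := fun a x hx => hDm κ f n D hcv L c dl hdldeg δ hδ a x hx
      D_act := fun τ x => hDc κ f n D hcv L c act hact dl δ hδ τ x
      F_t := Subtype.ext (by rw [hFR]; exact hF₀t)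
      F_C := fun u => Subtype.ext (by rw [hFR]; exact hF₀C u)
      F_mem := fun a x hx => by
        have := hφS (F₀ : L →+* L) π₀ hF₀t (fun u => ⟨u ^ p, hF₀C u⟩) hF₀α a x hx
        change ((FR x : c.R) : L) ∈ c.S D a
        rw [hFR]
        exact this
      β_mem := fun τ => hβS τ
      β_ind := hβind
      trans := fun ρ ρ' _ h => hTrn κ f n D hcv L c act hact ρ ρ' h
      free := fun ρ τ hρ h => hFre κ f n D hcv L c act hact dl hdl ρ τ hρ h
      ex := fun u _ => hPl κ f n D hcv L c u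
      hat := hhat }, c.αR ⟨0, hcv.n_pos⟩, ?_, le_refl _, c.ev_rootR _, ?_⟩
  · rw [← Nat.card_eq_fintype_card]
    exact hcard
  · exact Subtype.ext (by rw [hFR]; exact hF₀j)

end MP7U
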