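import Pool.Agent.Lib.MP_7f581e_U.E.Spec2

/-! # C41 (MP_7f581e_nt), block E: DcE, the derivation commutes with the group -/

set_option autoImplicit false

namespace MP7U

open Polynomial

/-- **DcE.** -/
theorem eDcE (hGal : GalEStmt) : DcEStmt := by
  intro κ _ f n D hcv L _ _ _ _ c act hact dl δ hδ τ x
  obtain ⟨-, -, hperm, -, -, -⟩ := hGal κ f n D hcv L c
  obtain ⟨π, hπ⟩ := hperm τ
  have ht : (act τ).toAlgHom c.tR = c.tR := Subtype.ext (by
    change (act τ c.tR : L) = _
    rw [hact]; exact τ.commutes _)
  have hα : ∀ j, (act τ).toAlgHom (c.αR j) = c.αR (π j) := fun j => Subtype.ext (by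
    change (act τ (c.αR j) : L) = _
    rw [hact]; exact hπ j)
  have hev : ∀ (g : κ[X][X]) j, act τ (ev g c.tR (c.αR j)) = ev g c.tR (c.αR (π j)) := by
    intro g j
    have := map_ev (act τ).toAlgHom g c.tR (c.αR j)
    rw [ht, hα] at this
    exact this
  let B : Subalgebra κ c.R :=
    { carrier := {x | δ (act τ x) = act τ (δ x)}
      mul_mem' := fun {a b} ha hb => by
        simp only [Set.mem_ofPred_eq] at ha hb ⊢
        rw [map_mul, Derivation.leibniz, Derivation.leibniz, ha, hb, map_add, smul_eq_mul,
          smul_eq_mul, smul_eq_mul, smul_eq_mul, map_mul, map_mul]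
      add_mem' := fun {a b} ha hb => by
        simp only [Set.mem_ofPred_eq] at ha hb ⊢
        rw [map_add, map_add, ha, hb, map_add, map_add]
      algebraMap_mem' := fun r => by
        simp only [Set.mem_ofPred_eq]
        rw [Derivation.map_algebraMap, map_zero, AlgEquiv.commutes, Derivation.map_algebraMap] }
  refine c.eq_top B ?_ ?_ x
  · change δ (act τ c.tR) = act τ (δ c.tR)
    have h1 : act τ c.tR = c.tR := ht
    rw [h1, hδ.1]
    have h2 := aeval_algHom_apply (act τ).toAlgHom c.tR dl
    rw [ht] at h2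
    exact h2
  · intro j
    change δ (act τ (c.αR j)) = act τ (δ (c.αR j))
    have h1 : act τ (c.αR j) = c.αR (π j) := hα j
    rw [h1, hδ.2, hδ.2, map_neg, map_mul, hev, map_prod]
    congr 2
    symm
    exact Finset.prod_equiv π (by simp) (fun i _ => hev _ i)

end MP7U
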