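import Pool.Agent.Lib.MP_7f581e_U.E.Spec2

/-! # C41 (MP_7f581e_nt), block E: DerE, the derivation `dl(t) d/dt` -/

set_option autoImplicit false

namespace MP7U

open Polynomial

namespace DerEM

variable {κ : Type} [Field κ] {f : κ[X][X]} {n : ℕ} {L : Type} [Field L] [Algebra κ L]
  [Algebra (RatFunc κ) L] [IsScalarTower κ (RatFunc κ) L]

private theorem coe_aeval (c : Sp κ f n L) (P : κ[X]) :
    ((aeval c.tR P : c.R) : L) = aeval (tL κ L) P :=
  (aeval_algHom_apply c.R.val c.tR P).symm

private theorem isDlR (c : Sp κ f n L) (dl : κ[X]) (h : c.IsDl dl) :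
    aeval c.tR dl = ∏ j, ev (derivative f) c.tR (c.αR j) := by
  apply Subtype.ext
  rw [coe_aeval, h]
  have : ((∏ j, ev (derivative f) c.tR (c.αR j) : c.R) : L) =
      ∏ j, ((ev (derivative f) c.tR (c.αR j) : c.R) : L) := map_prod c.R.val _ _
  rw [this]
  exact Finset.prod_congr rfl fun j _ => (map_ev c.R.val (derivative f) c.tR (c.αR j)).symm

private theorem key (c : Sp κ f n L) (dl : κ[X]) (hdl : c.IsDl dl) (u : κ)
    (h : c.R →ₐ[κ] PowerSeries κ) (ht : h c.tR = PowerSeries.C u + PowerSeries.X) (j : Fin n) :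
    h (-(ev (dT f) c.tR (c.αR j) *
      ∏ i ∈ Finset.univ.erase j, ev (derivative f) c.tR (c.αR i))) =
      h (aeval c.tR dl) * PowerSeries.derivative κ (h (c.αR j)) := by
  have h1 : ev f (h c.tR) (h (c.αR j)) = 0 := by rw [← map_ev, c.ev_rootR, map_zero]
  have h2 := der_ev (PowerSeries.derivative κ) f (h c.tR) (h (c.αR j))
  rw [h1, map_zero, ht, map_add, PowerSeries.derivative_C, PowerSeries.derivative_X, zero_add,
    ← ht, smul_eq_mul, smul_eq_mul, mul_one, ← map_ev, ← map_ev] at h2
  have h3 : h (aeval c.tR dl) = h (ev (derivative f) c.tR (c.αR j)) *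
      h (∏ i ∈ Finset.univ.erase j, ev (derivative f) c.tR (c.αR i)) := by
    rw [isDlR c dl hdl, ← map_mul, Finset.mul_prod_erase Finset.univ
      (fun j => ev (derivative f) c.tR (c.αR j)) (Finset.mem_univ j)]
  rw [h3, map_neg, map_mul, ← neg_mul]
  have h4 : -h (ev (dT f) c.tR (c.αR j)) =
      h (ev (derivative f) c.tR (c.αR j)) * PowerSeries.derivative κ (h (c.αR j)) := by
    linear_combination h2
  rw [h4]
  ring

end DerEM

open DerEM in
/-- **DerE.** -/
theorem eDerE (hEmb : EmbEStmt) : DerEStmt := by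
  intro κ _ _ f n D hcv L _ _ _ _ c dl hdl hdl0
  obtain ⟨u, hu⟩ : ∃ u : κ, dl.eval u ≠ 0 := by
    by_contra hcon
    push Not at hcon
    exact hdl0 (Polynomial.funext fun u => by rw [hcon u, eval_zero])
  obtain ⟨h, hinj, ht⟩ := hEmb κ f n D hcv L c dl hdl u hu
  let B : Subalgebra κ c.R :=
    { carrier := {x | ∃ y, h y = h (aeval c.tR dl) * PowerSeries.derivative κ (h x)}
      mul_mem' := fun {a b} ha hb => by
        obtain ⟨y, hy⟩ := ha
        obtain ⟨z, hz⟩ := hb
        refine ⟨a * z + b * y, ?_⟩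
        rw [map_add, map_mul, map_mul, map_mul, hy, hz, Derivation.leibniz, smul_eq_mul,
          smul_eq_mul]
        ring
      add_mem' := fun {a b} ha hb => by
        obtain ⟨y, hy⟩ := ha
        obtain ⟨z, hz⟩ := hb
        refine ⟨y + z, ?_⟩
        rw [map_add, hy, hz, map_add, map_add, mul_add]
      algebraMap_mem' := fun r => ⟨0, by
        rw [map_zero, AlgHom.commutes, Derivation.map_algebraMap, mul_zero]⟩ }
  have htB : h (aeval c.tR dl) = h (aeval c.tR dl) * PowerSeries.derivative κ (h c.tR) := by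
    rw [ht, map_add, PowerSeries.derivative_C, PowerSeries.derivative_X, zero_add, mul_one]
  have hB : ∀ x : c.R, ∃ y, h y = h (aeval c.tR dl) * PowerSeries.derivative κ (h x) :=
    fun x => c.eq_top B ⟨_, htB⟩ (fun j => ⟨_, key c dl hdl u h ht j⟩) x
  choose g hg using hB
  let gl : c.R →ₗ[κ] c.R :=
    { toFun := g
      map_add' := fun x y => hinj (by
        rw [hg, map_add, map_add, map_add, hg, hg, mul_add])
      map_smul' := fun r x => hinj (by
        have h5 : h (g (r • x)) = r • h (g x) := by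
          rw [hg, hg, map_smul h, Derivation.map_smul, mul_smul_comm]
        rw [RingHom.id_apply, h5, map_smul h]) }
  refine ⟨Derivation.mk' gl fun x y => hinj (by
    change h (g (x * y)) = h (x • g y + y • g x)
    rw [hg, map_mul, Derivation.leibniz, map_add, smul_eq_mul, smul_eq_mul, smul_eq_mul,
      smul_eq_mul, map_mul, map_mul, hg, hg]
    ring), ?_, ?_⟩
  · exact hinj (by
      change h (g c.tR) = _
      rw [hg, ← htB])
  · intro j
    exact hinj (by
      change h (g (c.αR j)) = _
      rw [hg, key c dl hdl u h ht j])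

end MP7U
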