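import Pool.Agent.Lib.MP_7f581e_U.E.HlpS

/-!
# C41, Block E: DimE (helper6, after helper93's docstring)
-/

set_option autoImplicit false

namespace MP7U

open Polynomial

theorem eDimE (hS : SmlStmt) : DimEStmt := by
  intro p _ κ _ _ _ R _ _ G _ _ s a
  obtain ⟨ρ, h, _, hh⟩ := HlpS.ex_hat s
  set N := Fintype.card G * a + 1 with hN
  let φ : s.S a →ₗ[κ] (Fin N → κ) := LinearMap.pi fun i =>
    (PowerSeries.coeff (R := κ) (i : ℕ)).comp (h.toLinearMap.comp (s.S a).subtype)
  have hφ : Function.Injective φ := by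
    rw [injective_iff_map_eq_zero]
    intro x hx
    by_contra hx0
    have h1 : (x : R) ≠ 0 := fun h0 => hx0 (Subtype.ext h0)
    refine hS p κ R G s ρ h hh a x x.2 h1 ?_
    rw [PowerSeries.X_pow_dvd_iff]
    intro m hm
    exact congrFun hx ⟨m, hm⟩
  have hfin : Module.Finite κ (s.S a) := Module.Finite.of_injective φ hφ
  refine ⟨hfin, ?_⟩
  have h2 := LinearMap.finrank_le_finrank_of_injective hφ
  rwa [Module.finrank_fin_fun] at h2

end MP7U
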