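import Pool.Agent.Lib.MP_7f581e_U.E.Spec1

/-! # C41 (MP_7f581e_nt), block E: DkP, the operators `dl(t)^k (d/dt)^k` -/

set_option autoImplicit false

namespace MP7U

open Polynomial

namespace DkPM

variable {p : ℕ} {κ : Type} [Field κ] {R : Type} [CommRing R] [Algebra κ R] {G : Type}
  [Group G] [Fintype G] (s : St p κ R G)

private theorem t_pow_mem (i : ℕ) : s.t ^ i ∈ s.S i := by
  induction i with
  | zero => rw [pow_zero]; exact s.one_mem
  | succ i ih => rw [pow_succ]; exact s.mul_mem i 1 _ _ ih s.t_mem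

private theorem aeval_mem (P : κ[X]) (c : ℕ) (h : P.natDegree ≤ c) : aeval s.t P ∈ s.S c := by
  rw [aeval_eq_sum_range]
  refine Submodule.sum_mem _ fun i hi => Submodule.smul_mem _ _ ?_
  exact s.mono i c (by rw [Finset.mem_range] at hi; omega) (t_pow_mem s i)

private theorem one (k a : ℕ) (x : R) (hx : x ∈ s.S a) : s.dk k x ∈ s.S (a + k * s.c) := by
  induction k with
  | zero => simpa using hx
  | succ k ih =>
    rw [s.dk_succ]
    have h1 : a + (k + 1) * s.c = a + k * s.c + s.c := by ring
    rw [h1]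
    refine Submodule.sub_mem _ (s.D_mem _ _ ih) (Submodule.smul_mem _ _ ?_)
    rw [add_comm]
    refine s.mul_mem _ _ _ _ (aeval_mem s _ _ ?_) ih
    exact (natDegree_derivative_le _).trans ((Nat.sub_le _ _).trans s.dl_deg)

private theorem two [Fact p.Prime] [CharP κ p] (k : ℕ) (x y : R) :
    s.dk k (x * y ^ p) = s.dk k x * y ^ p := by
  have hp : (p : R) = 0 := by
    rw [← map_natCast (algebraMap κ R), CharP.cast_eq_zero, map_zero]
  have hD : s.D (y ^ p) = 0 := by
    rw [Derivation.leibniz_pow, ← Nat.cast_smul_eq_nsmul R, hp, zero_smul]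
  induction k with
  | zero => rfl
  | succ k ih =>
    rw [s.dk_succ, s.dk_succ, ih, Derivation.leibniz, hD, smul_zero, zero_add, sub_mul,
      smul_eq_mul, smul_mul_assoc, mul_assoc, mul_comm (y ^ p)]

private theorem three (ρ : R →ₐ[κ] κ) (h : R →ₐ[κ] PowerSeries κ) (hh : s.Hat ρ h) (k : ℕ)
    (x : R) :
    h (s.dk k x) = h (aeval s.t s.dl) ^ k * (PowerSeries.derivative κ)^[k] (h x) := by
  have hd : ∀ P : κ[X], PowerSeries.derivative κ (h (aeval s.t P)) =
      h (aeval s.t (derivative P)) := by
    intro P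
    rw [← aeval_algHom_apply, Derivation.map_aeval, hh.map_t, map_add,
      PowerSeries.derivative_C, PowerSeries.derivative_X, zero_add, smul_eq_mul, mul_one,
      ← hh.map_t, aeval_algHom_apply]
  induction k with
  | zero => simp
  | succ k ih =>
    rw [s.dk_succ, map_sub, hh.der, ih, Derivation.leibniz, Function.iterate_succ_apply',
      Derivation.leibniz_pow, hd, map_smul, map_mul, ih]
    have hk : ((k : κ) • (h (aeval s.t (derivative s.dl)) *
        (h (aeval s.t s.dl) ^ k * (PowerSeries.derivative κ)^[k] (h x))) : PowerSeries κ) =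
        (k : PowerSeries κ) * (h (aeval s.t (derivative s.dl)) *
        (h (aeval s.t s.dl) ^ k * (PowerSeries.derivative κ)^[k] (h x))) := by
      rw [Algebra.smul_def, map_natCast]
    rw [hk]
    simp only [smul_eq_mul, nsmul_eq_mul]
    rcases k with _ | k
    · simp
    · rw [Nat.add_sub_cancel, pow_succ (h (aeval s.t s.dl)) (k + 1),
        pow_succ (h (aeval s.t s.dl)) k]
      ring

end DkPM

/-- **DkP.** -/
theorem eDkP : DkPStmt := by
  intro p _ κ _ _ R _ _ G _ _ s
  exact ⟨fun k a x hx => DkPM.one s k a x hx, fun k x y => DkPM.two s k x y,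
    fun ρ h hh k x => DkPM.three s ρ h hh k x⟩

end MP7U
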