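import Pool.Agent.Lib.MP_7f581e_U.E.Spec2

/-!
# C41, Block E2: DlE (helper6, after helper93's docstring)
-/

set_option autoImplicit false

namespace MP7U

open Polynomial

namespace DlEM

theorem ev_ne {κ : Type} [Field κ] {f : κ[X][X]} {n : ℕ} {L : Type} [Field L] [Algebra κ L]
    [Algebra (RatFunc κ) L] (c : Sp κ f n L) (j : Fin n) :
    ev (derivative f) (tL κ L) (c.α j) ≠ 0 := by
  rw [ev_eq_eval_map, ← derivative_map, c.prod]
  have hs : (∏ i, (X - C (c.α i))).Separable := separable_prod_X_sub_C_iff.2 c.inj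
  have h0 : aeval (c.α j) (∏ i, (X - C (c.α i))) = 0 := by
    rw [coe_aeval_eq_eval, eval_prod]
    exact Finset.prod_eq_zero (Finset.mem_univ j) (by simp)
  have h1 := hs.aeval_derivative_ne_zero h0
  rwa [coe_aeval_eq_eval] at h1

end DlEM

open DlEM in
theorem eDlE (hG : GalEStmt) (hF : FilEStmt) (hEv : EvsEStmt) (hI : InvEStmt) (hS : SzEStmt) :
    DlEStmt := by
  intro κ _ f n D hf L _ _ _ _ c
  obtain ⟨_, _, hperm, _, _, _⟩ := hG κ f n D hf L c
  obtain ⟨h1, ht, hα, hmono, hmul, hR, _, _⟩ := hF κ f n D L c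
  obtain ⟨_, hev, _⟩ := hEv κ f n D hf L c
  set x := ∏ j, ev (derivative f) (tL κ L) (c.α j) with hx
  have hprod : ∀ s : Finset (Fin n), ∏ j ∈ s, ev (derivative f) (tL κ L) (c.α j)
      ∈ c.S D (s.card * (n * D)) := by
    classical
    intro s
    induction s using Finset.induction_on with
    | empty => simpa using h1
    | insert j s hj ih =>
      rw [Finset.prod_insert hj, Finset.card_insert_of_notMem hj]
      have := hmul _ _ _ _ (hev j) ih
      have e1 : (s.card + 1) * (n * D) = n * D + s.card * (n * D) := by ring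
      rw [e1]
      exact this
  have hxS : x ∈ c.S D (n * n * D) := by
    have := hprod Finset.univ
    rw [Finset.card_univ, Fintype.card_fin, ← mul_assoc] at this
    exact this
  have hfix : ∀ τ : L ≃ₐ[RatFunc κ] L, τ x = x := by
    intro τ
    obtain ⟨π, hπ⟩ := hperm τ
    have h2 : ∀ j, τ (ev (derivative f) (tL κ L) (c.α j))
        = ev (derivative f) (tL κ L) (c.α (π j)) := by
      intro j
      have h3 := map_ev (τ.toAlgHom.restrictScalars κ) (derivative f) (tL κ L) (c.α j)
      have h4 : (τ.toAlgHom.restrictScalars κ) (tL κ L) = tL κ L := τ.commutes _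
      have h5 : (τ.toAlgHom.restrictScalars κ) (c.α j) = c.α (π j) := hπ j
      rw [h4, h5] at h3
      exact h3
    rw [hx, map_prod]
    simp only [h2]
    exact Equiv.prod_comp π (fun j => ev (derivative f) (tL κ L) (c.α j))
  obtain ⟨dl, hdl⟩ := hI κ f n D hf L c x (hR _ _ hxS) hfix
  refine ⟨dl, hdl, ?_, hS κ f n D hf L c dl _ (by rw [hdl]; exact hxS)⟩
  rintro rfl
  rw [map_zero] at hdl
  exact Finset.prod_ne_zero_iff.2 (fun j _ => ev_ne c j) hdl.symm

end MP7U
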