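import Pool.Agent.Lib.MP_7f581e_U.E.Spec2

/-! # C41 (MP_7f581e_nt), block E: DmE, the derivation and the filtration -/

set_option autoImplicit false

namespace MP7U

open Polynomial

namespace DmEM

variable {κ : Type} [Field κ] {f : κ[X][X]} {n : ℕ} {L : Type} [Field L] [Algebra κ L]
  [Algebra (RatFunc κ) L]

/-- The elements of size `a` whose derivative has size at most `a + m`. -/
private def T (c : Sp κ f n L) (D : ℕ) (δ : Derivation κ c.R c.R) (m a : ℕ) (x : c.R) : Prop :=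
  (x : L) ∈ c.S D a ∧ (δ x : L) ∈ c.S D (a + m)

private theorem T_one (c : Sp κ f n L) (D : ℕ) (δ : Derivation κ c.R c.R) (m : ℕ)
    (h1 : (1 : L) ∈ c.S D 0) : T c D δ m 0 1 := by
  refine ⟨h1, ?_⟩
  rw [Derivation.map_one_eq_zero]
  exact Submodule.zero_mem _

private theorem T_mul (c : Sp κ f n L) (D : ℕ) (δ : Derivation κ c.R c.R) (m : ℕ)
    (hmul : ∀ a b x y, x ∈ c.S D a → y ∈ c.S D b → x * y ∈ c.S D (a + b))
    (a b : ℕ) (x y : c.R) (hx : T c D δ m a x) (hy : T c D δ m b y) :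
    T c D δ m (a + b) (x * y) := by
  refine ⟨hmul _ _ _ _ hx.1 hy.1, ?_⟩
  rw [Derivation.leibniz, smul_eq_mul, smul_eq_mul]
  have h2 : (x : L) * (δ y : L) ∈ c.S D (a + b + m) := by
    rw [add_assoc]; exact hmul _ _ _ _ hx.1 hy.2
  have h3 : (y : L) * (δ x : L) ∈ c.S D (a + b + m) := by
    rw [add_comm a b, add_assoc]; exact hmul _ _ _ _ hy.1 hx.2
  exact Submodule.add_mem _ h2 h3

private theorem T_pow (c : Sp κ f n L) (D : ℕ) (δ : Derivation κ c.R c.R) (m : ℕ)
    (h1 : (1 : L) ∈ c.S D 0)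
    (hmul : ∀ a b x y, x ∈ c.S D a → y ∈ c.S D b → x * y ∈ c.S D (a + b))
    (a : ℕ) (x : c.R) (hx : T c D δ m a x) (k : ℕ) : T c D δ m (a * k) (x ^ k) := by
  induction k with
  | zero => simpa using T_one c D δ m h1
  | succ k ih =>
    rw [pow_succ, mul_add, mul_one]
    exact T_mul c D δ m hmul _ _ _ _ ih hx

private theorem T_prod (c : Sp κ f n L) (D : ℕ) (δ : Derivation κ c.R c.R) (m : ℕ)
    (h1 : (1 : L) ∈ c.S D 0)
    (hmul : ∀ a b x y, x ∈ c.S D a → y ∈ c.S D b → x * y ∈ c.S D (a + b))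
    {ι : Type} (s : Finset ι) (a : ι → ℕ) (x : ι → c.R) (hx : ∀ i, T c D δ m (a i) (x i)) :
    T c D δ m (∑ i ∈ s, a i) (∏ i ∈ s, x i) := by
  classical
  induction s using Finset.induction_on with
  | empty => simpa using T_one c D δ m h1
  | insert i s hi ih =>
    rw [Finset.prod_insert hi, Finset.sum_insert hi]
    exact T_mul c D δ m hmul _ _ _ _ (hx i) ih

private theorem prod_mem (c : Sp κ f n L) (D : ℕ) (h1 : (1 : L) ∈ c.S D 0)
    (hmul : ∀ a b x y, x ∈ c.S D a → y ∈ c.S D b → x * y ∈ c.S D (a + b))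
    {ι : Type} (s : Finset ι) (g : ι → L) (a : ℕ) (hg : ∀ i ∈ s, g i ∈ c.S D a) :
    ∏ i ∈ s, g i ∈ c.S D (s.card * a) := by
  classical
  induction s using Finset.induction_on with
  | empty => simpa using h1
  | insert i s hi ih =>
    rw [Finset.prod_insert hi, Finset.card_insert_of_notMem hi]
    have h2 : (s.card + 1) * a = a + s.card * a := by ring
    rw [h2]
    exact hmul _ _ _ _ (hg i (Finset.mem_insert_self _ _))
      (ih fun j hj => hg j (Finset.mem_insert_of_mem hj))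

end DmEM

open DmEM in
/-- **DmE.** -/
theorem eDmE (hFil : FilEStmt) (hEvs : EvsEStmt) : DmEStmt := by
  intro κ _ f n D hcv L _ _ _ _ c dl hdl δ hδ a x hx
  obtain ⟨h1, htS, hαS, hmono, hmul, hSR, -, -⟩ := hFil κ f n D L c
  obtain ⟨hevP, hevf, hevT⟩ := hEvs κ f n D hcv L c
  set m := n * n * D with hm
  have hTt : T c D δ m 1 c.tR := by
    refine ⟨htS, ?_⟩
    rw [hδ.1]
    have h2 : ((aeval c.tR dl : c.R) : L) = aeval (tL κ L) dl :=
      (aeval_algHom_apply c.R.val c.tR dl).symm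
    rw [h2]
    exact hmono m (1 + m) (by omega) (hevP dl m hdl)
  have hTα : ∀ j, T c D δ m D (c.αR j) := by
    intro j
    refine ⟨hαS j, ?_⟩
    rw [hδ.2]
    have h2 : c.R.val (-(ev (dT f) c.tR (c.αR j) *
        ∏ i ∈ Finset.univ.erase j, ev (derivative f) c.tR (c.αR i))) =
        -(ev (dT f) (tL κ L) (c.α j) *
          ∏ i ∈ Finset.univ.erase j, ev (derivative f) (tL κ L) (c.α i)) := by
      have h3 : ∀ (g : κ[X][X]) i, c.R.val (ev g c.tR (c.αR i)) =
          ev g (tL κ L) (c.α i) := fun g i => map_ev c.R.val g c.tR (c.αR i)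
      rw [map_neg, map_mul, map_prod, h3]
      simp only [h3]
    have h2' : ((-(ev (dT f) c.tR (c.αR j) *
        ∏ i ∈ Finset.univ.erase j, ev (derivative f) c.tR (c.αR i)) : c.R) : L) =
        -(ev (dT f) (tL κ L) (c.α j) *
          ∏ i ∈ Finset.univ.erase j, ev (derivative f) (tL κ L) (c.α i)) := h2
    rw [h2']
    refine Submodule.neg_mem _ ?_
    have h4 := prod_mem c D h1 hmul (Finset.univ.erase j)
      (fun i => ev (derivative f) (tL κ L) (c.α i)) (n * D) (fun i _ => hevf i)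
    rw [Finset.card_erase_of_mem (Finset.mem_univ j), Finset.card_univ, Fintype.card_fin] at h4
    have h5 := hmul _ _ _ _ (hevT j) h4
    have h6 : n * D + (n - 1) * (n * D) = m := by
      obtain ⟨k, hk⟩ : ∃ k, n = k + 1 := ⟨n - 1, by have := hcv.n_pos; omega⟩
      rw [hm, hk, Nat.add_sub_cancel]
      ring
    rw [h6] at h5
    exact hmono m (D + m) (by omega) h5
  have hmon : ∀ (i : ℕ) (e : Fin n → ℕ), T c D δ m (i + D * ∑ j, e j)
      (c.tR ^ i * ∏ j, c.αR j ^ e j) := by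
    intro i e
    refine T_mul c D δ m hmul _ _ _ _ ?_ ?_
    · have := T_pow c D δ m h1 hmul 1 c.tR hTt i
      rwa [one_mul] at this
    · rw [Finset.mul_sum]
      exact T_prod c D δ m h1 hmul Finset.univ _ _
        fun j => T_pow c D δ m h1 hmul D _ (hTα j) (e j)
  have hmain : ∀ y ∈ c.S D a, ∀ hy : y ∈ c.R, (δ ⟨y, hy⟩ : L) ∈ c.S D (a + m) := by
    intro y hy
    unfold Sp.S at hy
    induction hy using Submodule.span_induction with
    | mem y hy =>
      obtain ⟨i, e, hie, rfl⟩ := hy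
      intro hyR
      have h2 : (⟨tL κ L ^ i * ∏ j, c.α j ^ e j, hyR⟩ : c.R) =
          c.tR ^ i * ∏ j, c.αR j ^ e j := by
        have h3 : c.R.val (c.tR ^ i * ∏ j, c.αR j ^ e j) =
            tL κ L ^ i * ∏ j, c.α j ^ e j := by
          rw [map_mul, map_pow, map_prod]
          simp
        exact Subtype.ext h3.symm
      rw [h2]
      exact hmono _ _ (by omega) (hmon i e).2
    | zero =>
      intro hyR
      have h2 : (⟨0, hyR⟩ : c.R) = 0 := rfl
      rw [h2, map_zero]
      exact Submodule.zero_mem _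
    | add y z hy hz ihy ihz =>
      intro hyR
      have h2 : (⟨y + z, hyR⟩ : c.R) = ⟨y, hSR a y hy⟩ + ⟨z, hSR a z hz⟩ := rfl
      rw [h2, map_add]
      exact Submodule.add_mem _ (ihy _) (ihz _)
    | smul r y hy ihy =>
      intro hyR
      have h2 : (⟨r • y, hyR⟩ : c.R) = r • ⟨y, hSR a y hy⟩ := rfl
      rw [h2, Derivation.map_smul]
      exact Submodule.smul_mem _ _ (ihy _)
  exact hmain x hx x.2

end MP7U
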