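import Pool.Agent.Lib.MP_7f581e_U.E.Spec2

/-!
# C41 (MP_7f581e_nt), Block E: `EmbEStmt`
-/

set_option autoImplicit false
set_option linter.unusedSectionVars false

namespace MP7U

open Polynomial

namespace EmbEM

variable {κ : Type} [Field κ]

/-- `aeval (C u + X)` is injective -/
theorem aeval_inj (u : κ) : Function.Injective
    (aeval (PowerSeries.C u + PowerSeries.X : PowerSeries κ) : κ[X] →ₐ[κ] PowerSeries κ) := by
  have h1 : ∀ P : κ[X], aeval (PowerSeries.C u + PowerSeries.X : PowerSeries κ) P =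
      ((P.comp (X + C u) : κ[X]) : PowerSeries κ) := by
    intro P
    have h2 : (aeval (PowerSeries.C u + PowerSeries.X : PowerSeries κ) :
        κ[X] →ₐ[κ] PowerSeries κ).toRingHom =
        (Polynomial.coeToPowerSeries.ringHom (R := κ)).comp (compRingHom (X + C u)) := by
      apply ringHom_ext
      · intro a
        simp
      · simp [add_comm]
    exact congrArg (fun g => g P) h2
  rw [injective_iff_map_eq_zero]
  intro P hP
  rw [h1] at hP
  have h3 : (P.comp (X + C u) : κ[X]) = 0 := by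
    apply Polynomial.coe_injective
    simpa using hP
  rwa [comp_X_add_C_eq_zero_iff] at h3

section

variable (Λ : Type) [Field Λ] [Algebra (PowerSeries κ) Λ] [IsFractionRing (PowerSeries κ) Λ]

theorem ι_inj : Function.Injective (algebraMap (PowerSeries κ) Λ) :=
  IsFractionRing.injective _ _

/-- the map from polynomials -/
noncomputable def g (u : κ) : κ[X] →+* Λ :=
  (algebraMap (PowerSeries κ) Λ).comp
    (aeval (PowerSeries.C u + PowerSeries.X : PowerSeries κ) :
      κ[X] →ₐ[κ] PowerSeries κ).toRingHom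

theorem g_inj (u : κ) : Function.Injective (g Λ u) := (ι_inj Λ).comp (aeval_inj u)

/-- the map from the rational functions -/
noncomputable def ψ (u : κ) : RatFunc κ →+* Λ := IsFractionRing.lift (g_inj Λ u)

theorem ψ_alg (u : κ) (P : κ[X]) : ψ Λ u (algebraMap κ[X] (RatFunc κ) P) = g Λ u P :=
  IsFractionRing.lift_algebraMap (g_inj Λ u) P

end

theorem main {f : κ[X][X]} {n D : ℕ} (hf : IsCv κ f n D) {L : Type} [Field L] [Algebra κ L]
    [Algebra (RatFunc κ) L] [IsScalarTower κ (RatFunc κ) L] [FiniteDimensional (RatFunc κ) L]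
    (c : Sp κ f n L) (u : κ) (Y : Fin n → PowerSeries κ)
    (Λ : Type) [Field Λ] [Algebra (PowerSeries κ) Λ] [IsFractionRing (PowerSeries κ) Λ]
    [Algebra κ Λ] [IsScalarTower κ (PowerSeries κ) Λ]
    (hY : f.map (aeval (PowerSeries.C u + PowerSeries.X : PowerSeries κ) :
        κ[X] →ₐ[κ] PowerSeries κ).toRingHom = ∏ j, (X - C (Y j))) :
    ∃ h : c.R →ₐ[κ] PowerSeries κ, Function.Injective h ∧
      h c.tR = PowerSeries.C u + PowerSeries.X := by
  let alg : Algebra (RatFunc κ) Λ := (ψ Λ u).toAlgebra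
  have hψ : algebraMap (RatFunc κ) Λ = ψ Λ u := rfl
  have hfψ : (f.map (algebraMap κ[X] (RatFunc κ))).map (ψ Λ u) =
      ∏ j, (X - C (algebraMap (PowerSeries κ) Λ (Y j))) := by
    rw [Polynomial.map_map]
    have h1 : (ψ Λ u).comp (algebraMap κ[X] (RatFunc κ)) = g Λ u :=
      RingHom.ext fun P => ψ_alg Λ u P
    rw [h1, g, ← Polynomial.map_map, hY, Polynomial.map_prod]
    refine Finset.prod_congr rfl fun j _ => ?_
    rw [Polynomial.map_sub, map_X, map_C]
  have hα : ∀ j, aeval (c.α j) (f.map (algebraMap κ[X] (RatFunc κ))) = 0 := by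
    intro j
    rw [aeval_def, ← eval_map, Polynomial.map_map]
    have h1 : (algebraMap (RatFunc κ) L).comp (algebraMap κ[X] (RatFunc κ)) =
        (aeval (tL κ L) : κ[X] →ₐ[κ] L).toRingHom :=
      RingHom.ext fun P => (aeval_tL κ L P).symm
    rw [h1, c.prod, eval_prod]
    exact Finset.prod_eq_zero (Finset.mem_univ j) (by simp)
  have hsp : ∀ s ∈ Set.range c.α, IsIntegral (RatFunc κ) s ∧
      ((minpoly (RatFunc κ) s).map (algebraMap (RatFunc κ) Λ)).Splits := by
    rintro _ ⟨j, rfl⟩
    refine ⟨Algebra.IsIntegral.isIntegral _, ?_⟩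
    have h1 := minpoly.dvd (RatFunc κ) _ (hα j)
    have h2 : (minpoly (RatFunc κ) (c.α j)).map (ψ Λ u) ∣
        ∏ j, (X - C (algebraMap (PowerSeries κ) Λ (Y j))) := by
      rw [← hfψ]
      exact Polynomial.map_dvd (ψ Λ u) h1
    refine Splits.of_dvd ?_ ?_ h2
    · exact Splits.prod fun j _ => Splits.X_sub_C _
    · exact (monic_prod_of_monic _ _ fun j _ => monic_X_sub_C _).ne_zero
  obtain ⟨h'⟩ := IntermediateField.nonempty_algHom_of_adjoin_splits hsp c.gen
  have hK : ∀ z : RatFunc κ, h' (algebraMap (RatFunc κ) L z) = ψ Λ u z := fun z => h'.commutes z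
  have ht : h' (tL κ L) =
      algebraMap (PowerSeries κ) Λ (PowerSeries.C u + PowerSeries.X) := by
    rw [tL, hK, ← RatFunc.algebraMap_X, ψ_alg]
    simp [g]
  have hκ : ∀ a : κ, h' (algebraMap κ L a) = algebraMap κ Λ a := by
    intro a
    rw [IsScalarTower.algebraMap_apply κ (RatFunc κ) L, hK, RatFunc.algebraMap_eq_C,
      ← RatFunc.algebraMap_C, ψ_alg]
    simp only [g, RingHom.comp_apply]
    rw [IsScalarTower.algebraMap_apply κ (PowerSeries κ) Λ]
    congr 1
    exact aeval_C _ a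
  have hαY : ∀ j, ∃ i, h' (c.α j) = algebraMap (PowerSeries κ) Λ (Y i) := by
    intro j
    have h1 := congrArg h' (hα j)
    rw [map_zero, ← aeval_algHom_apply, aeval_def, ← eval_map] at h1
    have h2 : (f.map (algebraMap κ[X] (RatFunc κ))).map (algebraMap (RatFunc κ) Λ) =
      ∏ j, (X - C (algebraMap (PowerSeries κ) Λ (Y j))) := hfψ
    rw [h2, eval_prod, Finset.prod_eq_zero_iff] at h1
    obtain ⟨i, _, hi⟩ := h1
    refine ⟨i, ?_⟩
    simpa [sub_eq_zero] using hi
  let H : L →ₐ[κ] Λ := { (h' : L →+* Λ) with commutes' := hκ }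
  have hH : ∀ x, H x = h' x := fun _ => rfl
  have hHinj : Function.Injective H := (H : L →+* Λ).injective
  let ιA : PowerSeries κ →ₐ[κ] Λ := IsScalarTower.toAlgHom κ (PowerSeries κ) Λ
  have hιA : ∀ x, ιA x = algebraMap (PowerSeries κ) Λ x := fun _ => rfl
  have hιinj : Function.Injective ιA := ι_inj Λ
  let HR : c.R →ₐ[κ] Λ := H.comp c.R.val
  have hmem : ∀ x : c.R, HR x ∈ ιA.range := by
    intro x
    refine c.eq_top (ιA.range.comap HR) ?_ ?_ x
    · exact ⟨PowerSeries.C u + PowerSeries.X, ht.symm⟩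
    · intro j
      obtain ⟨i, hi⟩ := hαY j
      exact ⟨Y i, hi.symm⟩
  refine ⟨(AlgEquiv.ofInjective ιA hιinj).symm.toAlgHom.comp (HR.codRestrict ιA.range hmem),
    ?_, ?_⟩
  · intro x y hxy
    have h1 : HR.codRestrict ιA.range hmem x = HR.codRestrict ιA.range hmem y :=
      (AlgEquiv.ofInjective ιA hιinj).symm.injective hxy
    have h2 : HR x = HR y := congrArg Subtype.val h1
    exact Subtype.val_injective (hHinj h2)
  · apply hιinj
    have h1 : ∀ z : ιA.range, ιA ((AlgEquiv.ofInjective ιA hιinj).symm z) = z := by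
      intro z
      have := congrArg Subtype.val ((AlgEquiv.ofInjective ιA hιinj).apply_symm_apply z)
      exact this
    rw [AlgHom.comp_apply]
    show ιA ((AlgEquiv.ofInjective ιA hιinj).symm _) = _
    rw [h1]
    exact ht

end EmbEM

open EmbEM in
theorem eEmbE (hG : GalEStmt) (hH : HnsEStmt) : EmbEStmt := by
  intro κ _ _ f n D hf L _ _ _ _ c dl hdl u hu
  obtain ⟨Y, _, hY⟩ := hH κ f n D hf L c dl hdl u hu
  have := (hG κ f n D hf L c).1
  exact main hf c u Y (FractionRing (PowerSeries κ)) hY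

end MP7U
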