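import Pool.Agent.Lib.MP_7f581e_U.E.Spec2

/-!
# C41, Block E2: EvsE (helper6, after helper93's docstring)
-/

set_option autoImplicit false

namespace MP7U

open Polynomial

namespace EvsEM

theorem coeff_dT {κ : Type} [Field κ] (f : κ[X][X]) (j : ℕ) :
    (dT f).coeff j = derivative (f.coeff j) := by
  unfold dT
  rw [sum_def, finset_sum_coeff]
  simp only [coeff_monomial]
  rw [Finset.sum_ite_eq' f.support j]
  split_ifs with h
  · rfl
  · rw [notMem_support_iff.1 h, map_zero]

end EvsEM

open EvsEM in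
theorem eEvsE (hFil : FilEStmt) : EvsEStmt := by
  intro κ _ f n D hf L _ _ _ _ c
  obtain ⟨h1, ht, hα, hmono, hmul, _, _, _⟩ := hFil κ f n D L c
  have hpow : ∀ (b : ℕ) (x : L), x ∈ c.S D b → ∀ k : ℕ, x ^ k ∈ c.S D (k * b) := by
    intro b x hx k
    induction k with
    | zero => rw [pow_zero, zero_mul]; exact h1
    | succ k ih =>
      rw [pow_succ, Nat.succ_mul]
      exact hmul _ _ _ _ ih hx
  have hP : ∀ (P : κ[X]) a, P.natDegree ≤ a → aeval (tL κ L) P ∈ c.S D a := by
    intro P a hPa
    rw [aeval_eq_sum_range]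
    refine Submodule.sum_mem _ fun i hi => Submodule.smul_mem _ _ ?_
    have h2 := hpow 1 _ ht i
    rw [mul_one] at h2
    exact hmono _ _ (by have := Finset.mem_range.1 hi; omega) h2
  -- polynomials of degree less than n in the second variable
  have hev : ∀ (g : κ[X][X]), (∀ i, (g.coeff i).natDegree ≤ D) → (∀ i, n ≤ i → g.coeff i = 0) →
      ∀ j, ev g (tL κ L) (c.α j) ∈ c.S D (n * D) := by
    intro g hg hg0 j
    rw [ev_eq_sum]
    refine Submodule.sum_mem _ fun i _ => ?_
    by_cases hi : n ≤ i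
    · rw [hg0 i hi, map_zero, zero_mul]
      exact zero_mem _
    · have h2 := hmul D (i * D) _ _ (hP _ _ (hg i)) (hpow D _ (hα j) i)
      refine hmono _ _ ?_ h2
      have h3 : (i + 1) * D ≤ n * D := Nat.mul_le_mul_right _ (by omega)
      nlinarith
  refine ⟨hP, hev _ ?_ ?_, hev _ ?_ ?_⟩
  · intro i
    rw [coeff_derivative]
    refine natDegree_mul_le.trans ?_
    have h2 : ((i : κ[X]) + 1).natDegree = 0 := by
      have h3 : ((i : κ[X]) + 1) = ((i + 1 : ℕ) : κ[X]) := by push_cast; rfl
      rw [h3, natDegree_natCast]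
    rw [h2, add_zero]
    exact hf.coeff_deg _
  · intro i hi
    rw [coeff_derivative, coeff_eq_zero_of_natDegree_lt (by rw [hf.deg]; omega), zero_mul]
  · intro i
    rw [coeff_dT]
    exact (natDegree_derivative_le _).trans ((Nat.sub_le _ _).trans (hf.coeff_deg i))
  · intro i hi
    rw [coeff_dT]
    rcases Nat.lt_or_ge n i with h | h
    · rw [coeff_eq_zero_of_natDegree_lt (by rw [hf.deg]; exact h), map_zero]
    · have h2 : i = f.natDegree := by rw [hf.deg]; omega
      rw [h2, hf.monic.coeff_natDegree, derivative_one]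

end MP7U
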