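import Pool.Agent.Lib.MP_7f581e_U.E.Spec2

/-!
# C41, Block E2: FilE (helper6, after helper93's docstring)
-/

set_option autoImplicit false

namespace MP7U

open Polynomial

namespace FilEM

variable {κ : Type} [Field κ] {f : κ[X][X]} {n D : ℕ} {L : Type} [Field L] [Algebra κ L]
  [Algebra (RatFunc κ) L]

theorem mono (c : Sp κ f n L) {a b : ℕ} (hab : a ≤ b) : c.S D a ≤ c.S D b := by
  unfold Sp.S
  refine Submodule.span_mono ?_
  rintro x ⟨i, e, h, rfl⟩
  exact ⟨i, e, h.trans hab, rfl⟩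

theorem mon_mem (c : Sp κ f n L) {a : ℕ} (i : ℕ) (e : Fin n → ℕ) (h : i + D * ∑ j, e j ≤ a) :
    tL κ L ^ i * ∏ j, c.α j ^ e j ∈ c.S D a := Submodule.subset_span ⟨i, e, h, rfl⟩

theorem mul (c : Sp κ f n L) {a b : ℕ} {x y : L} (hx : x ∈ c.S D a) (hy : y ∈ c.S D b) :
    x * y ∈ c.S D (a + b) := by
  refine Submodule.span_induction (p := fun x _ => x * y ∈ c.S D (a + b)) ?_ ?_ ?_ ?_ hx
  · rintro x ⟨i, e, h, rfl⟩
    refine Submodule.span_induction
      (p := fun y _ => (tL κ L ^ i * ∏ j, c.α j ^ e j) * y ∈ c.S D (a + b)) ?_ ?_ ?_ ?_ hy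
    · rintro y ⟨i', e', h', rfl⟩
      have e1 : (tL κ L ^ i * ∏ j, c.α j ^ e j) * (tL κ L ^ i' * ∏ j, c.α j ^ e' j)
          = tL κ L ^ (i + i') * ∏ j, c.α j ^ (e j + e' j) := by
        simp only [pow_add, Finset.prod_mul_distrib]
        ring
      rw [e1]
      refine mon_mem c _ _ ?_
      rw [Finset.sum_add_distrib]
      nlinarith
    · rw [mul_zero]; exact zero_mem _
    · intro y z _ _ h1 h2
      rw [mul_add]; exact add_mem h1 h2
    · intro r y _ h1
      rw [mul_smul_comm]; exact Submodule.smul_mem _ _ h1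
  · rw [zero_mul]; exact zero_mem _
  · intro x z _ _ h1 h2
    rw [add_mul]; exact add_mem h1 h2
  · intro r x _ h1
    rw [smul_mul_assoc]; exact Submodule.smul_mem _ _ h1

theorem one_mem (c : Sp κ f n L) : (1 : L) ∈ c.S D 0 := by
  have := mon_mem (D := D) c (a := 0) 0 (fun _ => 0) (by simp)
  simpa using this

theorem t_mem (c : Sp κ f n L) : tL κ L ∈ c.S D 1 := by
  have := mon_mem (D := D) c (a := 1) 1 (fun _ => 0) (by simp)
  simpa using this

theorem α_mem (c : Sp κ f n L) (j : Fin n) : c.α j ∈ c.S D D := by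
  classical
  have := mon_mem (D := D) c (a := D) 0 (Pi.single j 1) (by
    rw [Finset.sum_pi_single']
    simp)
  have e1 : ∏ i, c.α i ^ (Pi.single j 1 : Fin n → ℕ) i = c.α j := by
    rw [Finset.prod_eq_single j]
    · simp
    · intro b _ hb
      rw [Pi.single_eq_of_ne hb, pow_zero]
    · intro h; exact absurd (Finset.mem_univ j) h
  rw [e1, pow_zero, one_mul] at this
  exact this

theorem pow_mem (c : Sp κ f n L) {b : ℕ} {x : L} (hx : x ∈ c.S D b) :
    ∀ k : ℕ, x ^ k ∈ c.S D (k * b)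
  | 0 => by rw [pow_zero, zero_mul]; exact one_mem c
  | k + 1 => by
    rw [pow_succ, Nat.succ_mul]
    exact mul c (pow_mem c hx k) hx

theorem le_R (c : Sp κ f n L) {a : ℕ} {x : L} (hx : x ∈ c.S D a) : x ∈ c.R := by
  refine Submodule.span_induction (p := fun x _ => x ∈ c.R) ?_ ?_ ?_ ?_ hx
  · rintro x ⟨i, e, _, rfl⟩
    exact mul_mem (Subalgebra.pow_mem _ c.t_mem i)
      (Subalgebra.prod_mem _ fun j _ => Subalgebra.pow_mem _ (c.α_mem j) _)
  · exact zero_mem _
  · intro x y _ _ h1 h2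
    exact add_mem h1 h2
  · intro r x _ h1
    exact Subalgebra.smul_mem _ h1 r

theorem ex_S (c : Sp κ f n L) {x : L} (hx : x ∈ c.R) : ∃ a, x ∈ c.S D a := by
  refine Algebra.adjoin_induction (p := fun x _ => ∃ a, x ∈ c.S D a) ?_ ?_ ?_ ?_ hx
  · rintro x (rfl | ⟨j, rfl⟩)
    · exact ⟨1, t_mem c⟩
    · exact ⟨D, α_mem c j⟩
  · intro r
    refine ⟨0, ?_⟩
    rw [Algebra.algebraMap_eq_smul_one]
    exact Submodule.smul_mem _ _ (one_mem c)
  · rintro x y _ _ ⟨a, ha⟩ ⟨b, hb⟩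
    exact ⟨max a b, add_mem (mono c (le_max_left _ _) ha) (mono c (le_max_right _ _) hb)⟩
  · rintro x y _ _ ⟨a, ha⟩ ⟨b, hb⟩
    exact ⟨a + b, mul c ha hb⟩

theorem map_mem (c : Sp κ f n L) (φ : L →+* L) (π : Fin n → Fin n) (ht : φ (tL κ L) = tL κ L)
    (hu : ∀ u : κ, ∃ u' : κ, φ (algebraMap κ L u) = algebraMap κ L u')
    (hα : ∀ j, φ (c.α j) = c.α (π j)) (a : ℕ) (x : L) (hx : x ∈ c.S D a) : φ x ∈ c.S D a := by
  classical
  refine Submodule.span_induction (p := fun x _ => φ x ∈ c.S D a) ?_ ?_ ?_ ?_ hx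
  · rintro x ⟨i, e, h, rfl⟩
    have e1 : φ (tL κ L ^ i * ∏ j, c.α j ^ e j)
        = tL κ L ^ i * ∏ j, c.α j ^ (∑ k ∈ Finset.univ.filter (fun k => π k = j), e k) := by
      rw [map_mul, map_pow, ht, map_prod]
      congr 1
      simp only [map_pow, hα]
      rw [← Finset.prod_fiberwise (s := Finset.univ) (g := π)
        (f := fun k => c.α (π k) ^ e k)]
      refine Finset.prod_congr rfl fun j _ => ?_
      rw [← Finset.prod_pow_eq_pow_sum]
      refine Finset.prod_congr rfl fun k hk => ?_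
      rw [(Finset.mem_filter.1 hk).2]
    rw [e1]
    refine mon_mem c _ _ ?_
    rw [Finset.sum_fiberwise]
    exact h
  · rw [map_zero]; exact zero_mem _
  · intro x y _ _ h1 h2
    rw [map_add]; exact add_mem h1 h2
  · intro r x _ h1
    obtain ⟨r', hr'⟩ := hu r
    rw [Algebra.smul_def, map_mul, hr', ← Algebra.smul_def]
    exact Submodule.smul_mem _ _ h1

end FilEM

open FilEM in
theorem eFilE : FilEStmt := by
  intro κ _ f n D L _ _ _ _ c
  exact ⟨one_mem c, t_mem c, α_mem c, fun a b h => mono c h, fun a b x y hx hy => mul c hx hy,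
    fun a x hx => le_R c hx, fun x hx => ex_S c hx, fun φ π h1 h2 h3 a x hx =>
      map_mem c φ π h1 h2 h3 a x hx⟩

end MP7U
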