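import Pool.Agent.Lib.MP_7f581e_U.E.HlpS

/-!
# C41, Block E: FixE (helper6, after helper93's docstring)
-/

set_option autoImplicit false

namespace MP7U

open Polynomial

namespace FixEM

theorem cst_mono {N N₀ c c₀ : ℕ} (hN : N ≤ N₀) (hc : c ≤ c₀) : cst N c ≤ cst N₀ c₀ := by
  unfold cst
  have h1 : N * c ≤ N₀ * c₀ := Nat.mul_le_mul hN hc
  have h2 : N * (8 * (c + 1) + 1) ≤ N₀ * (8 * (c₀ + 1) + 1) := Nat.mul_le_mul hN (by omega)
  omega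

end FixEM

theorem eFixE (hB : BndStmt) (hS : SumEStmt) : FixEStmt := by
  intro N₀ c₀ r
  refine ⟨400 + 16 * N₀ + 4 * N₀ * c₀ + (N₀ * r + N₀ * cst N₀ c₀ + 2) ^ 2, ?_⟩
  intro p _ hp κ _ _ _ R _ _ G _ _ s 𝓐 hN hc h𝓐 hcard
  obtain ⟨𝓕, h𝓕, hsum⟩ := hS p κ R G s 𝓐 h𝓐
  by_contra hno
  have h0 : (𝓕 1).card = 0 := by
    rw [Finset.card_eq_zero, Finset.eq_empty_iff_forall_notMem]
    intro ρ hρ
    obtain ⟨h1, h2⟩ := (h𝓕 1 ρ).1 hρ
    refine hno ⟨ρ, h1, fun x => ?_⟩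
    have h3 := h2 x
    rw [map_one] at h3
    exact h3
  have hbig : 400 + 16 * Fintype.card G + 4 * Fintype.card G * s.c < p := by
    have h1 : 4 * Fintype.card G * s.c ≤ 4 * N₀ * c₀ :=
      Nat.mul_le_mul (Nat.mul_le_mul_left _ hN) hc
    have h2 : 0 ≤ (N₀ * r + N₀ * cst N₀ c₀ + 2) ^ 2 := Nat.zero_le _
    omega
  set m := Nat.sqrt p with hm
  have hb : ∀ τ, (𝓕 τ).card ≤ p + cst N₀ c₀ * m := by
    intro τ
    have h1 := hB p κ R G s τ hbig (𝓕 τ) (fun ρ hρ => by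
      obtain ⟨h2, h3⟩ := (h𝓕 τ ρ).1 hρ
      exact ⟨(h𝓐 _ h2).2, h3⟩)
    exact h1.trans (Nat.add_le_add_left (Nat.mul_le_mul_right _ (FixEM.cst_mono hN hc)) _)
  classical
  obtain ⟨n, hn⟩ : ∃ n, Fintype.card G = n + 1 :=
    ⟨Fintype.card G - 1, by have := Fintype.card_pos (α := G); omega⟩
  have h1 : ∑ τ, (𝓕 τ).card ≤ n * (p + cst N₀ c₀ * m) := by
    rw [← Finset.add_sum_erase _ _ (Finset.mem_univ (1 : G)), h0, zero_add]
    refine (Finset.sum_le_card_nsmul _ _ _ fun τ _ => hb τ).trans ?_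
    rw [smul_eq_mul, Finset.card_erase_of_mem (Finset.mem_univ _), Finset.card_univ, hn]
    simp
  rw [hsum, hn] at h1
  have hnN : n + 1 ≤ N₀ := by omega
  -- (n+1) (p - r) ≤ n (p + cst m)
  have h2 : (n + 1) * p ≤ (n + 1) * 𝓐.card + (n + 1) * r := by
    rw [← Nat.mul_add]; exact Nat.mul_le_mul_left _ hcard
  have h3 : p ≤ n * (cst N₀ c₀ * m) + (n + 1) * r := by nlinarith
  have hp4 : 4 ≤ p := by omega
  have hm1 : 1 ≤ m := by
    rw [hm]; exact Nat.sqrt_pos.2 (by omega)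
  have h4 : p ≤ m * (N₀ * cst N₀ c₀ + N₀ * r) := by
    refine h3.trans ?_
    have a1 : n * (cst N₀ c₀ * m) ≤ N₀ * (cst N₀ c₀ * m) := Nat.mul_le_mul_right _ (by omega)
    have a2 : (n + 1) * r ≤ N₀ * r := Nat.mul_le_mul_right _ hnN
    have a3 : N₀ * r ≤ m * (N₀ * r) := Nat.le_mul_of_pos_left _ hm1
    nlinarith
  have h5 : m * m ≤ p := Nat.sqrt_le p
  have h6 : m ≤ N₀ * cst N₀ c₀ + N₀ * r := Nat.le_of_mul_le_mul_left (h5.trans h4) hm1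
  have h7 : p < (m + 1) * (m + 1) := Nat.lt_succ_sqrt p
  have h8 : (m + 1) * (m + 1) ≤ (N₀ * r + N₀ * cst N₀ c₀ + 2) ^ 2 := by
    rw [pow_two]
    exact Nat.mul_le_mul (by omega) (by omega)
  omega

end MP7U
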