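import Pool.Agent.Lib.MP_7f581e_U.E.Spec2

/-! # C41 (MP_7f581e_nt), block E: FrRE, the Frobenius automorphism restricted to `R` -/

set_option autoImplicit false

namespace MP7U

open Polynomial

/-- **FrRE.** -/
theorem eFrRE : FrREStmt := by
  intro p _ κ _ _ _ f n L _ _ _ _ c F π ht hu hα
  have hp0 : p ≠ 0 := (Fact.out : p.Prime).ne_zero
  have h1 : ∀ x ∈ c.R, F x ∈ c.R := by
    intro x hx
    unfold Sp.R at hx
    induction hx using Algebra.adjoin_induction with
    | mem x hx =>
      rcases hx with rfl | ⟨i, rfl⟩
      · rw [ht]; exact c.t_mem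
      · rw [hα]; exact c.α_mem _
    | algebraMap r => rw [hu]; exact c.R.algebraMap_mem _
    | add x y _ _ hx hy => rw [map_add]; exact add_mem hx hy
    | mul x y _ _ hx hy => rw [map_mul]; exact mul_mem hx hy
  have h2 : ∀ x ∈ c.R, F.symm x ∈ c.R := by
    intro x hx
    unfold Sp.R at hx
    induction hx using Algebra.adjoin_induction with
    | mem x hx =>
      rcases hx with rfl | ⟨i, rfl⟩
      · rw [F.symm_apply_eq.mpr ht.symm]; exact c.t_mem
      · have : F.symm (c.α i) = c.α (π.symm i) := by
          rw [F.symm_apply_eq, hα, Equiv.apply_symm_apply]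
        rw [this]; exact c.α_mem _
    | algebraMap r =>
      obtain ⟨v, hv⟩ := IsAlgClosed.exists_pow_nat_eq r (Nat.pos_of_ne_zero hp0)
      have : F.symm (algebraMap κ L r) = algebraMap κ L v := by
        rw [F.symm_apply_eq, hu, hv]
      rw [this]; exact c.R.algebraMap_mem _
    | add x y _ _ hx hy => rw [map_add]; exact add_mem hx hy
    | mul x y _ _ hx hy => rw [map_mul]; exact mul_mem hx hy
  refine ⟨{ toFun := fun x => ⟨F x, h1 x x.2⟩
            invFun := fun x => ⟨F.symm x, h2 x x.2⟩
            left_inv := fun x => Subtype.ext (F.symm_apply_apply x)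
            right_inv := fun x => Subtype.ext (F.apply_symm_apply x)
            map_mul' := fun x y => Subtype.ext (map_mul F (x : L) y)
            map_add' := fun x y => Subtype.ext (map_add F (x : L) y) }, fun x => rfl⟩

end MP7U
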