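import Pool.Agent.Lib.MP_7f581e_U.E.Spec2

/-! # C41 (MP_7f581e_nt), block E: FrbE, the Frobenius automorphism which fixes a root -/

set_option autoImplicit false

namespace MP7U

open Polynomial

namespace FrbEM

private theorem aux (K L L' : Type) [Field K] [Field L] [Field L'] [Algebra K L] [Algebra K L']
    (P : K[X]) (h1 : IsSplittingField K L P) (h2 : IsSplittingField K L' P) :
    ∃ e : L ≃+* L', ∀ x, e (algebraMap K L x) = algebraMap K L' x := by
  refine ⟨((IsSplittingField.algEquiv L P).trans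
    (IsSplittingField.algEquiv L' P).symm).toRingEquiv, fun x => ?_⟩
  exact AlgEquiv.commutes _ x

private theorem adj (K L : Type) [Field K] [Field L] [A : Algebra K L] (Φ : K ≃+* K)
    (S : Set L) (h : Algebra.adjoin K S = ⊤) :
    @Algebra.adjoin K L _ _ ((algebraMap K L).comp (Φ : K →+* K)).toAlgebra S = ⊤ := by
  refine top_unique fun x hx0 => ?_
  clear hx0
  have hx : x ∈ @Algebra.adjoin K L _ _ A S := by rw [h]; exact Algebra.mem_top
  induction hx using Algebra.adjoin_induction with
  | mem x hx =>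
    exact @Algebra.subset_adjoin K L _ _ ((algebraMap K L).comp (Φ : K →+* K)).toAlgebra S _ hx
  | algebraMap r =>
    have := @Subalgebra.algebraMap_mem K L _ _ ((algebraMap K L).comp (Φ : K →+* K)).toAlgebra
      (@Algebra.adjoin K L _ _ ((algebraMap K L).comp (Φ : K →+* K)).toAlgebra S) (Φ.symm r)
    have h3 : @algebraMap K L _ _ ((algebraMap K L).comp (Φ : K →+* K)).toAlgebra (Φ.symm r) =
        @algebraMap K L _ _ A r := by
      change @algebraMap K L _ _ A (Φ (Φ.symm r)) = _
      rw [RingEquiv.apply_symm_apply]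
    rwa [h3] at this
  | add x y _ _ hx hy => exact add_mem hx hy
  | mul x y _ _ hx hy => exact mul_mem hx hy

private theorem twist (K L : Type) [Field K] [Field L] [A : Algebra K L] (Φ : K ≃+* K)
    (P : K[X]) (hP : P.map (Φ : K →+* K) = P) (h1 : IsSplittingField K L P) :
    ∃ e : L ≃+* L, ∀ x, e (algebraMap K L x) = algebraMap K L (Φ x) := by
  classical
  have hm : P.map ((algebraMap K L).comp (Φ : K →+* K)) = P.map (algebraMap K L) := by
    rw [← Polynomial.map_map, hP]
  have h2 : @IsSplittingField K L _ _ ((algebraMap K L).comp (Φ : K →+* K)).toAlgebra P := by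
    refine @IsSplittingField.mk K L _ _ ((algebraMap K L).comp (Φ : K →+* K)).toAlgebra P ?_ ?_
    · change Splits (P.map ((algebraMap K L).comp (Φ : K →+* K)))
      rw [hm]
      exact h1.splits'
    · have h3 : @Polynomial.rootSet K _ P L _ _
          ((algebraMap K L).comp (Φ : K →+* K)).toAlgebra = P.rootSet L := by
        unfold rootSet aroots
        change ((P.map ((algebraMap K L).comp (Φ : K →+* K))).roots.toFinset : Set L) = _
        rw [hm]
      rw [h3]
      exact adj K L Φ _ h1.adjoin_rootSet'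
  obtain ⟨e, he⟩ := @aux K L L _ _ _ A ((algebraMap K L).comp (Φ : K →+* K)).toAlgebra P h1 h2
  exact ⟨e, he⟩

end FrbEM

open FrbEM in
/-- **FrbE.** -/
theorem eFrbE (h1 : GalEStmt) : FrbEStmt := by
  classical
  intro p hpf κ _ _ _ f n D hf hfr L _ _ _ _ c j
  obtain ⟨-, -, hperm, htrans, -, -⟩ := h1 κ f n D hf L c
  have hphi : ∀ u : κ, (frobeniusEquiv κ p) u = u ^ p := fun u => by
    rw [frobeniusEquiv_apply, frobenius_def]
  set φ : κ ≃+* κ := frobeniusEquiv κ p with hφ
  set Φ : RatFunc κ ≃+* RatFunc κ :=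
    IsFractionRing.ringEquivOfRingEquiv (K := RatFunc κ) (L := RatFunc κ)
      (Polynomial.mapEquiv φ) with hΦ
  have hΦa : ∀ Q : κ[X], Φ (algebraMap κ[X] (RatFunc κ) Q) =
      algebraMap κ[X] (RatFunc κ) (Q.map (frobenius κ p)) := by
    intro Q
    rw [hΦ, IsFractionRing.ringEquivOfRingEquiv_algebraMap]
    congr 1
  have hΦX : Φ RatFunc.X = RatFunc.X := by
    rw [← RatFunc.algebraMap_X, hΦa, Polynomial.map_X]
  have hΦC : ∀ u : κ, Φ (algebraMap κ (RatFunc κ) u) = algebraMap κ (RatFunc κ) (u ^ p) := by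
    intro u
    rw [RatFunc.algebraMap_eq_C, ← RatFunc.algebraMap_C, hΦa, Polynomial.map_C, frobenius_def,
      ← RatFunc.algebraMap_C]
  -- the polynomial over the field of rational functions
  set f₁ : (RatFunc κ)[X] := f.map (algebraMap κ[X] (RatFunc κ)) with hf₁
  have hcomp : (aeval (tL κ L) : κ[X] →ₐ[κ] L).toRingHom =
      (algebraMap (RatFunc κ) L).comp (algebraMap κ[X] (RatFunc κ)) := by
    apply RingHom.ext
    intro Q
    exact aeval_tL κ L Q
  have hf₁L : f₁.map (algebraMap (RatFunc κ) L) = ∏ j, (X - C (c.α j)) := by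
    rw [hf₁, Polynomial.map_map, ← hcomp, c.prod]
  have hspl : IsSplittingField (RatFunc κ) L f₁ := by
    rw [isSplittingField_iff_intermediateField]
    constructor
    · rw [hf₁L]
      exact Splits.prod fun i _ => Splits.X_sub_C _
    · have hne : (∏ j, (X - C (c.α j)) : L[X]) ≠ 0 :=
        (monic_prod_of_monic _ _ fun i _ => monic_X_sub_C _).ne_zero
      have : f₁.rootSet L = Set.range c.α := by
        unfold rootSet aroots
        rw [hf₁L]
        ext x
        rw [Finset.mem_coe, Multiset.mem_toFinset, mem_roots hne, IsRoot.def, eval_prod,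
          Finset.prod_eq_zero_iff]
        constructor
        · rintro ⟨i, -, hi⟩
          exact ⟨i, (by simpa [sub_eq_zero] using hi : x = c.α i).symm⟩
        · rintro ⟨i, rfl⟩
          exact ⟨i, Finset.mem_univ i, by simp⟩
      rw [this, c.gen]
  have hfix : f₁.map (Φ : RatFunc κ →+* RatFunc κ) = f₁ := by
    have h2 : (Φ : RatFunc κ →+* RatFunc κ).comp (algebraMap κ[X] (RatFunc κ)) =
        (algebraMap κ[X] (RatFunc κ)).comp (mapRingHom (frobenius κ p)) := by
      apply RingHom.ext
      intro Q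
      exact hΦa Q
    rw [hf₁, Polynomial.map_map, h2, ← Polynomial.map_map, hfr]
  obtain ⟨F₀, hF₀⟩ := twist (RatFunc κ) L Φ f₁ hfix hspl
  have hroot : ∀ i, ∃ i', F₀ (c.α i) = c.α i' := by
    intro i
    have h3 : (∏ j, (X - C (c.α j)) : L[X]).map (F₀ : L →+* L) = ∏ j, (X - C (c.α j)) := by
      rw [← hf₁L, Polynomial.map_map]
      have h4 : (F₀ : L →+* L).comp (algebraMap (RatFunc κ) L) =
          (algebraMap (RatFunc κ) L).comp (Φ : RatFunc κ →+* RatFunc κ) := by
        apply RingHom.ext
        intro x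
        exact hF₀ x
      rw [h4, ← Polynomial.map_map, hfix]
    have h5 : (∏ j, (X - C (c.α j)) : L[X]).eval (F₀ (c.α i)) = 0 := by
      rw [← h3]
      have : F₀ (c.α i) = (F₀ : L →+* L) (c.α i) := rfl
      rw [this, Polynomial.eval_map, Polynomial.eval₂_at_apply, eval_prod,
        Finset.prod_eq_zero (Finset.mem_univ i) (by simp), map_zero]
    rw [eval_prod, Finset.prod_eq_zero_iff] at h5
    obtain ⟨i', -, hi'⟩ := h5
    exact ⟨i', by simpa [sub_eq_zero] using hi'⟩
  choose g hg using hroot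
  have hginj : Function.Injective g := by
    intro a b hab
    apply c.inj
    apply F₀.injective
    rw [hg, hg, hab]
  set π₀ : Equiv.Perm (Fin n) := Equiv.ofBijective g (Finite.injective_iff_bijective.mp hginj)
  obtain ⟨τ, hτ⟩ := htrans (g j) j
  obtain ⟨π₁, hπ₁⟩ := hperm τ
  refine ⟨F₀.trans τ.toRingEquiv, π₀.trans π₁, ?_, ?_, ?_, ?_⟩
  · change τ (F₀ (tL κ L)) = tL κ L
    rw [tL, hF₀, hΦX, AlgEquiv.commutes]
  · intro u
    change τ (F₀ (algebraMap κ L u)) = _
    rw [IsScalarTower.algebraMap_apply κ (RatFunc κ) L, hF₀, hΦC, AlgEquiv.commutes,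
      ← IsScalarTower.algebraMap_apply κ (RatFunc κ) L]
  · intro i
    change τ (F₀ (c.α i)) = _
    rw [hg, hπ₁]
    rfl
  · change τ (F₀ (c.α j)) = _
    rw [hg, hτ]

end MP7U
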