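import Pool.Agent.Lib.MP_7f581e_U.E.Spec2

/-!
# C41, Block E2: FreE (helper6, after helper93's docstring)
-/

set_option autoImplicit false

namespace MP7U

open Polynomial

namespace FreEM

variable {κ : Type} [Field κ] {f : κ[X][X]} {n : ℕ} {L : Type} [Field L] [Algebra κ L]
  [Algebra (RatFunc κ) L]

theorem prodR (c : Sp κ f n L) :
    f.map (aeval c.tR : κ[X] →ₐ[κ] c.R).toRingHom = ∏ j, (X - C (c.αR j)) := by
  have hinj : Function.Injective (c.R.val : c.R →+* L) := Subtype.val_injective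
  apply Polynomial.map_injective (c.R.val : c.R →+* L) hinj
  rw [map_map, Polynomial.map_prod]
  have h1 : ((c.R.val : c.R →+* L)).comp (aeval c.tR : κ[X] →ₐ[κ] c.R).toRingHom
      = (aeval (tL κ L) : κ[X] →ₐ[κ] L).toRingHom := by
    refine RingHom.ext fun P => ?_
    show c.R.val (aeval c.tR P) = aeval (tL κ L) P
    rw [← aeval_algHom_apply]
    rfl
  rw [h1, c.prod]
  refine Finset.prod_congr rfl fun j _ => ?_
  rw [Polynomial.map_sub, map_X, map_C]
  rfl

theorem dlR (c : Sp κ f n L) {dl : κ[X]} (h : c.IsDl dl) :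
    aeval c.tR dl = ∏ j, ev (derivative f) c.tR (c.αR j) := by
  apply Subtype.val_injective
  have h1 : ((aeval c.tR dl : c.R) : L) = aeval (tL κ L) dl := by
    show c.R.val (aeval c.tR dl) = _
    rw [← aeval_algHom_apply]; rfl
  rw [h1, h]
  show _ = c.R.val (∏ j, ev (derivative f) c.tR (c.αR j))
  rw [map_prod]
  refine Finset.prod_congr rfl fun j _ => ?_
  rw [map_ev]
  rfl

/-- the values of the roots at a good place are different -/
theorem inj_at (c : Sp κ f n L) {dl : κ[X]} (h : c.IsDl dl) (ρ : c.R →ₐ[κ] κ)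
    (hg : dl.eval (ρ c.tR) ≠ 0) : Function.Injective fun j => ρ (c.αR j) := by
  classical
  have h1 : dl.eval (ρ c.tR) = ∏ j, ev (derivative f) (ρ c.tR) (ρ (c.αR j)) := by
    have h2 := congrArg ρ (dlR c h)
    rw [← aeval_algHom_apply, coe_aeval_eq_eval, map_prod] at h2
    rw [h2]
    exact Finset.prod_congr rfl fun j _ => map_ev ρ _ _ _
  rw [h1] at hg
  have hne : ∀ j, ev (derivative f) (ρ c.tR) (ρ (c.αR j)) ≠ 0 := fun j =>
    Finset.prod_ne_zero_iff.1 hg j (Finset.mem_univ j)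
  have h3 : f.map (aeval (ρ c.tR) : κ[X] →ₐ[κ] κ).toRingHom = ∏ j, (X - C (ρ (c.αR j))) := by
    have h4 := congrArg (Polynomial.map (ρ : c.R →+* κ)) (prodR c)
    rw [map_map, Polynomial.map_prod] at h4
    have h5 : ((ρ : c.R →+* κ)).comp (aeval c.tR : κ[X] →ₐ[κ] c.R).toRingHom
        = (aeval (ρ c.tR) : κ[X] →ₐ[κ] κ).toRingHom := by
      refine RingHom.ext fun P => ?_
      show ρ (aeval c.tR P) = aeval (ρ c.tR) P
      rw [← aeval_algHom_apply]
    rw [h5] at h4
    rw [h4]
    refine Finset.prod_congr rfl fun j _ => ?_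
    rw [Polynomial.map_sub, map_X, map_C]
    rfl
  intro i j hij
  by_contra hne'
  apply hne i
  rw [ev_eq_eval_map, ← derivative_map, h3]
  have hj : j ∈ Finset.univ.erase i := Finset.mem_erase.2 ⟨fun h => hne' h.symm, Finset.mem_univ j⟩
  have hij' : ρ (c.αR i) = ρ (c.αR j) := hij
  rw [← Finset.mul_prod_erase Finset.univ _ (Finset.mem_univ i),
    ← Finset.mul_prod_erase (Finset.univ.erase i) _ hj]
  simp [derivative_mul, hij']

end FreEM

open FreEM in
theorem eFreE (hG : GalEStmt) : FreEStmt := by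
  intro κ _ f n D hf L _ _ _ _ c act hact dl hdl ρ τ hg hfix
  obtain ⟨_, _, hperm, _, hfaith, _⟩ := hG κ f n D hf L c
  obtain ⟨π, hπ⟩ := hperm τ
  have hinj := inj_at c hdl ρ hg
  apply hfaith
  intro j
  have h1 : act τ (c.αR j) = c.αR (π j) := by
    apply Subtype.ext
    rw [hact]
    exact hπ j
  have h2 : ρ (act τ (c.αR j)) = ρ (c.αR j) := DFunLike.congr_fun hfix (c.αR j)
  rw [h1] at h2
  have h3 : π j = j := hinj h2
  rw [hπ, h3]

end MP7U
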