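import Pool.Agent.Lib.MP_7f581e_U.E.HlpC

/-!
# C41, Block E2: GalE (helper6, after helper93's docstring)
-/

set_option autoImplicit false

namespace MP7U

open Polynomial

open HlpC in
theorem eGalE : GalEStmt := by
  intro κ _ f n D hf L _ _ _ _ c
  haveI hsf := isSplittingField c
  haveI hfd : FiniteDimensional (RatFunc κ) L := IsSplittingField.finiteDimensional L (f1 f)
  haveI hgal : IsGalois (RatFunc κ) L := IsGalois.of_separable_splitting_field (f1_sep c)
  have hperm : ∀ τ : L ≃ₐ[RatFunc κ] L, ∃ π : Equiv.Perm (Fin n), ∀ j, τ (c.α j) = c.α (π j) := by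
    intro τ
    choose π₀ hπ₀ using ex_root c τ
    have hinj : Function.Injective π₀ := by
      intro i j hij
      have h1 : τ (c.α i) = τ (c.α j) := by rw [hπ₀, hπ₀, hij]
      exact c.inj (τ.injective h1)
    exact ⟨Equiv.ofBijective π₀ (Finite.injective_iff_bijective.1 hinj), hπ₀⟩
  have hfaith : ∀ τ : L ≃ₐ[RatFunc κ] L, (∀ j, τ (c.α j) = c.α j) → τ = 1 := by
    intro τ h
    have h1 : (τ : L →ₐ[RatFunc κ] L) = AlgHom.id (RatFunc κ) L := by
      refine AlgHom.ext_of_adjoin_eq_top (adjoin_top c) ?_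
      rintro _ ⟨j, rfl⟩
      exact h j
    ext x
    exact DFunLike.congr_fun h1 x
  refine ⟨hfd, hgal, hperm, ?_, hfaith, ?_⟩
  · intro i j
    have hmin : minpoly (RatFunc κ) (c.α j) = f1 f :=
      (minpoly.eq_of_irreducible_of_monic (f1_irr hf) (aeval_f1_root c j) (f1_monic hf)).symm
    exact minpoly.exists_algEquiv_of_root (K := RatFunc κ) (x := c.α i) (y := c.α j)
      (Algebra.IsAlgebraic.isAlgebraic _) (by rw [hmin]; exact aeval_f1_root c i)
  · choose Pm hPm using hperm
    have hinj : Function.Injective Pm := by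
      intro τ τ' h
      have h1 : τ'⁻¹ * τ = 1 := by
        apply hfaith
        intro j
        show τ'⁻¹ (τ (c.α j)) = c.α j
        rw [hPm, h, ← hPm τ']
        exact τ'.symm_apply_apply _
      exact (inv_mul_eq_one.1 h1).symm
    have h2 := Nat.card_le_card_of_injective Pm hinj
    rwa [Nat.card_perm, Nat.card_fin] at h2

end MP7U
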