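import Pool.Agent.Lib.MP_7f581e_U.E.Spec2

/-!
# C41 (MP_7f581e_nt), Block E: `HnsEStmt`
-/

set_option autoImplicit false
set_option linter.unusedSectionVars false
set_option linter.unusedSimpArgs false

namespace MP7U

open Polynomial

namespace HnsEM

/-- Hensel's lemma for a power series ring. -/
theorem hensel_root {k : Type} [Field k] (q : (PowerSeries k)[X]) (hq : q.Monic) (a : k)
    (h0 : (q.map (PowerSeries.constantCoeff (R := k))).eval a = 0)
    (h1 : (derivative (q.map (PowerSeries.constantCoeff (R := k)))).eval a ≠ 0) :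
    ∃ r : PowerSeries k, q.eval r = 0 ∧ PowerSeries.constantCoeff r = a := by
  have hmem : ∀ x : PowerSeries k, x ∈ (Ideal.span {PowerSeries.X} : Ideal (PowerSeries k)) ↔
      PowerSeries.constantCoeff x = 0 := by
    intro x
    rw [Ideal.mem_span_singleton, PowerSeries.X_dvd_iff]
  have hH : HenselianRing (PowerSeries k) (Ideal.span {PowerSeries.X}) := inferInstance
  have hc : PowerSeries.constantCoeff (PowerSeries.C a) = a := PowerSeries.constantCoeff_C a
  have e0 : PowerSeries.constantCoeff (q.eval (PowerSeries.C a)) = 0 := by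
    rw [← eval₂_at_apply, hc, ← eval_map]
    exact h0
  have e1 : PowerSeries.constantCoeff ((derivative q).eval (PowerSeries.C a)) ≠ 0 := by
    rw [← eval₂_at_apply, hc, ← eval_map, ← derivative_map]
    exact h1
  obtain ⟨r, hr, hr'⟩ := hH.is_henselian q hq (PowerSeries.C a) ((hmem _).mpr e0) (by
    apply IsUnit.map
    exact PowerSeries.isUnit_iff_constantCoeff.mpr (isUnit_iff_ne_zero.mpr e1))
  refine ⟨r, hr, ?_⟩
  rw [hmem, map_sub, hc] at hr'
  exact sub_eq_zero.mp hr'

variable {κ : Type} [Field κ] {f : κ[X][X]} {n D : ℕ} {L : Type} [Field L] [Algebra κ L]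
  [Algebra (RatFunc κ) L] [IsScalarTower κ (RatFunc κ) L]

/-- the factorization over `R` -/
theorem prodR (c : Sp κ f n L) :
    f.map (aeval c.tR : κ[X] →ₐ[κ] c.R).toRingHom = ∏ j, (X - C (c.αR j)) := by
  have hinj : Function.Injective (c.R.val : c.R →ₐ[κ] L).toRingHom := Subtype.val_injective
  apply map_injective _ hinj
  rw [Polynomial.map_map, Polynomial.map_prod]
  have h1 : ((c.R.val : c.R →ₐ[κ] L).toRingHom.comp (aeval c.tR : κ[X] →ₐ[κ] c.R).toRingHom) =
      (aeval (tL κ L) : κ[X] →ₐ[κ] L).toRingHom := by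
    have : (c.R.val : c.R →ₐ[κ] L).comp (aeval c.tR) = aeval (tL κ L) := by
      apply algHom_ext
      simp
    rw [← this]; rfl
  rw [h1, c.prod]
  refine Finset.prod_congr rfl fun j _ => ?_
  rw [Polynomial.map_sub, map_X, map_C]
  rfl

/-- the factorization at a place -/
theorem prodρ (c : Sp κ f n L) {u : κ} {ρ : c.R →ₐ[κ] κ} (hρ : ρ c.tR = u) :
    f.map (aeval u : κ[X] →ₐ[κ] κ).toRingHom = ∏ j, (X - C (ρ (c.αR j))) := by
  have h1 : f.map (aeval u : κ[X] →ₐ[κ] κ).toRingHom =
      (f.map (aeval c.tR : κ[X] →ₐ[κ] c.R).toRingHom).map ρ.toRingHom := by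
    rw [Polynomial.map_map]
    congr 1
    have : (aeval u : κ[X] →ₐ[κ] κ) = ρ.comp (aeval c.tR) := by
      apply algHom_ext
      simp [hρ]
    rw [this]; rfl
  rw [h1, prodR c, Polynomial.map_prod]
  refine Finset.prod_congr rfl fun j _ => ?_
  rw [Polynomial.map_sub, map_X, map_C]
  rfl

theorem dl_place (c : Sp κ f n L) {dl : κ[X]} (hdl : c.IsDl dl) {u : κ} {ρ : c.R →ₐ[κ] κ}
    (hρ : ρ c.tR = u) : dl.eval u = ∏ j, ev (derivative f) u (ρ (c.αR j)) := by
  have h1 : aeval c.tR dl = ∏ j, ev (derivative f) c.tR (c.αR j) := by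
    apply Subtype.val_injective
    have h2 := hdl
    unfold Sp.IsDl at h2
    have h3 : c.R.val (aeval c.tR dl) = aeval (tL κ L) dl := by
      rw [← aeval_algHom_apply]; rfl
    have h4 : c.R.val (∏ j, ev (derivative f) c.tR (c.αR j)) =
        ∏ j, ev (derivative f) (tL κ L) (c.α j) := by
      rw [map_prod]
      refine Finset.prod_congr rfl fun j _ => ?_
      rw [map_ev]; rfl
    show c.R.val _ = c.R.val _
    rw [h3, h4, h2]
  have h5 := congrArg ρ h1
  rw [← aeval_algHom_apply, hρ, map_prod] at h5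
  have h6 : aeval u dl = dl.eval u := by
    rw [aeval_def, eval₂_eq_eval_map]
    simp
  rw [← h6, h5]
  refine Finset.prod_congr rfl fun j _ => ?_
  rw [map_ev, hρ]

theorem inj_of (c : Sp κ f n L) {u : κ} {ρ : c.R →ₐ[κ] κ} (hρ : ρ c.tR = u)
    (h : ∀ j, ev (derivative f) u (ρ (c.αR j)) ≠ 0) :
    Function.Injective fun j => ρ (c.αR j) := by
  intro i j hij
  by_contra hne
  apply h i
  rw [ev_eq_eval_map, ← derivative_map, prodρ c hρ]
  have h1 : ∏ k, (X - C (ρ (c.αR k))) = (X - C (ρ (c.αR i))) * ((X - C (ρ (c.αR i))) *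
      ∏ k ∈ (Finset.univ.erase i).erase j, (X - C (ρ (c.αR k)))) := by
    rw [← Finset.mul_prod_erase Finset.univ _ (Finset.mem_univ i),
      ← Finset.mul_prod_erase (Finset.univ.erase i) _
        (Finset.mem_erase.2 ⟨fun h => hne h.symm, Finset.mem_univ j⟩)]
    simp only at hij
    rw [hij]
  rw [h1]
  simp [derivative_mul]

end HnsEM

open HnsEM in
theorem eHnsE (hPl : PlEStmt) : HnsEStmt := by
  intro κ _ _ f n D hf L _ _ _ _ c dl hdl u hu
  obtain ⟨ρ, hρ⟩ := hPl κ f n D hf L c u
  have h1 := dl_place c hdl hρ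
  have h2 : ∀ j, ev (derivative f) u (ρ (c.αR j)) ≠ 0 := by
    intro j hj
    apply hu
    rw [h1]
    exact Finset.prod_eq_zero (Finset.mem_univ j) hj
  have hinj := inj_of c hρ h2
  set F := f.map (aeval (PowerSeries.C u + PowerSeries.X : PowerSeries κ) :
        κ[X] →ₐ[κ] PowerSeries κ).toRingHom with hF
  have hFm : F.Monic := hf.monic.map _
  have hFd : F.natDegree = n := by rw [hF, hf.monic.natDegree_map, hf.deg]
  have h3 : F.map (PowerSeries.constantCoeff (R := κ)) =
      f.map (aeval u : κ[X] →ₐ[κ] κ).toRingHom := by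
    rw [hF, Polynomial.map_map]
    congr 1
    apply ringHom_ext
    · intro a
      simp [PowerSeries.algebraMap_apply]
    · simp
  have h4 : ∀ j, ∃ r : PowerSeries κ, F.eval r = 0 ∧
      PowerSeries.constantCoeff r = ρ (c.αR j) := by
    intro j
    refine hensel_root F hFm _ ?_ ?_
    · rw [h3, prodρ c hρ, eval_prod]
      exact Finset.prod_eq_zero (Finset.mem_univ j) (by simp)
    · rw [h3, derivative_map, ← ev_eq_eval_map]
      exact h2 j
  choose Y hY0 hY1 using h4
  have hYinj : Function.Injective Y := by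
    intro i j hij
    apply hinj
    show ρ (c.αR i) = ρ (c.αR j)
    rw [← hY1, ← hY1, hij]
  refine ⟨Y, hYinj, ?_⟩
  classical
  have hmon : (∏ j, (X - C (Y j))).Monic := monic_prod_of_monic _ _ fun j _ => monic_X_sub_C _
  refine eq_of_monic_of_dvd_of_natDegree_le hmon hFm ?_ ?_
  · have h5 : ∏ j, (X - C (Y j)) =
        ((Finset.univ.image Y).val.map fun a => X - C a).prod := by
      rw [← Finset.prod_eq_multiset_prod, Finset.prod_image fun i _ j _ h => hYinj h]
    rw [h5, Multiset.prod_X_sub_C_dvd_iff_le_roots hFm.ne_zero,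
      Multiset.le_iff_subset (Finset.nodup _)]
    intro a ha
    rw [Finset.mem_val, Finset.mem_image] at ha
    obtain ⟨j, _, rfl⟩ := ha
    rw [mem_roots hFm.ne_zero]
    exact hY0 j
  · rw [hFd, natDegree_prod_of_monic _ _ fun j _ => monic_X_sub_C _]
    simp

end MP7U
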