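import Pool.Agent.Lib.MP_7f581e_U.E.Spec2

/-! # C41 (MP_7f581e_nt), block E: HtE, the derivation and the expansions -/

set_option autoImplicit false

namespace MP7U

open Polynomial

namespace HtEM

variable {κ : Type} [Field κ] {f : κ[X][X]} {n : ℕ} {L : Type} [Field L] [Algebra κ L]
  [Algebra (RatFunc κ) L] [IsScalarTower κ (RatFunc κ) L]

private theorem coe_aeval (c : Sp κ f n L) (P : κ[X]) :
    ((aeval c.tR P : c.R) : L) = aeval (tL κ L) P :=
  (aeval_algHom_apply c.R.val c.tR P).symm

private theorem isDlR (c : Sp κ f n L) (dl : κ[X]) (h : c.IsDl dl) :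
    aeval c.tR dl = ∏ j, ev (derivative f) c.tR (c.αR j) := by
  apply Subtype.ext
  rw [coe_aeval, h]
  have : ((∏ j, ev (derivative f) c.tR (c.αR j) : c.R) : L) =
      ∏ j, ((ev (derivative f) c.tR (c.αR j) : c.R) : L) := map_prod c.R.val _ _
  rw [this]
  exact Finset.prod_congr rfl fun j _ => (map_ev c.R.val (derivative f) c.tR (c.αR j)).symm

private theorem key (c : Sp κ f n L) (dl : κ[X]) (hdl : c.IsDl dl) (u : κ)
    (h : c.R →ₐ[κ] PowerSeries κ) (ht : h c.tR = PowerSeries.C u + PowerSeries.X) (j : Fin n) :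
    h (-(ev (dT f) c.tR (c.αR j) *
      ∏ i ∈ Finset.univ.erase j, ev (derivative f) c.tR (c.αR i))) =
      h (aeval c.tR dl) * PowerSeries.derivative κ (h (c.αR j)) := by
  have h1 : ev f (h c.tR) (h (c.αR j)) = 0 := by rw [← map_ev, c.ev_rootR, map_zero]
  have h2 := der_ev (PowerSeries.derivative κ) f (h c.tR) (h (c.αR j))
  rw [h1, map_zero, ht, map_add, PowerSeries.derivative_C, PowerSeries.derivative_X, zero_add,
    ← ht, smul_eq_mul, smul_eq_mul, mul_one, ← map_ev, ← map_ev] at h2
  have h3 : h (aeval c.tR dl) = h (ev (derivative f) c.tR (c.αR j)) *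
      h (∏ i ∈ Finset.univ.erase j, ev (derivative f) c.tR (c.αR i)) := by
    rw [isDlR c dl hdl, ← map_mul, Finset.mul_prod_erase Finset.univ
      (fun j => ev (derivative f) c.tR (c.αR j)) (Finset.mem_univ j)]
  rw [h3, map_neg, map_mul, ← neg_mul]
  have h4 : -h (ev (dT f) c.tR (c.αR j)) =
      h (ev (derivative f) c.tR (c.αR j)) * PowerSeries.derivative κ (h (c.αR j)) := by
    linear_combination h2
  rw [h4]
  ring

end HtEM

open HtEM in
/-- **HtE.** -/
theorem eHtE : HtEStmt := by
  intro κ _ f n L _ _ _ _ c dl hdl δ hδ u h ht x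
  let B : Subalgebra κ c.R :=
    { carrier := {x | h (δ x) = h (aeval c.tR dl) * PowerSeries.derivative κ (h x)}
      mul_mem' := fun {a b} ha hb => by
        simp only [Set.mem_ofPred_eq] at ha hb ⊢
        rw [Derivation.leibniz, map_add, smul_eq_mul, smul_eq_mul, map_mul, map_mul, map_mul, ha,
          hb, Derivation.leibniz, smul_eq_mul, smul_eq_mul]
        ring
      add_mem' := fun {a b} ha hb => by
        simp only [Set.mem_ofPred_eq] at ha hb ⊢
        rw [map_add, map_add, ha, hb, map_add, map_add, mul_add]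
      algebraMap_mem' := fun r => by
        simp only [Set.mem_ofPred_eq]
        rw [Derivation.map_algebraMap, map_zero, AlgHom.commutes, Derivation.map_algebraMap,
          mul_zero] }
  refine c.eq_top B ?_ ?_ x
  · change h (δ c.tR) = h (aeval c.tR dl) * PowerSeries.derivative κ (h c.tR)
    rw [hδ.1, ht, map_add, PowerSeries.derivative_C, PowerSeries.derivative_X, zero_add, mul_one]
  · intro j
    change h (δ (c.αR j)) = h (aeval c.tR dl) * PowerSeries.derivative κ (h (c.αR j))
    rw [hδ.2, key c dl hdl u h ht j]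

end MP7U
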