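import Pool.Agent.Lib.MP_7f581e_U.E.HlpS

/-!
# C41, Block E: IndE (helper6, after helper93's docstring)
-/

set_option autoImplicit false

namespace MP7U

open Polynomial

theorem eIndE : IndEStmt := by
  intro p _ κ _ _ R _ _ G _ _ s A
  constructor
  · rw [Fintype.linearIndependent_iff]
    intro g hg
    set q : G → κ[X] := fun τ => ∑ i : Fin A, monomial (i : ℕ) (g (i, τ)) with hq
    have h1 : ∑ τ, aeval s.t (q τ) * s.β τ = 0 := by
      rw [← hg, Fintype.sum_prod_type_right]
      refine Finset.sum_congr rfl fun τ _ => ?_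
      rw [hq]
      simp only [map_sum, aeval_monomial]
      rw [Finset.sum_mul]
      refine Finset.sum_congr rfl fun i _ => ?_
      rw [Algebra.smul_def, mul_assoc]
    have h2 := s.β_ind q h1
    rintro ⟨i, τ⟩
    have h3 : (q τ).coeff (i : ℕ) = 0 := by rw [h2]; simp
    rw [hq] at h3
    simp only [finset_sum_coeff, coeff_monomial] at h3
    rw [Finset.sum_eq_single i] at h3
    · simpa using h3
    · intro b _ hb
      rw [if_neg fun h => hb (Fin.ext h)]
    · intro h
      exact absurd (Finset.mem_univ i) h
  · rintro ⟨i, τ⟩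
    have h1 := s.mul_mem i s.c _ _ (HlpS.t_pow_mem s i) (s.β_mem τ)
    exact s.mono _ _ (Nat.add_le_add_right i.2.le _) h1

end MP7U
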