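import Pool.Agent.Lib.MP_7f581e_U.E.HlpS

/-!
# C41, Block E: Inj0 (helper6, after helper93's docstring)
-/

set_option autoImplicit false

namespace MP7U

open Polynomial

theorem eInj0 : Inj0Stmt := by
  intro p hp κ _ _ r x z hx hw hsum
  by_contra hne
  push Not at hne
  obtain ⟨i₀, hi₀⟩ := hne
  have hcp : CharP (PowerSeries κ) p :=
    charP_of_injective_algebraMap (algebraMap κ (PowerSeries κ)).injective p
  -- the least order
  have hex : ∃ N : ℕ, ¬ ∀ i, PowerSeries.X ^ N ∣ z i := by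
    have h1 : ∃ n, PowerSeries.coeff n (z i₀) ≠ 0 := by
      by_contra hn
      push Not at hn
      exact hi₀ (PowerSeries.ext fun n => by rw [hn n, map_zero])
    obtain ⟨n, hn⟩ := h1
    refine ⟨n + 1, fun h => hn ?_⟩
    exact PowerSeries.X_pow_dvd_iff.1 (h i₀) n (Nat.lt_succ_self n)
  classical
  set N := Nat.find hex with hN
  have hN1 : ¬ ∀ i, PowerSeries.X ^ N ∣ z i := Nat.find_spec hex
  have hN0 : N ≠ 0 := by
    intro h0
    apply hN1
    intro i
    rw [h0, pow_zero]
    exact one_dvd _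
  obtain ⟨m, hm⟩ : ∃ m, N = m + 1 := ⟨N - 1, by omega⟩
  have hm1 : ∀ i, PowerSeries.X ^ m ∣ z i := by
    by_contra hn
    have := Nat.find_min' hex hn
    omega
  choose y hy using hm1
  rw [hm] at hN1
  push Not at hN1
  obtain ⟨i₁, hi₁⟩ := hN1
  have hc : PowerSeries.constantCoeff (y i₁) ≠ 0 := by
    intro h0
    obtain ⟨v, hv⟩ := PowerSeries.X_dvd_iff.2 h0
    apply hi₁
    rw [hy i₁, hv, pow_succ]
    exact ⟨v, by ring⟩
  -- cancel
  have hX : (PowerSeries.X : PowerSeries κ) ^ (m * p) ≠ 0 := pow_ne_zero _ PowerSeries.X_ne_zero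
  have h2 : ∑ i, x i * y i ^ p = 0 := by
    have h3 : PowerSeries.X ^ (m * p) * ∑ i, x i * y i ^ p = 0 := by
      rw [← hsum, Finset.mul_sum]
      refine Finset.sum_congr rfl fun i _ => ?_
      rw [hy i, mul_pow, ← pow_mul]
      ring
    rcases mul_eq_zero.1 h3 with h | h
    · exact absurd h hX
    · exact h
  set ζ : Fin r → κ := fun i => PowerSeries.constantCoeff (y i) with hζ
  have hdvd : ∀ i, PowerSeries.X ^ p ∣ PowerSeries.C (ζ i) ^ p - y i ^ p := by
    intro i
    rw [← sub_pow_char]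
    refine pow_dvd_pow_of_dvd ?_ p
    rw [PowerSeries.X_dvd_iff, map_sub, PowerSeries.constantCoeff_C, hζ, sub_self]
  have hwz := hw (∑ i, ζ i ^ p • x i)
    (Submodule.sum_mem _ fun i _ => Submodule.smul_mem _ _ (Submodule.subset_span ⟨i, rfl⟩))
    (by
      have h3 : ∑ i, ζ i ^ p • x i = ∑ i, x i * (PowerSeries.C (ζ i) ^ p - y i ^ p) := by
        simp only [mul_sub, Finset.sum_sub_distrib]
        rw [h2, sub_zero]
        refine Finset.sum_congr rfl fun i _ => ?_
        rw [PowerSeries.smul_eq_C_mul, map_pow, mul_comm]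
      rw [h3]
      exact Finset.dvd_sum fun i _ => Dvd.dvd.mul_left (hdvd i) _)
  have h4 := Fintype.linearIndependent_iff.1 hx (fun i => ζ i ^ p) hwz i₁
  exact hc (pow_eq_zero_iff hp.out.ne_zero |>.1 h4)

end MP7U
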