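import Pool.Agent.Lib.MP_7f581e_U.E.HlpS

/-!
# C41, Block E: InjE (helper6, after helper93's docstring)
-/

set_option autoImplicit false

namespace MP7U

open Polynomial

theorem eInjE (h0 : Inj0Stmt) (hS : SmlStmt) : InjEStmt := by
  intro p hp κ _ _ _ R _ _ G _ _ s J _ u v a b hu hv hli hap hsum
  obtain ⟨ρ, h, _, hh⟩ := HlpS.ex_hat s
  haveI := HlpS.nontriv ρ
  haveI hcp : CharP R p := charP_of_injective_algebraMap (algebraMap κ R).injective p
  -- the span
  set W := Submodule.span κ (Set.range u) with hW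
  have hWS : W ≤ s.S a := Submodule.span_le.2 (by rintro _ ⟨j, rfl⟩; exact hu j)
  haveI : Module.Finite κ W := Module.Finite.span_of_finite κ (Set.finite_range u)
  set B := Module.finBasis κ W with hB
  set r := Module.finrank κ W with hr
  set x : Fin r → R := fun i => (B i : R) with hx
  have hmem : ∀ j, u j ∈ W := fun j => Submodule.subset_span ⟨j, rfl⟩
  set c : J → Fin r → κ := fun j i => B.repr ⟨u j, hmem j⟩ i with hc
  have huj : ∀ j, u j = ∑ i, c j i • x i := by
    intro j
    have h1 := congrArg (Subtype.val) (B.sum_repr ⟨u j, hmem j⟩)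
    rw [Submodule.coe_sum] at h1
    exact h1.symm
  have hroot : ∀ j i, ∃ d : κ, d ^ p = c j i := fun j i =>
    IsAlgClosed.exists_pow_nat_eq (c j i) hp.out.pos
  choose d hd using hroot
  set z : Fin r → R := fun i => ∑ j, d j i • v j with hz
  have hzs : ∀ i, z i ∈ s.S b := fun i =>
    Submodule.sum_mem _ fun j _ => Submodule.smul_mem _ _ (hv j)
  haveI : ExpChar R p := ExpChar.prime hp.out
  have hzp : ∀ i, z i ^ p = ∑ j, c j i • v j ^ p := by
    intro i
    rw [hz]
    simp only
    rw [sum_pow_char]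
    refine Finset.sum_congr rfl fun j _ => ?_
    rw [_root_.smul_pow, hd]
  have hrel : ∑ i, x i * z i ^ p = 0 := by
    calc ∑ i, x i * z i ^ p = ∑ i, ∑ j, x i * (c j i • v j ^ p) :=
          Finset.sum_congr rfl fun i _ => by rw [hzp i, Finset.mul_sum]
      _ = ∑ j, ∑ i, x i * (c j i • v j ^ p) := Finset.sum_comm
      _ = ∑ j, u j * v j ^ p := by
          refine Finset.sum_congr rfl fun j _ => ?_
          rw [huj j, Finset.sum_mul]
          refine Finset.sum_congr rfl fun i _ => ?_
          rw [mul_smul_comm, smul_mul_assoc]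
      _ = 0 := hsum
  -- the map on W is injective
  let g : W →ₗ[κ] PowerSeries κ := h.toLinearMap.comp W.subtype
  have hnd : ∀ w : R, w ∈ s.S a → w ≠ 0 → ¬ PowerSeries.X ^ p ∣ h w := by
    intro w hw hw0 hdv
    refine hS p κ R G s ρ h hh a w hw hw0 ((pow_dvd_pow _ ?_).trans hdv)
    omega
  have hg : Function.Injective g := by
    rw [injective_iff_map_eq_zero]
    intro w hw
    by_contra hw0
    have h1 : (w : R) ≠ 0 := fun h2 => hw0 (Subtype.ext h2)
    refine hnd w (hWS w.2) h1 ?_
    have h2 : h (w : R) = 0 := hw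
    rw [h2]
    exact dvd_zero _
  have hli2 : LinearIndependent κ (fun i => h (x i)) := by
    have := B.linearIndependent.map' g (LinearMap.ker_eq_bot.2 hg)
    exact this
  have hspan : ∀ w ∈ Submodule.span κ (Set.range fun i => h (x i)),
      PowerSeries.X ^ p ∣ w → w = 0 := by
    intro w hw hdv
    have h1 : ∃ w' : W, g w' = w := by
      have h2 : Submodule.span κ (Set.range fun i => h (x i)) ≤ LinearMap.range g := by
        rw [Submodule.span_le]
        rintro _ ⟨i, rfl⟩
        exact ⟨B i, rfl⟩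
      exact h2 hw
    obtain ⟨w', rfl⟩ := h1
    by_cases hw0 : w' = 0
    · rw [hw0, map_zero]
    · exfalso
      have h3 : (w' : R) ≠ 0 := fun h2 => hw0 (Subtype.ext h2)
      exact hnd w' (hWS w'.2) h3 hdv
  have hz0 : ∀ i, h (z i) = 0 := h0 p κ r (fun i => h (x i)) (fun i => h (z i)) hli2 hspan (by
    have := congrArg h hrel
    rw [map_sum, map_zero] at this
    rw [← this]
    exact Finset.sum_congr rfl fun i _ => by rw [map_mul, map_pow])
  have hz1 : ∀ i, z i = 0 := by
    intro i
    by_contra hne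
    refine hS p κ R G s ρ h hh b (z i) (hzs i) hne ?_
    rw [hz0 i]
    exact dvd_zero _
  have hd0 : ∀ j i, d j i = 0 := fun j i =>
    Fintype.linearIndependent_iff.1 hli (fun j => d j i) (hz1 i) j
  intro j
  rw [huj j]
  refine Finset.sum_eq_zero fun i _ => ?_
  rw [← hd j i, hd0 j i, zero_pow hp.out.ne_zero, zero_smul]

end MP7U
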