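import Pool.Agent.Lib.MP_7f581e_U.E.Spec2

/-!
# C41, Block E2: IntE (helper6, after helper93's docstring)
-/

set_option autoImplicit false

namespace MP7U

open Polynomial

theorem eIntE : IntEStmt := by
  intro κ _ f n D hf L _ _ _ _ c x hx
  set φ := (aeval (tL κ L) : κ[X] →ₐ[κ] L).toRingHom with hφ
  refine Algebra.adjoin_induction (p := fun x _ => φ.IsIntegralElem x) ?_ ?_ ?_ ?_ hx
  · rintro x (rfl | ⟨j, rfl⟩)
    · have h1 : φ X = tL κ L := aeval_X (tL κ L)
      rw [← h1]
      exact RingHom.isIntegralElem_map φ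
    · exact ⟨f, hf.monic, c.ev_root j⟩
  · intro r
    have h1 : φ (C r) = algebraMap κ L r := aeval_C (tL κ L) r
    rw [← h1]
    exact RingHom.isIntegralElem_map φ
  · intro x y _ _ h1 h2
    exact RingHom.IsIntegralElem.add φ h1 h2
  · intro x y _ _ h1 h2
    exact RingHom.IsIntegralElem.mul φ h1 h2

end MP7U
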