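import Pool.Agent.Lib.MP_7f581e_U.E.Spec2

/-!
# C41, Block E2: InvE (helper6, after helper93's docstring)
-/

set_option autoImplicit false

namespace MP7U

open Polynomial

theorem eInvE (hG : GalEStmt) (hI : IntEStmt) : InvEStmt := by
  intro κ _ f n D hf L _ _ _ _ c x hx hfix
  obtain ⟨hfd, hgal, _⟩ := hG κ f n D hf L c
  have h1 : x ∈ (⊥ : IntermediateField (RatFunc κ) L) := IsGalois.mem_bot_iff_fixed x |>.2 hfix
  obtain ⟨z, rfl⟩ := IntermediateField.mem_bot.1 h1
  obtain ⟨q, hq, hq0⟩ := hI κ f n D hf L c _ hx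
  have h2 : IsIntegral κ[X] z := by
    refine ⟨q, hq, ?_⟩
    apply (algebraMap (RatFunc κ) L).injective
    rw [map_zero, ← hq0, hom_eval₂]
    congr 1
    ext y
    · have := aeval_tL κ L (C y)
      simpa using this.symm
    · exact (aeval_tL κ L X).symm
  obtain ⟨P, hP⟩ := IsIntegrallyClosed.isIntegral_iff.1 h2
  exact ⟨P, by rw [aeval_tL, hP]⟩

end MP7U
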