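import Pool.Agent.Lib.MP_7f581e_U.E.Spec1

/-! # C41 (MP_7f581e_nt), block E: Ord, vanishing derivatives give divisibility -/

set_option autoImplicit false

namespace MP7U

open Polynomial

/-- **Ord.** -/
theorem eOrd (h1 : DkPStmt) : OrdStmt := by
  intro p hpf κ _ _ R _ _ G _ _ s ρ hρ h hh M hM x hx
  obtain ⟨-, -, h3⟩ := h1 p κ R G s
  rw [PowerSeries.X_pow_dvd_iff]
  intro k hk
  have h4 := congrArg PowerSeries.constantCoeff (h3 ρ h hh k x)
  rw [hh.const, hx k hk, map_mul, map_pow, hh.const, ← Polynomial.aeval_algHom_apply,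
    PowerSeries.constantCoeff_iterate_derivative] at h4
  have h5 : (aeval (ρ s.t)) s.dl ≠ 0 := by
    rw [Polynomial.coe_aeval_eq_eval]; exact hρ
  have h6 : ((Nat.factorial k : ℕ) : κ) ≠ 0 := by
    rw [Ne, CharP.cast_eq_zero_iff κ p, hpf.out.dvd_factorial]
    omega
  rcases mul_eq_zero.mp h4.symm with h7 | h7
  · exact absurd h7 (pow_ne_zero _ h5)
  · rcases mul_eq_zero.mp h7 with h8 | h8
    · exact absurd h8 h6
    · exact h8

end MP7U
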