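import Pool.Agent.Lib.MP_7f581e_U.E.HlpS

/-!
# C41, Block E: Sml (helper6, after helper93's docstring)
-/

set_option autoImplicit false

namespace MP7U

open Polynomial

theorem eSml : SmlStmt := by
  intro p _ κ _ _ R _ _ G _ _ s ρ h hh a x hx hx0 hdvd
  obtain ⟨P, hP0, hPd, hP⟩ := s.norm a x hx hx0
  have h1 : h (aeval s.t P) = aeval (PowerSeries.C (ρ s.t) + PowerSeries.X : PowerSeries κ) P := by
    rw [← aeval_algHom_apply, hh.map_t]
  have h2 : h x ∣ h (aeval s.t P) := by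
    rw [hP, map_prod]
    have h3 : h (s.act 1 x) ∣ ∏ τ, h (s.act τ x) := Finset.dvd_prod_of_mem _ (Finset.mem_univ 1)
    rw [map_one] at h3
    exact h3
  rw [h1] at h2
  exact HlpS.not_dvd (ρ s.t) hP0 hPd (hdvd.trans h2)

end MP7U
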