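import Pool.Agent.Lib.MP_7f581e_U.E.HlpC

/-!
# C41, Block E2: SplE (helper6, after helper93's docstring)
-/

set_option autoImplicit false

namespace MP7U

open Polynomial

open HlpC in
theorem eSplE : SplEStmt := by
  intro p hp κ _ _ f n D hf hn
  classical
  haveI hcp : CharP (RatFunc κ) p :=
    charP_of_injective_algebraMap (algebraMap κ (RatFunc κ)).injective p
  have hmon : (f1 f).Monic := f1_monic hf
  have hdeg : (f1 f).natDegree = n := by
    have h1 : (f1 f).natDegree = f.natDegree := hf.monic.natDegree_map _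
    rw [h1, hf.deg]
  have hsep : (f1 f).Separable := by
    rw [separable_iff_derivative_ne_zero (f1_irr hf)]
    intro h0
    obtain ⟨m, hm⟩ : ∃ m, n = m + 1 := ⟨n - 1, by have := hf.n_pos; omega⟩
    have h1 : (derivative (f1 f)).coeff m = ((m + 1 : ℕ) : RatFunc κ) := by
      rw [coeff_derivative]
      have h2 : (f1 f).coeff (m + 1) = 1 := by
        rw [← hm, ← hdeg]; exact hmon.coeff_natDegree
      rw [h2, one_mul]
      push_cast; rfl
    rw [h0, coeff_zero] at h1
    have h3 := (CharP.cast_eq_zero_iff (RatFunc κ) p (m + 1)).1 h1.symm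
    have := Nat.le_of_dvd (Nat.succ_pos m) h3
    omega
  set L := (f1 f).SplittingField with hL
  set M := ((f1 f).map (algebraMap (RatFunc κ) L)).roots with hM
  have hspl : ((f1 f).map (algebraMap (RatFunc κ) L)).Splits := SplittingField.splits (f1 f)
  have hMn : M.Nodup := nodup_roots (hsep.map)
  have hMc : M.card = n := by
    rw [hM, ← hspl.natDegree_eq_card_roots, hmon.natDegree_map, hdeg]
  have hSc : M.toFinset.card = n := by
    rw [Multiset.toFinset_card_of_nodup hMn, hMc]
  let e := Finset.equivFinOfCardEq hSc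
  let α : Fin n → L := fun j => (e.symm j : L)
  have hα : Function.Injective α := Subtype.val_injective.comp e.symm.injective
  have hprod : (f1 f).map (algebraMap (RatFunc κ) L) = ∏ j, (X - C (α j)) := by
    have h1 := hspl.eq_prod_roots_of_monic (hmon.map _)
    rw [h1, ← hM]
    have h2 : (Multiset.map (fun x => X - C x) M).prod = ∏ a ∈ M.toFinset, (X - C a) := by
      rw [Finset.prod, Multiset.toFinset_val, hMn.dedup]
    rw [h2, ← Finset.prod_coe_sort, ← e.symm.prod_comp]
  have hrange : (f1 f).rootSet L = Set.range α := by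
    ext x
    rw [mem_rootSet', ← eval_map_algebraMap, hprod, eval_prod]
    constructor
    · rintro ⟨_, h⟩
      obtain ⟨j, _, hj⟩ := Finset.prod_eq_zero_iff.1 h
      rw [eval_sub, eval_X, eval_C] at hj
      exact ⟨j, (sub_eq_zero.1 hj).symm⟩
    · rintro ⟨j, rfl⟩
      exact ⟨(monic_prod_of_monic _ _ fun j _ => monic_X_sub_C _).ne_zero,
        Finset.prod_eq_zero (Finset.mem_univ j) (by simp)⟩
  refine ⟨L, inferInstance, inferInstance, inferInstance, inferInstance,
    ⟨{ α := α, inj := hα, prod := ?_, gen := ?_ }⟩⟩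
  · rw [← map_map_f1, hprod]
  · have h1 := SplittingField.adjoin_rootSet (f1 f)
    rw [eq_top_iff]
    intro x _
    have h2 : x ∈ Algebra.adjoin (RatFunc κ) ((f1 f).rootSet L) := by
      rw [h1]; trivial
    have h3 : Algebra.adjoin (RatFunc κ) ((f1 f).rootSet L)
        ≤ (IntermediateField.adjoin (RatFunc κ) (Set.range α)).toSubalgebra := by
      rw [hrange]
      exact Algebra.adjoin_le (IntermediateField.subset_adjoin _ _)
    exact h3 h2

end MP7U
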