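import Pool.Agent.Lib.MP_7f581e_U.E.Spec2

/-!
# C41 (MP_7f581e_nt), Block E: `SzEStmt`
-/

set_option autoImplicit false
set_option linter.unusedSectionVars false

namespace MP7U

open Polynomial WithZero

namespace SzEM

variable (κ : Type) [Field κ]

open Classical in
/-- the valuation at infinity -/
noncomputable def v : Valuation (RatFunc κ) ℤᵐ⁰ := RatFunc.inftyValuation κ

open Classical in
theorem v_X : v κ RatFunc.X = exp 1 := RatFunc.inftyValuation.X κ

open Classical in
theorem v_poly {P : κ[X]} (hP : P ≠ 0) :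
    v κ (algebraMap κ[X] (RatFunc κ) P) = exp (P.natDegree : ℤ) :=
  RatFunc.inftyValuation.polynomial κ hP

theorem v_poly_le {P : κ[X]} {d : ℕ} (hP : P.natDegree ≤ d) :
    v κ (algebraMap κ[X] (RatFunc κ) P) ≤ exp (d : ℤ) := by
  by_cases h : P = 0
  · rw [h, map_zero, map_zero]; exact zero_le
  · rw [v_poly κ h, exp_le_exp]
    exact_mod_cast hP

theorem v_Xpow (d : ℕ) : v κ (RatFunc.X ^ d) = exp (d : ℤ) := by
  rw [map_pow, v_X, ← exp_nsmul]
  congr 1
  simp

theorem v_div_le {P : κ[X]} {d e : ℕ} (hP : P.natDegree ≤ d) (hde : d ≤ e) :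
    v κ (algebraMap κ[X] (RatFunc κ) P / RatFunc.X ^ e) ≤ 1 := by
  rw [map_div₀, v_Xpow]
  have h1 : v κ (algebraMap κ[X] (RatFunc κ) P) ≤ exp (e : ℤ) := v_poly_le κ (hP.trans hde)
  have h2 : (exp (e : ℤ)) ≠ 0 := exp_ne_zero
  calc v κ (algebraMap κ[X] (RatFunc κ) P) / exp (e : ℤ) ≤ exp (e : ℤ) / exp (e : ℤ) := by
        gcongr
        exact zero_le
    _ = 1 := div_self h2

variable (L : Type) [Field L] [Algebra κ L] [Algebra (RatFunc κ) L] [IsScalarTower κ (RatFunc κ) L]

/-- the map from the valuation ring to `L` -/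
noncomputable def ψ : (v κ).integer →+* L :=
  (algebraMap (RatFunc κ) L).comp (v κ).integer.subtype

variable {κ L}

theorem int_of_le {z : RatFunc κ} (hz : v κ z ≤ 1) :
    (ψ κ L).IsIntegralElem (algebraMap (RatFunc κ) L z) := by
  have := (ψ κ L).isIntegralElem_map (x := (⟨z, hz⟩ : (v κ).integer))
  exact this

theorem le_of_int {z : RatFunc κ} (hz : (ψ κ L).IsIntegralElem (algebraMap (RatFunc κ) L z)) :
    v κ z ≤ 1 := by
  obtain ⟨q, hq, hq0⟩ := hz
  have h1 : eval₂ (v κ).integer.subtype z q = 0 := by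
    apply (algebraMap (RatFunc κ) L).injective
    rw [map_zero, ← hq0, hom_eval₂]
    rfl
  have h2 : IsIntegral (v κ).integer z := ⟨q, hq, h1⟩
  exact (Valuation.integer.integers (v κ)).mem_of_integral h2

theorem tL_ne : tL κ L ≠ 0 := by
  unfold tL
  rw [Ne, map_eq_zero]
  exact RatFunc.X_ne_zero

theorem tL_pow (w : ℕ) : tL κ L ^ w = algebraMap (RatFunc κ) L (RatFunc.X ^ w) := by
  rw [map_pow]; rfl

/-- `α / t^D` is integral -/
theorem int_root {f : κ[X][X]} {n D : ℕ} (hf : IsCv κ f n D) {a : L}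
    (ha : ev f (tL κ L) a = 0) : (ψ κ L).IsIntegralElem (a / tL κ L ^ D) := by
  have ht := tL_ne (κ := κ) (L := L)
  have hz : ∀ i : Fin n,
      v κ (algebraMap κ[X] (RatFunc κ) (f.coeff i) / RatFunc.X ^ (D * (n - i))) ≤ 1 := by
    intro i
    refine v_div_le κ (hf.coeff_deg i) ?_
    have : 1 ≤ n - (i : ℕ) := by omega
    calc D = D * 1 := (mul_one D).symm
      _ ≤ _ := Nat.mul_le_mul_left D this
  let z : Fin n → (v κ).integer := fun i => ⟨_, hz i⟩
  refine ⟨X ^ n + ∑ i : Fin n, C (z i) * X ^ (i : ℕ), ?_, ?_⟩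
  · apply monic_X_pow_add
    refine (degree_sum_le _ _).trans_lt ?_
    rw [Finset.sup_lt_iff (by exact WithBot.bot_lt_coe n)]
    intro i _
    exact (degree_C_mul_X_pow_le _ _).trans_lt (by exact_mod_cast i.2)
  · rw [eval₂_add, eval₂_X_pow, eval₂_finsetSum]
    have h1 : ∀ i : Fin n, eval₂ (ψ κ L) (a / tL κ L ^ D) (C (z i) * X ^ (i : ℕ)) =
        aeval (tL κ L) (f.coeff i) * a ^ (i : ℕ) / tL κ L ^ (D * n) := by
      intro i
      rw [eval₂_mul, eval₂_C, eval₂_X_pow]
      have h2 : ψ κ L (z i) = aeval (tL κ L) (f.coeff i) / tL κ L ^ (D * (n - i)) := by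
        show algebraMap (RatFunc κ) L (algebraMap κ[X] (RatFunc κ) (f.coeff i) / _) = _
        rw [map_div₀, aeval_tL, tL_pow]
      rw [h2, div_pow, ← pow_mul, div_mul_div_comm, ← pow_add]
      congr 2
      rw [← mul_add]
      congr 1
      omega
    have h3 : (a / tL κ L ^ D) ^ n =
        aeval (tL κ L) (f.coeff n) * a ^ n / tL κ L ^ (D * n) := by
      have : f.coeff n = 1 := by
        have := hf.monic.coeff_natDegree
        rwa [hf.deg] at this
      rw [this, map_one, one_mul, div_pow, ← pow_mul]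
    rw [h3, Finset.sum_congr rfl fun i _ => h1 i, ← Finset.sum_div, ← add_div]
    have h4 : aeval (tL κ L) (f.coeff n) * a ^ n +
        ∑ i : Fin n, aeval (tL κ L) (f.coeff i) * a ^ (i : ℕ) = 0 := by
      rw [← ha, ev_eq_sum, hf.deg, Finset.sum_range_succ, add_comm]
      congr 1
      exact Fin.sum_univ_eq_sum_range (fun i => aeval (tL κ L) (f.coeff i) * a ^ i) n
    rw [h4, zero_div]

theorem int_pow {y : L} (hy : (ψ κ L).IsIntegralElem y) (k : ℕ) :
    (ψ κ L).IsIntegralElem (y ^ k) := by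
  induction k with
  | zero => rw [pow_zero]; exact (ψ κ L).isIntegralElem_one
  | succ k ih => rw [pow_succ]; exact ih.mul _ hy

theorem int_prod {ι : Type} (s : Finset ι) (y : ι → L)
    (hy : ∀ i, (ψ κ L).IsIntegralElem (y i)) :
    (ψ κ L).IsIntegralElem (∏ i ∈ s, y i) := by
  classical
  induction s using Finset.induction_on with
  | empty => rw [Finset.prod_empty]; exact (ψ κ L).isIntegralElem_one
  | insert a s ha ih => rw [Finset.prod_insert ha]; exact (hy a).mul _ ih

theorem int_S {f : κ[X][X]} {n D : ℕ} (hf : IsCv κ f n D) (c : Sp κ f n L) {w : ℕ} {x : L}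
    (hx : x ∈ c.S D w) : (ψ κ L).IsIntegralElem (x / tL κ L ^ w) := by
  have ht := tL_ne (κ := κ) (L := L)
  unfold Sp.S at hx
  induction hx using Submodule.span_induction with
  | mem x hx =>
    obtain ⟨i, e, hie, rfl⟩ := hx
    obtain ⟨k, hk⟩ := Nat.exists_eq_add_of_le hie
    have h1 : tL κ L ^ i * (∏ j, c.α j ^ e j) / tL κ L ^ w =
        algebraMap (RatFunc κ) L (1 / RatFunc.X ^ k) * ∏ j, (c.α j / tL κ L ^ D) ^ e j := by
      have h2 : ∏ j, (c.α j / tL κ L ^ D) ^ e j =
          (∏ j, c.α j ^ e j) / tL κ L ^ (D * ∑ j, e j) := by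
        rw [pow_mul, ← Finset.prod_pow_eq_pow_sum, ← Finset.prod_div_distrib]
        exact Finset.prod_congr rfl fun j _ => div_pow _ _ _
      rw [h2, map_div₀, map_one, ← tL_pow, hk, pow_add, pow_add]
      have h3 := pow_ne_zero i ht
      have h4 := pow_ne_zero k ht
      have h5 := pow_ne_zero (D * ∑ j, e j) ht
      field_simp
    rw [h1]
    refine RingHom.IsIntegralElem.mul _ ?_ ?_
    · refine int_of_le ?_
      have := v_div_le κ (P := 1) (d := 0) (e := k) (by simp) (Nat.zero_le k)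
      rwa [map_one] at this
    · exact int_prod _ _ fun j => int_pow (int_root hf (c.ev_root j)) _
  | zero => rw [zero_div]; exact (ψ κ L).isIntegralElem_zero
  | add x y _ _ hx hy => rw [add_div]; exact hx.add _ hy
  | smul a x _ hx =>
    rw [Algebra.smul_def, mul_div_assoc]
    refine RingHom.IsIntegralElem.mul _ ?_ hx
    rw [IsScalarTower.algebraMap_apply κ (RatFunc κ) L]
    refine int_of_le ?_
    have h1 := v_poly_le κ (P := C a) (d := 0) (by simp)
    have h2 : algebraMap κ[X] (RatFunc κ) (C a) = algebraMap κ (RatFunc κ) a := by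
      rw [RatFunc.algebraMap_C, RatFunc.algebraMap_eq_C]
    rw [h2] at h1
    simpa using h1

end SzEM

open SzEM in
theorem eSzE : SzEStmt := by
  intro κ _ f n D hf L _ _ _ _ c P w hP
  by_cases hP0 : P = 0
  · rw [hP0, natDegree_zero]; exact Nat.zero_le _
  have h1 := int_S hf c hP
  have h2 : aeval (tL κ L) P / tL κ L ^ w =
      algebraMap (RatFunc κ) L (algebraMap κ[X] (RatFunc κ) P / RatFunc.X ^ w) := by
    rw [map_div₀, aeval_tL, tL_pow]
  rw [h2] at h1
  have h3 := le_of_int h1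
  rw [map_div₀, v_poly κ hP0, v_Xpow, ← exp_sub] at h3
  have h4 : (exp ((P.natDegree : ℤ) - w)) ≤ exp 0 := by rw [exp_zero]; exact h3
  rw [exp_le_exp] at h4
  omega

end MP7U
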