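import Pool.Agent.Lib.MP_7f581e_U.E.Spec2

/-! # C41 (MP_7f581e_nt), block E: TrnE, the group is transitive on the places above a point -/

set_option autoImplicit false

namespace MP7U

open Polynomial

namespace TrnEM

private theorem eq_of_ker {κ R : Type} [Field κ] [CommRing R] [Algebra κ R]
    (φ ψ : R →ₐ[κ] κ) (h : RingHom.ker φ ≤ RingHom.ker ψ) : φ = ψ := by
  apply AlgHom.ext
  intro x
  have h1 : x - algebraMap κ R (φ x) ∈ RingHom.ker φ := by
    rw [RingHom.mem_ker, map_sub, AlgHom.commutes]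
    exact sub_self _
  have h2 := h h1
  rw [RingHom.mem_ker, map_sub, AlgHom.commutes] at h2
  exact (sub_eq_zero.mp h2).symm

end TrnEM

open TrnEM in
/-- **TrnE.** -/
theorem eTrnE (hGal : GalEStmt) (hInv : InvEStmt) : TrnEStmt := by
  intro κ _ f n D hcv L _ _ _ _ c act hact ρ ρ' hρ
  obtain ⟨hfd, -, -, -, -, -⟩ := hGal κ f n D hcv L c
  haveI := hfd
  haveI : Finite (L ≃ₐ[RatFunc κ] L) := inferInstance
  letI : Fintype (L ≃ₐ[RatFunc κ] L) := Fintype.ofFinite _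
  by_contra hcon
  push Not at hcon
  have hsub : ¬ ((RingHom.ker ρ' : Ideal c.R) : Set c.R) ⊆
      ⋃ τ ∈ ((Finset.univ : Finset (L ≃ₐ[RatFunc κ] L)) : Set (L ≃ₐ[RatFunc κ] L)),
        ((RingHom.ker (ρ.comp (act τ).toAlgHom) : Ideal c.R) : Set c.R) := by
    rw [Ideal.subset_union_prime (1 : L ≃ₐ[RatFunc κ] L) 1
      (fun τ _ _ _ => RingHom.ker_isPrime (ρ.comp (act τ).toAlgHom))]
    rintro ⟨τ, -, hτ⟩
    exact hcon τ (eq_of_ker _ _ hτ)
  rw [Set.not_subset] at hsub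
  obtain ⟨x, hx, hx2⟩ := hsub
  have hx3 : ∀ τ, ρ (act τ x) ≠ 0 := by
    intro τ h0
    apply hx2
    rw [Set.mem_iUnion₂]
    exact ⟨τ, by simp, h0⟩
  have hcoe : ((∏ τ, act τ x : c.R) : L) = ∏ τ : L ≃ₐ[RatFunc κ] L, τ (x : L) := by
    have : ((∏ τ, act τ x : c.R) : L) = ∏ τ, (act τ x : L) := map_prod c.R.val _ _
    rw [this]
    exact Finset.prod_congr rfl fun τ _ => hact τ x
  have hinv : ∀ σ : L ≃ₐ[RatFunc κ] L, σ ((∏ τ, act τ x : c.R) : L) =
      ((∏ τ, act τ x : c.R) : L) := by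
    intro σ
    rw [hcoe, map_prod]
    exact Fintype.prod_equiv (Equiv.mulLeft σ) _ _ fun τ => rfl
  obtain ⟨P, hP⟩ := hInv κ f n D hcv L c _ (∏ τ, act τ x : c.R).2 hinv
  have hPR : aeval c.tR P = ∏ τ, act τ x :=
    Subtype.ext ((aeval_algHom_apply c.R.val c.tR P).symm.trans hP)
  have h1 : ρ (∏ τ, act τ x) ≠ 0 := by
    rw [map_prod]
    exact Finset.prod_ne_zero_iff.mpr fun τ _ => hx3 τ
  have h2 : ρ' (∏ τ, act τ x) = 0 := by
    rw [map_prod]
    refine Finset.prod_eq_zero (Finset.mem_univ (1 : L ≃ₐ[RatFunc κ] L)) ?_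
    rw [map_one]
    exact hx
  apply h1
  rw [← h2, ← hPR, ← aeval_algHom_apply, ← aeval_algHom_apply, hρ]

end MP7U
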