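import Pool.Agent.Lib.MP_7f581e_U.E.NumE
import Pool.Agent.Lib.MP_7f581e_U.E.DkP
import Pool.Agent.Lib.MP_7f581e_U.E.Ord
import Pool.Agent.Lib.MP_7f581e_U.E.Inj0
import Pool.Agent.Lib.MP_7f581e_U.E.Sml
import Pool.Agent.Lib.MP_7f581e_U.E.InjE
import Pool.Agent.Lib.MP_7f581e_U.E.DimE
import Pool.Agent.Lib.MP_7f581e_U.E.IndE
import Pool.Agent.Lib.MP_7f581e_U.E.AuxE
import Pool.Agent.Lib.MP_7f581e_U.E.Cnt
import Pool.Agent.Lib.MP_7f581e_U.E.Bnd
import Pool.Agent.Lib.MP_7f581e_U.E.SumE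
import Pool.Agent.Lib.MP_7f581e_U.E.FixE
import Pool.Agent.Lib.MP_7f581e_U.E.SplE
import Pool.Agent.Lib.MP_7f581e_U.E.GalE
import Pool.Agent.Lib.MP_7f581e_U.E.FilE
import Pool.Agent.Lib.MP_7f581e_U.E.EvsE
import Pool.Agent.Lib.MP_7f581e_U.E.IntE
import Pool.Agent.Lib.MP_7f581e_U.E.InvE
import Pool.Agent.Lib.MP_7f581e_U.E.SzE
import Pool.Agent.Lib.MP_7f581e_U.E.BasE
import Pool.Agent.Lib.MP_7f581e_U.E.DlE
import Pool.Agent.Lib.MP_7f581e_U.E.ActE
import Pool.Agent.Lib.MP_7f581e_U.E.PlE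
import Pool.Agent.Lib.MP_7f581e_U.E.TrnE
import Pool.Agent.Lib.MP_7f581e_U.E.FreE
import Pool.Agent.Lib.MP_7f581e_U.E.HnsE
import Pool.Agent.Lib.MP_7f581e_U.E.EmbE
import Pool.Agent.Lib.MP_7f581e_U.E.DerE
import Pool.Agent.Lib.MP_7f581e_U.E.HtE
import Pool.Agent.Lib.MP_7f581e_U.E.DmE
import Pool.Agent.Lib.MP_7f581e_U.E.DcE
import Pool.Agent.Lib.MP_7f581e_U.E.FrbE
import Pool.Agent.Lib.MP_7f581e_U.E.FrRE
import Pool.Agent.Lib.MP_7f581e_U.E.DatE
import Pool.Agent.Lib.MP_7f581e_U.E.WthE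

/-!
# C41 (MP_7f581e_nt), Block E, assembly
-/

set_option autoImplicit false

namespace MP7U

theorem xNumE : NumEStmt := eNumE

theorem xDkP : DkPStmt := eDkP

theorem xOrd : OrdStmt := eOrd xDkP

theorem xInj0 : Inj0Stmt := eInj0

theorem xSml : SmlStmt := eSml

theorem xInjE : InjEStmt := eInjE xInj0 xSml

theorem xDimE : DimEStmt := eDimE xSml

theorem xIndE : IndEStmt := eIndE

theorem xAuxE : AuxStmt := eAux xDkP xDimE xIndE

theorem xCnt : CntStmt := eCnt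

theorem xBnd : BndStmt := eBnd xNumE xDkP xOrd xInjE xIndE xAuxE xCnt

theorem xSumE : SumEStmt := eSumE

theorem xFixE : FixEStmt := eFixE xBnd xSumE

theorem xSplE : SplEStmt := eSplE

theorem xGalE : GalEStmt := eGalE

theorem xFilE : FilEStmt := eFilE

theorem xEvsE : EvsEStmt := eEvsE xFilE

theorem xIntE : IntEStmt := eIntE

theorem xInvE : InvEStmt := eInvE xGalE xIntE

theorem xSzE : SzEStmt := eSzE

theorem xBasE : BasEStmt := eBasE xGalE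

theorem xDlE : DlEStmt := eDlE xGalE xFilE xEvsE xInvE xSzE

theorem xActE : ActEStmt := eActE xGalE

theorem xPlE : PlEStmt := ePlE xIntE

theorem xTrnE : TrnEStmt := eTrnE xGalE xInvE

theorem xFreE : FreEStmt := eFreE xGalE

theorem xHnsE : HnsEStmt := eHnsE xPlE

theorem xEmbE : EmbEStmt := eEmbE xGalE xHnsE

theorem xDerE : DerEStmt := eDerE xEmbE

theorem xHtE : HtEStmt := eHtE

theorem xDmE : DmEStmt := eDmE xFilE xEvsE

theorem xDcE : DcEStmt := eDcE xGalE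

theorem xFrbE : FrbEStmt := eFrbE xGalE

theorem xFrRE : FrREStmt := eFrRE

theorem xDatE : DatEStmt := eDatE xSplE xGalE xFilE xEvsE xInvE xSzE xBasE xDlE xActE xPlE xTrnE xFreE xEmbE xDerE xHtE xDmE xDcE xFrbE xFrRE

theorem xWthE : WthEStmt := eWthE xFixE xDatE

end MP7U
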