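import Pool.Agent.Lib.MP_7f581e_U.E.Defs

/-!
# C41 (MP_7f581e_nt), Block E, part 2: the data of a plane curve, definitions

`f ∈ κ[X][Y]` (type `κ[X][X]`) is monic in `Y` of degree `n`, with coefficients of degree `≤ D`, and irreducible over
`κ(X)`.  `L` is a splitting field of `f` over `κ(X)`, `t = tL κ L ∈ L` is the image of `X`, `α j` (`j : Fin n`) the
roots.  `c.R = κ[t, α_j] ⊆ L`, `c.S D w` is the `κ`-span of the monomials `t^i ∏ α_j^(e_j)` with
`i + D ∑ e_j ≤ w`.
-/

set_option autoImplicit false

namespace MP7U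

open Polynomial

/-- The hypotheses on the polynomial. -/
structure IsCv (κ : Type) [Field κ] (f : κ[X][X]) (n D : ℕ) : Prop where
  monic : f.Monic
  deg : f.natDegree = n
  n_pos : 1 ≤ n
  D_pos : 1 ≤ D
  coeff_deg : ∀ i, (f.coeff i).natDegree ≤ D
  irr : Irreducible (f.map (algebraMap κ[X] (RatFunc κ)))

section ev

variable {κ : Type} [Field κ] {A : Type} [CommRing A] [Algebra κ A]

/-- The value `f(t, y)`. -/
noncomputable def ev (f : κ[X][X]) (t y : A) : A := eval₂ (aeval t : κ[X] →ₐ[κ] A).toRingHom y f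

/-- The derivative of `f` with respect to `X` (the derivative of the coefficients). -/
noncomputable def dT (f : κ[X][X]) : κ[X][X] := f.sum fun i a => monomial i (derivative a)

theorem ev_add (f g : κ[X][X]) (t y : A) : ev (f + g) t y = ev f t y + ev g t y := eval₂_add _ _

theorem ev_mul (f g : κ[X][X]) (t y : A) : ev (f * g) t y = ev f t y * ev g t y := eval₂_mul _ _

theorem ev_monomial (i : ℕ) (a : κ[X]) (t y : A) :
    ev (monomial i a : κ[X][X]) t y = aeval t a * y ^ i := by
  simp [ev, eval₂_monomial]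

theorem ev_eq_sum (f : κ[X][X]) (t y : A) :
    ev f t y = ∑ i ∈ Finset.range (f.natDegree + 1), aeval t (f.coeff i) * y ^ i := by
  rw [ev, eval₂_eq_sum_range]; rfl

theorem ev_eq_eval_map (f : κ[X][X]) (t y : A) :
    ev f t y = (f.map (aeval t : κ[X] →ₐ[κ] A).toRingHom).eval y := (eval_map _ _).symm

theorem map_ev {B : Type} [CommRing B] [Algebra κ B] (φ : A →ₐ[κ] B) (f : κ[X][X]) (t y : A) :
    φ (ev f t y) = ev f (φ t) (φ y) := by
  rw [ev_eq_sum, ev_eq_sum, map_sum]
  refine Finset.sum_congr rfl fun i _ => ?_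
  rw [map_mul, map_pow, ← aeval_algHom_apply]

theorem dT_add (f g : κ[X][X]) : dT (f + g) = dT f + dT g := by
  unfold dT
  exact sum_add_index f g _ (by simp) (by intro i a b; simp)

theorem dT_monomial (i : ℕ) (a : κ[X]) : dT (monomial i a : κ[X][X]) = monomial i (derivative a) := by
  unfold dT
  rw [sum_monomial_index _ _ (by simp)]

/-- The chain rule: a derivation `δ` along a homomorphism `φ`, on `f(t, y)`. -/
theorem der_ev {M : Type} [AddCommGroup M] [Module κ M] [Module A M] [IsScalarTower κ A M]
    (δ : Derivation κ A M) (f : κ[X][X]) (t y : A) :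
    δ (ev f t y) = ev (dT f) t y • δ t + ev (derivative f) t y • δ y := by
  induction f using Polynomial.induction_on' with
  | add f g hf hg =>
    rw [ev_add, map_add, hf, hg, dT_add, ev_add, derivative_add, ev_add, add_smul, add_smul]
    abel
  | monomial i a =>
    rw [ev_monomial, dT_monomial, derivative_monomial, ev_monomial, ev_monomial,
      Derivation.leibniz, Derivation.leibniz_pow, map_mul, map_natCast]
    have h1 : δ (aeval t a) = aeval t (derivative a) • δ t := by
      induction a using Polynomial.induction_on' with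
      | add a b ha hb => rw [map_add, map_add, ha, hb, map_add, map_add, add_smul]
      | monomial j r =>
        rw [aeval_monomial, derivative_monomial, aeval_monomial, Derivation.leibniz,
          Derivation.map_algebraMap, smul_zero, add_zero, Derivation.leibniz_pow, map_mul,
          map_natCast, ← Nat.cast_smul_eq_nsmul A, smul_smul, smul_smul]
    rw [h1, ← Nat.cast_smul_eq_nsmul A]
    simp only [smul_smul]
    rw [add_comm]
    congr 2 <;> ring

end ev

section tL

variable (κ : Type) [Field κ] (L : Type) [Field L] [Algebra κ L] [Algebra (RatFunc κ) L]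

/-- The parameter: the image of `X ∈ κ(X)` in `L`. -/
noncomputable def tL : L := algebraMap (RatFunc κ) L RatFunc.X

theorem aeval_tL [IsScalarTower κ (RatFunc κ) L] (P : κ[X]) :
    aeval (tL κ L) P = algebraMap (RatFunc κ) L (algebraMap κ[X] (RatFunc κ) P) := by
  induction P using Polynomial.induction_on' with
  | add a b ha hb => rw [map_add, ha, hb, map_add, map_add]
  | monomial j r =>
    rw [aeval_monomial, ← C_mul_X_pow_eq_monomial, map_mul, map_mul, map_pow, map_pow,
      RatFunc.algebraMap_X, RatFunc.algebraMap_C, tL]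
    congr 1
    rw [IsScalarTower.algebraMap_apply κ (RatFunc κ) L, RatFunc.algebraMap_eq_C]

theorem aeval_tL_injective [IsScalarTower κ (RatFunc κ) L] :
    Function.Injective (aeval (tL κ L) : κ[X] →ₐ[κ] L) := by
  intro a b hab
  rw [aeval_tL, aeval_tL] at hab
  exact RatFunc.algebraMap_injective κ ((algebraMap (RatFunc κ) L).injective hab)

end tL

/-- A splitting field `L` of `f` over `κ(X)`, with an enumeration of the roots. -/
structure Sp (κ : Type) [Field κ] (f : κ[X][X]) (n : ℕ) (L : Type) [Field L] [Algebra κ L]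
    [Algebra (RatFunc κ) L] where
  /-- the roots -/
  α : Fin n → L
  inj : Function.Injective α
  prod : f.map (aeval (tL κ L) : κ[X] →ₐ[κ] L).toRingHom = ∏ j, (X - C (α j))
  gen : IntermediateField.adjoin (RatFunc κ) (Set.range α) = ⊤

namespace Sp

variable {κ : Type} [Field κ] {f : κ[X][X]} {n : ℕ} {L : Type} [Field L] [Algebra κ L]
  [Algebra (RatFunc κ) L] (c : Sp κ f n L)

/-- The ring `κ[t, α_j]`. -/
noncomputable def R : Subalgebra κ L := Algebra.adjoin κ (insert (tL κ L) (Set.range c.α))

theorem t_mem : tL κ L ∈ c.R := Algebra.subset_adjoin (Set.mem_insert _ _)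

theorem α_mem (j : Fin n) : c.α j ∈ c.R :=
  Algebra.subset_adjoin (Set.mem_insert_of_mem _ (Set.mem_range_self j))

/-- `t` as an element of `c.R`. -/
noncomputable def tR : c.R := ⟨tL κ L, c.t_mem⟩

/-- `α j` as an element of `c.R`. -/
noncomputable def αR (j : Fin n) : c.R := ⟨c.α j, c.α_mem j⟩

@[simp] theorem coe_tR : (c.tR : L) = tL κ L := rfl

@[simp] theorem coe_αR (j : Fin n) : (c.αR j : L) = c.α j := rfl

/-- A subalgebra of `c.R` which contains `t` and the `α j` is everything. -/
theorem eq_top (B : Subalgebra κ c.R) (h1 : c.tR ∈ B) (h2 : ∀ j, c.αR j ∈ B) (x : c.R) :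
    x ∈ B := by
  have h3 : c.R ≤ B.map c.R.val := by
    unfold R
    refine Algebra.adjoin_le ?_
    rintro y (rfl | ⟨j, rfl⟩)
    · exact ⟨c.tR, h1, rfl⟩
    · exact ⟨c.αR j, h2 j, rfl⟩
  obtain ⟨y, hy, hxy⟩ := h3 x.2
  have : y = x := Subtype.ext hxy
  rwa [← this]

/-- The elements of size at most `w`. -/
noncomputable def S (D w : ℕ) : Submodule κ L :=
  Submodule.span κ {x | ∃ (i : ℕ) (e : Fin n → ℕ), i + D * ∑ j, e j ≤ w ∧
    x = tL κ L ^ i * ∏ j, c.α j ^ e j}

theorem ev_root (j : Fin n) : ev f (tL κ L) (c.α j) = 0 := by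
  rw [ev_eq_eval_map, c.prod, eval_prod]
  exact Finset.prod_eq_zero (Finset.mem_univ j) (by simp)

theorem ev_rootR (j : Fin n) : ev f c.tR (c.αR j) = 0 := by
  have := map_ev c.R.val f c.tR (c.αR j)
  have h2 : c.R.val (ev f c.tR (c.αR j)) = 0 := by
    rw [this]; exact c.ev_root j
  exact Subtype.ext h2

/-- `dl` is the product of the values `f_Y(t, α_j)`. -/
def IsDl (dl : κ[X]) : Prop := aeval (tL κ L) dl = ∏ j, ev (derivative f) (tL κ L) (c.α j)

end Sp

end MP7U
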