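import Mathlib

/-!
# C41 (MP_7f581e_nt), Block E: points of curves over `𝔽_p` for large `p` (Stepanov's method)

`κ` is an algebraically closed field of characteristic `p`.  The structure `St` is the data of a
finite Galois extension of `κ(t)` with group `G`: `R` is a ring of integral elements, `S a` the
elements of `R` of size at most `a` (`t` has size `1`), `dl` a polynomial which vanishes at the
ramified points, `D = dl(t) d/dt`, `F` an automorphism of `R` which induces the Frobenius map on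
the constants and fixes `t`, `β` a basis over `κ(t)`.  The places are the homomorphisms
`ρ : R →ₐ[κ] κ`; a place is good if `dl` does not vanish at `ρ t`; at a good place there is an
expansion `h : R →ₐ[κ] κ⟦X⟧`, `t ↦ ρ(t) + X` (`IsHat`).
-/

set_option autoImplicit false

namespace MP7U

open Polynomial

section

variable {κ : Type} [Field κ] {R : Type} [CommRing R] [Algebra κ R]

/-- `h` is the expansion at the place `ρ`. -/
structure IsHat (t : R) (dl : κ[X]) (D : Derivation κ R R) (ρ : R →ₐ[κ] κ)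
    (h : R →ₐ[κ] PowerSeries κ) : Prop where
  map_t : h t = PowerSeries.C (ρ t) + PowerSeries.X
  const : ∀ x, PowerSeries.constantCoeff (h x) = ρ x
  der : ∀ x, h (D x) = h (aeval t dl) * PowerSeries.derivative κ (h x)

end

/-- The data of a Galois extension of `κ(t)` for Stepanov's method. -/
structure St (p : ℕ) (κ : Type) [Field κ] (R : Type) [CommRing R] [Algebra κ R] (G : Type)
    [Group G] [Fintype G] where
  /-- the parameter -/
  t : R
  /-- the Galois group -/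
  act : G →* (R ≃ₐ[κ] R)
  /-- the elements of size at most `a` -/
  S : ℕ → Submodule κ R
  /-- the discriminant -/
  dl : κ[X]
  /-- the derivation `dl(t) d/dt` -/
  D : Derivation κ R R
  /-- the Frobenius map on the constants -/
  F : R ≃+* R
  /-- a basis over `κ(t)` -/
  β : G → R
  /-- the bound -/
  c : ℕ
  one_mem : (1 : R) ∈ S 0
  t_mem : t ∈ S 1
  mono : ∀ a b, a ≤ b → S a ≤ S b
  mul_mem : ∀ a b x y, x ∈ S a → y ∈ S b → x * y ∈ S (a + b)
  act_t : ∀ τ, act τ t = t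
  act_mem : ∀ τ a x, x ∈ S a → act τ x ∈ S a
  norm : ∀ a x, x ∈ S a → x ≠ 0 → ∃ P : κ[X], P ≠ 0 ∧ P.natDegree ≤ Fintype.card G * a ∧
    aeval t P = ∏ τ, act τ x
  dl_ne : dl ≠ 0
  dl_deg : dl.natDegree ≤ c
  D_t : D t = aeval t dl
  D_mem : ∀ a x, x ∈ S a → D x ∈ S (a + c)
  D_act : ∀ τ x, D (act τ x) = act τ (D x)
  F_t : F t = t
  F_C : ∀ u : κ, F (algebraMap κ R u) = algebraMap κ R (u ^ p)
  F_mem : ∀ a x, x ∈ S a → F x ∈ S a
  β_mem : ∀ τ, β τ ∈ S c
  β_ind : ∀ q : G → κ[X], ∑ τ, aeval t (q τ) * β τ = 0 → q = 0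
  trans : ∀ ρ ρ' : R →ₐ[κ] κ, dl.eval (ρ t) ≠ 0 → ρ t = ρ' t →
    ∃ τ, ρ' = ρ.comp (act τ).toAlgHom
  free : ∀ (ρ : R →ₐ[κ] κ) τ, dl.eval (ρ t) ≠ 0 → ρ.comp (act τ).toAlgHom = ρ → τ = 1
  ex : ∀ u : κ, dl.eval u ≠ 0 → ∃ ρ : R →ₐ[κ] κ, ρ t = u
  hat : ∀ ρ : R →ₐ[κ] κ, dl.eval (ρ t) ≠ 0 → ∃ h : R →ₐ[κ] PowerSeries κ, IsHat t dl D ρ h

namespace St

variable {p : ℕ} {κ : Type} [Field κ] {R : Type} [CommRing R] [Algebra κ R] {G : Type}
  [Group G] [Fintype G] (s : St p κ R G)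

/-- A good place. -/
def Good (ρ : R →ₐ[κ] κ) : Prop := s.dl.eval (ρ s.t) ≠ 0

/-- The place `ρ` is fixed by the Frobenius automorphism `act τ ∘ F`. -/
def Fix (τ : G) (ρ : R →ₐ[κ] κ) : Prop := ∀ x, ρ (s.act τ (s.F x)) = ρ x ^ p

/-- `h` is the expansion at the place `ρ`. -/
abbrev Hat (ρ : R →ₐ[κ] κ) (h : R →ₐ[κ] PowerSeries κ) : Prop := IsHat s.t s.dl s.D ρ h

/-- `dk k = dl(t)^k (d/dt)^k`. -/
noncomputable def dk : ℕ → (R →ₗ[κ] R)
  | 0 => LinearMap.id
  | k + 1 => s.D.toLinearMap.comp (dk k) -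
      (k : κ) • ((LinearMap.mulLeft κ (aeval s.t (derivative s.dl))).comp (dk k))

@[simp] theorem dk_zero (x : R) : s.dk 0 x = x := rfl

theorem dk_succ (k : ℕ) (x : R) : s.dk (k + 1) x = s.D (s.dk k x) -
    (k : κ) • (aeval s.t (derivative s.dl) * s.dk k x) := rfl

end St

/-- The constant in the error term. -/
def cst (N c : ℕ) : ℕ := 3 * (1 + N * (8 * (c + 1) + 1) + N * c) + N * c

end MP7U
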