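import Pool.Agent.Lib.MP_7f581e_U.E.Spec2

/-!
# C41, Block E2: auxiliary lemmas on the splitting field of a curve (helper6)
-/

set_option autoImplicit false

namespace MP7U

namespace HlpC

open Polynomial

/-- The polynomial over `κ(X)`. -/
noncomputable def f1 {κ : Type} [Field κ] (f : κ[X][X]) : (RatFunc κ)[X] :=
  f.map (algebraMap κ[X] (RatFunc κ))

theorem map_map_f1 {κ : Type} [Field κ] (f : κ[X][X]) (L : Type) [Field L] [Algebra κ L]
    [Algebra (RatFunc κ) L] [IsScalarTower κ (RatFunc κ) L] :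
    (f1 f).map (algebraMap (RatFunc κ) L)
      = f.map (aeval (tL κ L) : κ[X] →ₐ[κ] L).toRingHom := by
  unfold f1
  rw [map_map]
  congr 1
  ext x
  · simp
    rw [← aeval_C (tL κ L) x, aeval_tL]
    simp
  · show algebraMap (RatFunc κ) L (algebraMap κ[X] (RatFunc κ) X) = aeval (tL κ L) X
    rw [aeval_tL]

variable {κ : Type} [Field κ] {f : κ[X][X]} {n D : ℕ} {L : Type} [Field L] [Algebra κ L]
  [Algebra (RatFunc κ) L] [IsScalarTower κ (RatFunc κ) L]

theorem f1_monic (hf : IsCv κ f n D) : (f1 f).Monic := hf.monic.map _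

theorem f1_irr (hf : IsCv κ f n D) : Irreducible (f1 f) := hf.irr

theorem f1_prod (c : Sp κ f n L) :
    (f1 f).map (algebraMap (RatFunc κ) L) = ∏ j, (X - C (c.α j)) := by
  rw [map_map_f1, c.prod]

theorem aeval_f1 (c : Sp κ f n L) (x : L) : aeval x (f1 f) = ∏ j, (x - c.α j) := by
  rw [← eval_map_algebraMap, f1_prod c, eval_prod]
  simp

theorem aeval_f1_root (c : Sp κ f n L) (j : Fin n) : aeval (c.α j) (f1 f) = 0 := by
  rw [aeval_f1 c]
  exact Finset.prod_eq_zero (Finset.mem_univ j) (sub_self _)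

theorem f1_sep (c : Sp κ f n L) : (f1 f).Separable := by
  rw [← separable_map (algebraMap (RatFunc κ) L), f1_prod c, separable_prod_X_sub_C_iff]
  exact c.inj

theorem rootSet_f1 (c : Sp κ f n L) : (f1 f).rootSet L = Set.range c.α := by
  ext x
  rw [mem_rootSet', aeval_f1 c, f1_prod c]
  constructor
  · rintro ⟨_, h⟩
    obtain ⟨j, _, hj⟩ := Finset.prod_eq_zero_iff.1 h
    exact ⟨j, (sub_eq_zero.1 hj).symm⟩
  · rintro ⟨j, rfl⟩
    exact ⟨(monic_prod_of_monic _ _ fun j _ => monic_X_sub_C _).ne_zero,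
      Finset.prod_eq_zero (Finset.mem_univ j) (sub_self _)⟩

theorem isSplittingField (c : Sp κ f n L) : IsSplittingField (RatFunc κ) L (f1 f) := by
  rw [isSplittingField_iff_intermediateField]
  refine ⟨?_, ?_⟩
  · rw [f1_prod c]
    exact Splits.prod fun j _ => Splits.X_sub_C _
  · rw [rootSet_f1 c]
    exact c.gen

theorem adjoin_top (c : Sp κ f n L) : Algebra.adjoin (RatFunc κ) (Set.range c.α) = ⊤ := by
  haveI := isSplittingField c
  rw [← rootSet_f1 c]
  exact IsSplittingField.adjoin_rootSet L (f1 f)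

/-- automorphisms permute the roots -/
theorem ex_root (c : Sp κ f n L) (τ : L ≃ₐ[RatFunc κ] L) (j : Fin n) :
    ∃ i, τ (c.α j) = c.α i := by
  have h1 : aeval (τ (c.α j)) (f1 f) = 0 := by
    have := aeval_algHom_apply τ (c.α j) (f1 f)
    rw [this, aeval_f1_root c, map_zero]
  rw [aeval_f1 c] at h1
  obtain ⟨i, _, hi⟩ := Finset.prod_eq_zero_iff.1 h1
  exact ⟨i, sub_eq_zero.1 hi⟩

end HlpC

end MP7U
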