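import Pool.Agent.Lib.MP_7f581e_U.E.Spec1

/-!
# C41, Block E: auxiliary lemmas for Sml, DimE, InjE, Inj0 (helper6)
-/

set_option autoImplicit false

namespace MP7U

namespace HlpS

open Polynomial

theorem coe_aeval {κ : Type} [Field κ] (u : κ) (P : κ[X]) :
    aeval (PowerSeries.C u + PowerSeries.X : PowerSeries κ) P
      = ((P.comp (X + C u) : κ[X]) : PowerSeries κ) := by
  induction P using Polynomial.induction_on' with
  | add a b ha hb => rw [map_add, ha, hb, add_comp, Polynomial.coe_add]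
  | monomial j r =>
    rw [aeval_monomial, ← C_mul_X_pow_eq_monomial, mul_comp, C_comp, pow_comp, X_comp,
      Polynomial.coe_mul, Polynomial.coe_pow, Polynomial.coe_add, Polynomial.coe_C,
      Polynomial.coe_X, Polynomial.coe_C, add_comm (PowerSeries.C u)]
    rfl

/-- A nonzero polynomial of degree at most `n` is not divisible by `X ^ (n + 1)` at any point. -/
theorem not_dvd {κ : Type} [Field κ] (u : κ) {P : κ[X]} (hP : P ≠ 0) {n : ℕ}
    (hn : P.natDegree ≤ n) :
    ¬ PowerSeries.X ^ (n + 1) ∣ aeval (PowerSeries.C u + PowerSeries.X : PowerSeries κ) P := by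
  rw [coe_aeval, PowerSeries.X_pow_dvd_iff]
  intro h
  have h1 : P.comp (X + C u) ≠ 0 := fun h0 => hP (comp_X_add_C_eq_zero_iff.1 h0)
  have h2 : (P.comp (X + C u)).natDegree ≤ n := by
    rw [natDegree_comp, natDegree_X_add_C, mul_one]; exact hn
  have h3 := h _ (Nat.lt_succ_of_le h2)
  rw [Polynomial.coeff_coe] at h3
  exact h1 (leadingCoeff_eq_zero.1 h3)

variable {p : ℕ} {κ : Type} [Field κ] {R : Type} [CommRing R] [Algebra κ R] {G : Type}
  [Group G] [Fintype G]

theorem ex_hat [IsAlgClosed κ] (s : St p κ R G) :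
    ∃ (ρ : R →ₐ[κ] κ) (h : R →ₐ[κ] PowerSeries κ), s.Good ρ ∧ s.Hat ρ h := by
  have h1 : ∃ u : κ, s.dl.eval u ≠ 0 := by
    by_contra hn
    push Not at hn
    exact s.dl_ne (Polynomial.funext fun r => by rw [hn r, eval_zero])
  obtain ⟨u, hu⟩ := h1
  obtain ⟨ρ, hρ⟩ := s.ex u hu
  have hg : s.dl.eval (ρ s.t) ≠ 0 := by rw [hρ]; exact hu
  obtain ⟨h, hh⟩ := s.hat ρ hg
  exact ⟨ρ, h, hg, hh⟩

theorem nontriv (ρ : R →ₐ[κ] κ) : Nontrivial R := by
  refine ⟨⟨0, 1, fun h => ?_⟩⟩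
  have h1 := congrArg ρ h
  rw [map_zero, map_one] at h1
  exact zero_ne_one h1

theorem t_pow_mem (s : St p κ R G) : ∀ i : ℕ, s.t ^ i ∈ s.S i
  | 0 => by rw [pow_zero]; exact s.one_mem
  | i + 1 => by rw [pow_succ]; exact s.mul_mem i 1 _ _ (t_pow_mem s i) s.t_mem

end HlpS

end MP7U
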