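import Pool.Agent.Lib.MP_7f581e_U.E.Spec1

/-! # C41 (MP_7f581e_nt), block E: NumE, inequalities between natural numbers -/

set_option autoImplicit false

namespace MP7U

private theorem numE_two (p M N x w nc : ℕ) (hN : 1 ≤ N) (hM1 : M * M ≤ p)
    (hx : p < 4 * x + 4 * N) (hw : w ≤ M + 8 * nc + 9 * N)
    (hw2 : M + 8 * nc + 8 * N ≤ w) (hp : 10 * M + 8 * N ≤ p) :
    M * (x + w + (M + 2) * nc + 1) < x * w := by
  have h1 : M * w ≤ p + 8 * (M * nc) + 9 * (M * N) := by
    have := Nat.mul_le_mul_left M hw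
    nlinarith
  have h2 : x * (M + 8 * nc + 8 * N) ≤ x * w := Nat.mul_le_mul_left x hw2
  have h3 : p * (8 * (nc + N)) < (4 * x + 4 * N) * (8 * (nc + N)) :=
    Nat.mul_lt_mul_of_pos_right hx (by omega)
  have h4 : (10 * M + 8 * N) * (nc + N) ≤ p * (nc + N) := Nat.mul_le_mul_right _ hp
  have h5 : M * M * nc ≤ p * nc := Nat.mul_le_mul_right _ hM1
  have h6 : p * 1 ≤ p * N := Nat.mul_le_mul_left p hN
  have h7 : M * 1 ≤ M * N := Nat.mul_le_mul_left M hN
  nlinarith

/-- **NumE.** -/
theorem eNumE : NumEStmt := by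
  intro p N c hN hp M A B
  have hM1 : M * M ≤ p := Nat.sqrt_le p
  have hM2 : p ≤ M * M + M + M := Nat.sqrt_le_add p
  have hM20 : 20 ≤ M := Nat.le_sqrt.mpr (by omega)
  have hA1 : 4 * (N * A) ≤ p := by
    have := Nat.mul_div_le p (4 * N)
    rw [← mul_assoc]; exact this
  have hA2 : p < 4 * (N * A) + 4 * N := by
    have := Nat.lt_mul_div_succ p (show 0 < 4 * N by omega)
    calc p < 4 * N * (p / (4 * N) + 1) := this
      _ = 4 * (N * A) + 4 * N := by ring
  have hB1 : N * (M / N) ≤ M := Nat.mul_div_le M N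
  have hB2 : M < N * (M / N) + N := by
    have := Nat.lt_mul_div_succ M (show 0 < N by omega)
    rwa [mul_add, mul_one] at this
  have hw : N * B = N * (M / N) + 8 * (N * c) + 9 * N := by
    change N * (M / N + (8 * (c + 1) + 1)) = _
    ring
  have h20 : 20 * M ≤ M * M := Nat.mul_le_mul_right M hM20
  have hp' : 400 + 16 * N + 4 * (N * c) < p := by rw [← mul_assoc]; exact hp
  set x := N * A with hx
  set nc := N * c with hnc
  set w := N * B with hwdef
  refine ⟨?_, ?_, ?_, Nat.sqrt_le_self p, by omega⟩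
  · rw [mul_add, ← hx, ← hnc]
    omega
  · have h1 : N * (A + B + (M + 2) * c) = x + w + (M + 2) * nc := by
      rw [hx, hwdef, hnc]; ring
    rw [h1]
    exact numE_two p M N x w nc hN hM1 hA2 (by omega) (by omega) (by omega)
  · have h1 : N * ((A + c) + p * (B + c)) = x + nc + p * (w + nc) := by
      rw [hx, hwdef, hnc]; ring
    have h2 : cst N c = 3 * (1 + 8 * nc + 9 * N + nc) + nc := by
      rw [cst, hnc]; ring
    rw [h1, h2]
    have h3 : p ≤ 3 * (M * M) := by omega
    have h4 : p * (w + nc) ≤ p * (M + 9 * nc + 9 * N) := Nat.mul_le_mul_left p (by omega)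
    have h5 : p * (1 + 9 * nc + 9 * N) ≤ 3 * (M * M) * (1 + 9 * nc + 9 * N) :=
      Nat.mul_le_mul_right _ h3
    have h6 : 1 * nc ≤ M * M * nc := Nat.mul_le_mul_right nc (by nlinarith)
    have h7 : x ≤ p := by omega
    nlinarith

end MP7U
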