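import Pool.Agent.Lib.MP_7f581e_U.E.Spec2

/-!
# C41 (MP_7f581e_nt), E/PlE: places exist (helper25, task 11980)
-/

set_option autoImplicit false

namespace MP7U

open Polynomial

namespace PlEM

theorem key {κ R : Type} [Field κ] [IsAlgClosed κ] [CommRing R] [Algebra κ R] (t : R) (u : κ)
    (hinj : Function.Injective (aeval t : κ[X] →ₐ[κ] R))
    (hint : ∀ x : R, (aeval t : κ[X] →ₐ[κ] R).toRingHom.IsIntegralElem x) :
    ∃ ρ : R →ₐ[κ] κ, ρ t = u := by
  letI : Algebra κ[X] R := (aeval t : κ[X] →ₐ[κ] R).toRingHom.toAlgebra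
  have halg : ∀ P : κ[X], algebraMap κ[X] R P = aeval t P := fun P => rfl
  haveI : Algebra.IsIntegral κ[X] R := ⟨hint⟩
  haveI hM : (Ideal.span {X - C u} : Ideal κ[X]).IsMaximal :=
    PrincipalIdealRing.isMaximal_of_irreducible (irreducible_X_sub_C u)
  obtain ⟨Q, hQ, hQM⟩ := Ideal.exists_ideal_over_maximal_of_isIntegral (S := R)
    (Ideal.span {X - C u} : Ideal κ[X]) (by
      rw [(RingHom.injective_iff_ker_eq_bot (algebraMap κ[X] R)).1 hinj]
      exact bot_le)
  haveI := hQ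
  haveI : IsDomain (R ⧸ Q) := Ideal.Quotient.isDomain Q
  have htu : Ideal.Quotient.mk Q t = algebraMap κ (R ⧸ Q) u := by
    have h1 : (X - C u : κ[X]) ∈ Q.comap (algebraMap κ[X] R) := by
      rw [hQM]
      exact Ideal.mem_span_singleton_self _
    rw [Ideal.mem_comap, halg, map_sub, aeval_X, aeval_C] at h1
    rw [← sub_eq_zero, ← Ideal.Quotient.mk_algebraMap, ← map_sub]
    exact Ideal.Quotient.eq_zero_iff_mem.2 h1
  have hcomp : (Ideal.Quotient.mk Q).comp (algebraMap κ[X] R) =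
      (algebraMap κ (R ⧸ Q)).comp (evalRingHom u) := by
    refine Polynomial.ringHom_ext (fun a => ?_) ?_
    · rw [RingHom.comp_apply, RingHom.comp_apply, halg, aeval_C, coe_evalRingHom, eval_C,
        Ideal.Quotient.mk_algebraMap]
    · rw [RingHom.comp_apply, RingHom.comp_apply, halg, aeval_X, coe_evalRingHom, eval_X, htu]
  haveI : Algebra.IsIntegral κ (R ⧸ Q) := by
    refine ⟨fun y => ?_⟩
    obtain ⟨x, rfl⟩ := Ideal.Quotient.mk_surjective y
    obtain ⟨q, hq, h0⟩ := hint x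
    refine ⟨q.map (evalRingHom u), hq.map _, ?_⟩
    rw [eval₂_map, ← hcomp, ← hom_eval₂]
    have h1 : eval₂ (algebraMap κ[X] R) x q = 0 := h0
    rw [h1, map_zero]
  have hbij : Function.Bijective (algebraMap κ (R ⧸ Q)) :=
    IsAlgClosed.algebraMap_bijective_of_isIntegral
  let E : κ ≃ₐ[κ] (R ⧸ Q) := AlgEquiv.ofBijective (Algebra.ofId κ (R ⧸ Q)) hbij
  refine ⟨(E.symm : (R ⧸ Q) →ₐ[κ] κ).comp (Ideal.Quotient.mkₐ κ Q), ?_⟩
  rw [AlgHom.comp_apply, Ideal.Quotient.mkₐ_eq_mk, htu]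
  exact (E.symm_apply_eq).2 rfl

end PlEM

theorem ePlE (hInt : IntEStmt) : PlEStmt := by
  intro κ _ _ f n D hf L _ _ _ _ c u
  have hval : ∀ P : κ[X], (c.R.val (aeval c.tR P) : L) = aeval (tL κ L) P := fun P => by
    rw [← aeval_algHom_apply]
    rfl
  refine PlEM.key c.tR u ?_ ?_
  · intro a b hab
    apply aeval_tL_injective κ L
    rw [← hval, ← hval, hab]
  · intro x
    obtain ⟨q, hq, h0⟩ := hInt κ f n D hf L c x.1 x.2
    refine ⟨q, hq, ?_⟩
    apply Subtype.val_injective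
    have h1 := hom_eval₂ q (aeval c.tR : κ[X] →ₐ[κ] c.R).toRingHom (c.R.val : c.R →+* L) x
    have h2 : (c.R.val : c.R →+* L).comp (aeval c.tR : κ[X] →ₐ[κ] c.R).toRingHom =
        (aeval (tL κ L) : κ[X] →ₐ[κ] L).toRingHom := by
      apply RingHom.ext
      intro P
      exact hval P
    rw [h2] at h1
    exact h1.trans h0

end MP7U
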