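import Pool.Agent.Lib.MP_7f581e_U.E.HlpS

/-!
# C41, Block E: SumE (helper6, after helper93's docstring)
-/

set_option autoImplicit false

namespace MP7U

open Polynomial

namespace SumEM

variable {p : ℕ} {κ : Type} [Field κ] {R : Type} [CommRing R] [Algebra κ R] {G : Type}
  [Group G] [Fintype G]

theorem inj_act (s : St p κ R G) {ρ : R →ₐ[κ] κ} (hg : s.dl.eval (ρ s.t) ≠ 0) {τ τ' : G}
    (h : ρ.comp (s.act τ).toAlgHom = ρ.comp (s.act τ').toAlgHom) : τ = τ' := by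
  have h1 : ρ.comp (s.act (τ * τ'⁻¹)).toAlgHom = ρ := by
    ext x
    have h2 := DFunLike.congr_fun h (s.act τ'⁻¹ x)
    have h3 : ρ (s.act τ (s.act τ'⁻¹ x)) = ρ (s.act τ' (s.act τ'⁻¹ x)) := h2
    have h4 : s.act τ (s.act τ'⁻¹ x) = s.act (τ * τ'⁻¹) x := by rw [map_mul]; rfl
    have h5 : s.act τ' (s.act τ'⁻¹ x) = x := by
      have : s.act τ' (s.act τ'⁻¹ x) = (s.act τ' * s.act τ'⁻¹) x := rfl
      rw [this, ← map_mul, mul_inv_cancel, map_one]
      rfl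
    rw [h4, h5] at h3
    exact h3
  have h2 := s.free ρ _ hg h1
  exact mul_inv_eq_one.1 h2

/-- Every good place above a point of `𝔽_p` is fixed by exactly one Frobenius automorphism. -/
theorem ex_unique_fix [Fact p.Prime] [CharP κ p] [IsAlgClosed κ] (s : St p κ R G)
    (ρ : R →ₐ[κ] κ) (hu : ρ s.t ^ p = ρ s.t) (hg : s.dl.eval (ρ s.t) ≠ 0) :
    ∃! τ, s.Fix τ ρ := by
  haveI : ExpChar κ p := ExpChar.prime Fact.out
  have hp : 0 < p := (Fact.out : p.Prime).pos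
  let φ : R →+* κ := (frobenius κ p).comp ((ρ : R →+* κ).comp (s.F.symm : R →+* R))
  have hφ : ∀ x, φ x = ρ (s.F.symm x) ^ p := fun x => rfl
  have hφC : ∀ y : κ, φ (algebraMap κ R y) = y := by
    intro y
    obtain ⟨z, hz⟩ := IsAlgClosed.exists_pow_nat_eq y hp
    have h1 : s.F.symm (algebraMap κ R y) = algebraMap κ R z := by
      rw [RingEquiv.symm_apply_eq, s.F_C, hz]
    rw [hφ, h1, AlgHom.commutes]
    exact hz
  let ρ' : R →ₐ[κ] κ := { φ with commutes' := hφC }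
  have hρ' : ∀ x, ρ' x = ρ (s.F.symm x) ^ p := fun x => rfl
  have ht : ρ s.t = ρ' s.t := by
    have h1 : s.F.symm s.t = s.t := by
      rw [RingEquiv.symm_apply_eq, s.F_t]
    rw [hρ', h1, hu]
  have hiff : ∀ τ, s.Fix τ ρ ↔ ρ' = ρ.comp (s.act τ).toAlgHom := by
    intro τ
    constructor
    · intro h
      ext y
      rw [hρ', ← h]
      show ρ (s.act τ (s.F (s.F.symm y))) = ρ (s.act τ y)
      rw [RingEquiv.apply_symm_apply]
    · intro h x
      have h1 := DFunLike.congr_fun h (s.F x)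
      rw [hρ', RingEquiv.symm_apply_apply] at h1
      exact h1.symm
  obtain ⟨τ, hτ⟩ := s.trans ρ ρ' hg ht
  refine ⟨τ, (hiff τ).2 hτ, fun τ' hτ' => ?_⟩
  have h1 := (hiff τ').1 hτ'
  exact inj_act s hg (h1.symm.trans hτ)

end SumEM

theorem eSumE : SumEStmt := by
  intro p _ κ _ _ _ R _ _ G _ _ s 𝓐 h𝓐
  classical
  have hex : ∀ u : 𝓐, ∃ ρ : R →ₐ[κ] κ, ρ s.t = u := fun u => s.ex u (h𝓐 u u.2).2
  choose r hr using hex
  let Φ : 𝓐 × G → (R →ₐ[κ] κ) := fun x => (r x.1).comp (s.act x.2).toAlgHom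
  have hΦt : ∀ x, Φ x s.t = x.1 := by
    intro x
    show r x.1 (s.act x.2 s.t) = x.1
    rw [s.act_t, hr]
  have hΦi : Function.Injective Φ := by
    intro x y hxy
    have h1 : x.1 = y.1 := by
      apply Subtype.ext
      rw [← hΦt x, ← hΦt y, hxy]
    have h2 : (r x.1).comp (s.act x.2).toAlgHom = (r x.1).comp (s.act y.2).toAlgHom := by
      have h3 : Φ y = (r x.1).comp (s.act y.2).toAlgHom := by rw [h1]
      rw [← h3]; exact hxy
    have h3 : s.dl.eval (r x.1 s.t) ≠ 0 := by rw [hr]; exact (h𝓐 _ x.1.2).2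
    exact Prod.ext h1 (SumEM.inj_act s h3 h2)
  set Xs : Finset (R →ₐ[κ] κ) := Finset.univ.image Φ with hX
  have hXm : ∀ ρ, ρ ∈ Xs ↔ ρ s.t ∈ 𝓐 := by
    intro ρ
    rw [hX, Finset.mem_image]
    constructor
    · rintro ⟨x, _, rfl⟩
      rw [hΦt]; exact x.1.2
    · intro h
      have h1 : r ⟨ρ s.t, h⟩ s.t = ρ s.t := hr ⟨ρ s.t, h⟩
      obtain ⟨τ, hτ⟩ := s.trans (r ⟨ρ s.t, h⟩) ρ (by rw [h1]; exact (h𝓐 _ h).2) h1
      exact ⟨(⟨ρ s.t, h⟩, τ), Finset.mem_univ _, hτ.symm⟩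
  refine ⟨fun τ => Xs.filter fun ρ => s.Fix τ ρ, fun τ ρ => ?_, ?_⟩
  · rw [Finset.mem_filter, hXm]
  · have h1 : ∀ τ, (Xs.filter fun ρ => s.Fix τ ρ).card
        = ∑ ρ ∈ Xs, if s.Fix τ ρ then 1 else 0 := fun τ => Finset.card_filter _ _
    simp only [h1]
    rw [Finset.sum_comm]
    have h2 : ∀ ρ ∈ Xs, ∑ τ : G, (if s.Fix τ ρ then 1 else 0) = 1 := by
      intro ρ hρ
      have hm := (hXm ρ).1 hρ
      obtain ⟨τ, hτ, huq⟩ := SumEM.ex_unique_fix s ρ (h𝓐 _ hm).1 (h𝓐 _ hm).2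
      rw [Finset.sum_eq_single τ]
      · rw [if_pos hτ]
      · intro b _ hb
        rw [if_neg fun h => hb (huq b h)]
      · intro h
        exact absurd (Finset.mem_univ τ) h
    rw [Finset.sum_congr rfl h2, Finset.sum_const, smul_eq_mul, mul_one, hX,
      Finset.card_image_of_injective _ hΦi, Finset.card_univ, Fintype.card_prod,
      Fintype.card_coe, mul_comm]

end MP7U
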