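import Pool.Agent.Lib.MP_7f581e_U.E.Spec2

/-! # C41 (MP_7f581e_nt), block E: WthE, points over `𝔽_p` for large `p` -/

set_option autoImplicit false

namespace MP7U

open Polynomial

namespace WthEM

/-- The number of elements of `ZMod p` at which two nonzero polynomials do not vanish. -/
private theorem count (p : ℕ) [Fact p.Prime] (κ : Type) [Field κ] (i : ZMod p →+* κ)
    (dl : κ[X]) (g : (ZMod p)[X]) (hdl : dl ≠ 0) (hg : g ≠ 0) (a b : ℕ)
    (ha : dl.natDegree ≤ a) (hb : g.natDegree ≤ b) :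
    ∃ 𝓐 : Finset κ, (∀ u ∈ 𝓐, ∃ x : ZMod p, i x = u ∧ dl.eval u ≠ 0 ∧ g.eval x ≠ 0) ∧
      p ≤ 𝓐.card + (a + b) := by
  classical
  set B : Finset (ZMod p) := Finset.univ.filter fun x => dl.eval (i x) ≠ 0 ∧ g.eval x ≠ 0
    with hB
  refine ⟨B.image i, ?_, ?_⟩
  · intro u hu
    obtain ⟨x, hx, rfl⟩ := Finset.mem_image.mp hu
    rw [hB, Finset.mem_filter] at hx
    exact ⟨x, rfl, hx.2.1, hx.2.2⟩
  · rw [Finset.card_image_of_injective _ i.injective]
    have h1 : (Finset.univ : Finset (ZMod p)) ⊆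
        B ∪ ((Finset.univ.filter fun x => dl.eval (i x) = 0) ∪ g.roots.toFinset) := by
      intro x _
      by_cases h2 : dl.eval (i x) = 0
      · simp [h2]
      · by_cases h3 : g.eval x = 0
        · simp [h3, hg]
        · simp [hB, h2, h3]
    have h2 := Finset.card_le_card h1
    rw [Finset.card_univ, ZMod.card] at h2
    have h3 : (Finset.univ.filter fun x : ZMod p => dl.eval (i x) = 0).card ≤ a := by
      rw [← Finset.card_image_of_injective _ i.injective]
      have h4 : (Finset.univ.filter fun x : ZMod p => dl.eval (i x) = 0).image i ⊆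
          dl.roots.toFinset := by
        intro u hu
        obtain ⟨x, hx, rfl⟩ := Finset.mem_image.mp hu
        rw [Finset.mem_filter] at hx
        rw [Multiset.mem_toFinset, mem_roots hdl]
        exact hx.2
      exact ((Finset.card_le_card h4).trans (Multiset.toFinset_card_le _)).trans
        ((card_roots' dl).trans ha)
    have h4 : g.roots.toFinset.card ≤ b :=
      (Multiset.toFinset_card_le _).trans ((card_roots' g).trans hb)
    have h5 := Finset.card_union_le B
      ((Finset.univ.filter fun x => dl.eval (i x) = 0) ∪ g.roots.toFinset)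
    have h6 := Finset.card_union_le (Finset.univ.filter fun x => dl.eval (i x) = 0)
      g.roots.toFinset
    omega

/-- Elements fixed by the Frobenius map come from the prime field. -/
private theorem fixed (p : ℕ) [Fact p.Prime] (κ : Type) [Field κ] [CharP κ p]
    (i : ZMod p →+* κ) (b : κ) (hb : b ^ p = b) : ∃ y : ZMod p, i y = b := by
  rw [← Subfield.mem_bot_iff_pow_eq_self (F := κ) (p := p), ← ZMod.fieldRange_castHom_eq_bot p] at hb
  obtain ⟨y, hy⟩ := hb
  exact ⟨y, by rw [← hy]; exact congrArg (fun f : ZMod p →+* κ => f y) (Subsingleton.elim _ _)⟩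

private theorem ev_map (p : ℕ) [Fact p.Prime] (κ : Type) [Field κ]
    (i : ZMod p →+* κ) (f : (ZMod p)[X][X]) (a b : ZMod p) :
    ev (f.map (mapRingHom i)) (i a) (i b) = i ((f.eval (C b)).eval a) := by
  have h1 : ((aeval (i a) : κ[X] →ₐ[κ] κ).toRingHom).comp (mapRingHom i) =
      i.comp (evalRingHom a) := by
    apply Polynomial.ringHom_ext
    · intro x
      simp
    · simp
  have h2 : evalRingHom a (C b) = b := by simp
  rw [ev, eval₂_map, h1, ← hom_eval₂, ← coe_evalRingHom a, ← eval₂_at_apply, h2]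

end WthEM

open WthEM in
/-- **WthE.** -/
theorem eWthE (h1 : FixEStmt) (h2 : DatEStmt) : WthEStmt := by
  intro n D hn hD
  obtain ⟨p₂, hp₂⟩ := h1 n.factorial (n * n * D) (n * n * D + D)
  refine ⟨max p₂ n, ?_⟩
  intro p _ hp f g hmon hdeg hcf hirr hg hgD
  have hpp₂ : p₂ < p := lt_of_le_of_lt (le_max_left _ _) hp
  have hpn : n < p := lt_of_le_of_lt (le_max_right _ _) hp
  set κ : Type := AlgebraicClosure (ZMod p) with hκ
  set i : ZMod p →+* κ := algebraMap (ZMod p) (AlgebraicClosure (ZMod p)) with hi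
  haveI : CharP κ p := charP_of_injective_algebraMap
    (algebraMap (ZMod p) (AlgebraicClosure (ZMod p))).injective p
  set f₁ : κ[X][X] := f.map (mapRingHom i) with hf₁
  have hcv : IsCv κ f₁ n D := by
    refine ⟨hmon.map _, ?_, hn, hD, ?_, ?_⟩
    · rw [hf₁, hmon.natDegree_map, hdeg]
    · intro k
      rw [hf₁, coeff_map]
      exact natDegree_map_le.trans (hcf k)
    · rw [hf₁, Polynomial.map_map]
      exact hirr
  have hfr : f₁.map (mapRingHom (frobenius κ p)) = f₁ := by
    have h3 : (mapRingHom (frobenius κ p)).comp (mapRingHom i) = mapRingHom i := by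
      have h4 : (frobenius κ p).comp i = i := by
        apply RingHom.ext
        intro x
        rw [RingHom.comp_apply, frobenius_def, ← map_pow, ZMod.pow_card]
      rw [mapRingHom_comp, h4]
    rw [hf₁, Polynomial.map_map, h3]
  obtain ⟨R, _, _, G, _, _, s, α, hG, hc, hev, hF⟩ := h2 p κ f₁ n D hcv hpn hfr
  obtain ⟨𝓐, h𝓐, hcard⟩ := count p κ i s.dl g s.dl_ne hg (n * n * D) D
    (s.dl_deg.trans hc) hgD
  obtain ⟨ρ, hρ, hρF⟩ := hp₂ p hpp₂ κ R G s 𝓐 hG hc (fun u hu => by
    obtain ⟨x, rfl, hx, -⟩ := h𝓐 u hu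
    exact ⟨by rw [← map_pow, ZMod.pow_card], hx⟩) hcard
  obtain ⟨a, ha, -, hga⟩ := h𝓐 _ hρ
  have hb : ρ α ^ p = ρ α := by rw [← hρF, hF]
  obtain ⟨b, hb⟩ := fixed p κ i _ hb
  refine ⟨a, b, hga, ?_⟩
  have h5 : ev f₁ (ρ s.t) (ρ α) = 0 := by
    rw [← map_ev, hev, map_zero]
  rw [← ha, ← hb, hf₁, ev_map] at h5
  exact (map_eq_zero i).mp h5

end MP7U
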